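import Mathlib.Data.Set.Card
import Mathlib.Data.Fintype.Card
import Mathlib.Data.ZMod.Basic
import Mathlib.Logic.Relation
import Mathlib.LinearAlgebra.Span.Basic
import Mathlib.LinearAlgebra.Pi
import Mathlib.Algebra.Ring.Parity

/-!
Definitions for the statements about finite multigraphs. A multigraph with vertex set `V` and edge
set `E` is given by two maps `s t : E → V`: the ends of the edge `e` are `s e` and `t e`. Loops
(`s e = t e`) and parallel edges are allowed.
-/

set_option autoImplicit false

namespace Pool.Agent.TH362.Multi

variable {V E : Type}

/-- The degree of the vertex `v` in the subgraph with edge set `C` (a loop counts twice). -/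
noncomputable def degree (s t : E → V) (C : Set E) (v : V) : ℕ :=
  {e | e ∈ C ∧ s e = v}.ncard + {e | e ∈ C ∧ t e = v}.ncard

/-- The vertices `u` and `v` are the ends of an edge in `C`. -/
def Step (s t : E → V) (C : Set E) (u v : V) : Prop :=
  ∃ e ∈ C, (s e = u ∧ t e = v) ∨ (s e = v ∧ t e = u)

/-- The vertices `u` and `v` are joined by a path all of whose edges are in `C`. -/
def Linked (s t : E → V) (C : Set E) (u v : V) : Prop := Relation.ReflTransGen (Step s t C) u v

/-- The edge `e` is an isthmus: its ends are not joined by a path avoiding `e`. -/
def Isthmus (s t : E → V) (e : E) : Prop := ¬ Linked s t {e}ᶜ (s e) (t e)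

/-- The edge set `C` is a cycle: all degrees in the subgraph with edge set `C` are even. -/
def IsCycle (s t : E → V) (C : Set E) : Prop := ∀ v, Even (degree s t C v)

/-- The vertex set `B` is not empty, and any two vertices of `B` are joined by a path inside
`B`. -/
def ConnectedSet (s t : E → V) (B : Set V) : Prop :=
  B.Nonempty ∧ ∀ u ∈ B, ∀ v ∈ B, Linked s t {e | s e ∈ B ∧ t e ∈ B} u v

/-- Some connected component of the graph can be contracted to the Petersen graph (the graph on
the ten pairs of elements of `Fin 5` in which disjoint pairs are adjacent): there are ten disjoint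
connected vertex sets such that there is exactly one edge between two sets of disjoint pairs, no
edge between two sets of different intersecting pairs, and no edge from one of the ten sets to a
vertex outside of all ten sets. -/
def ContractsToPetersen (s t : E → V) : Prop :=
  ∃ B : {p : Finset (Fin 5) // p.card = 2} → Set V,
    (∀ i, ConnectedSet s t (B i)) ∧
    (∀ i j, i ≠ j → Disjoint (B i) (B j)) ∧
    (∀ i j, Disjoint i.1 j.1 → ∃! e, (s e ∈ B i ∧ t e ∈ B j) ∨ (s e ∈ B j ∧ t e ∈ B i)) ∧
    ∀ e i, (s e ∈ B i → ∃ j, t e ∈ B j ∧ (i = j ∨ Disjoint i.1 j.1)) ∧
      (t e ∈ B i → ∃ j, s e ∈ B j ∧ (i = j ∨ Disjoint i.1 j.1))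

/-- The star of the vertex `v`, a vector over the field with two elements indexed by the edges:
the coordinate at `e` is the number of the ends of `e` that are equal to `v`, modulo two. -/
def star [DecidableEq V] (s t : E → V) (v : V) : E → ZMod 2 :=
  fun e => (if s e = v then 1 else 0) + (if t e = v then 1 else 0)

/-- The set `S` of vectors represents the bond matroid (the dual of the cycle matroid) of the
graph, with the edges in bijection with the elements of `S`: there is a linear map `ψ` whose
kernel is spanned by the stars of the vertices and which maps the unit vectors bijectively onto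
`S`. -/
def RepresentsBondMatroid [DecidableEq V] [DecidableEq E] (s t : E → V) (n : ℕ)
    (S : Set (Fin n → ZMod 2)) : Prop :=
  ∃ ψ : (E → ZMod 2) →ₗ[ZMod 2] (Fin n → ZMod 2),
    LinearMap.ker ψ = Submodule.span (ZMod 2) (Set.range (star s t)) ∧
    Function.Injective (fun e => ψ (Pi.single e 1)) ∧
    Set.range (fun e => ψ (Pi.single e 1)) = S

end Pool.Agent.TH362.Multi
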