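import Pool.Agent.TH362.TF.Basic
import Pool.Agent.TH362.TF.Multi
import Mathlib.LinearAlgebra.Dimension.Finrank
import Mathlib.LinearAlgebra.Basis.VectorSpace
import Mathlib.LinearAlgebra.Pi
import Mathlib.LinearAlgebra.Isomorphisms
import Mathlib.Algebra.Field.ZMod

set_option autoImplicit false

namespace Pool.Agent.TH362.TF

open Finset

set_option linter.unusedSectionVars false
set_option synthInstance.maxHeartbeats 400000
set_option synthInstance.maxSize 2048

namespace Bond

/-- one end of an edge of the Petersen graph -/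
def pa : Fin 15 → Fin 10 := ![0,1,2,3,4,5,6,7,8,9,0,1,2,3,4]

/-- the other end of an edge of the Petersen graph -/
def pb : Fin 15 → Fin 10 := ![1,2,3,4,0,7,8,9,5,6,5,6,7,8,9]

/-- the star of a vertex of the Petersen graph -/
def pstar (v : Fin 10) : Fin 15 → ZMod 2 := fun k => if pa k = v ∨ pb k = v then 1 else 0

/-- a linear map that vanishes on the kernel factors -/
theorem ext_lin {A B C : Type} [AddCommGroup A] [AddCommGroup B] [AddCommGroup C]
    [Module (ZMod 2) A] [Module (ZMod 2) B] [Module (ZMod 2) C]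
    (ψ : A →ₗ[ZMod 2] B) (Φ : A →ₗ[ZMod 2] C) (h : LinearMap.ker ψ ≤ LinearMap.ker Φ) :
    ∃ L : B →ₗ[ZMod 2] C, ∀ x, L (ψ x) = Φ x := by
  obtain ⟨g, hg⟩ := LinearMap.exists_extend
    ((LinearMap.ker ψ).liftQ Φ h ∘ₗ ψ.quotKerEquivRange.symm.toLinearMap)
  refine ⟨g, fun x => ?_⟩
  have h1 := LinearMap.congr_fun hg ⟨ψ x, LinearMap.mem_range_self ψ x⟩
  rw [LinearMap.comp_apply, LinearMap.comp_apply, Submodule.coe_subtype, LinearEquiv.coe_coe,
    LinearMap.quotKerEquivRange_symm_apply_image, Submodule.mkQ_apply, Submodule.liftQ_apply] at h1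
  exact h1

/-- the values of a flow as functions -/
def tau : F →+ (Fin 2 → ZMod 2) where
  toFun x := ![x.1, x.2]
  map_zero' := by decide
  map_add' := by decide

theorem tau_ne (x : F) (h : x ≠ 0) : tau x ≠ 0 := by
  revert x; decide

section
variable {V E : Type} [Fintype V] [DecidableEq V] [Fintype E] [DecidableEq E]

theorem sum_star (s t : E → V) (x : V → Bool) :
    ∑ v ∈ univ.filter (fun v => x v = true), Multi.star s t v =
      fun e => if x (s e) ≠ x (t e) then 1 else 0 := by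
  funext e
  rw [Finset.sum_apply]
  unfold Multi.star
  rw [Finset.sum_add_distrib, Finset.sum_ite_eq, Finset.sum_ite_eq]
  simp only [Finset.mem_filter, Finset.mem_univ, true_and]
  have h2 : (1 : ZMod 2) + 1 = 0 := by decide
  cases x (s e) <;> cases x (t e) <;> simp [h2]

theorem star_ker {s t : E → V} {n : ℕ} {ψ : (E → ZMod 2) →ₗ[ZMod 2] (Fin n → ZMod 2)}
    (hk : LinearMap.ker ψ = Submodule.span (ZMod 2) (Set.range (Multi.star s t)))
    (x : V → Bool) : ψ (fun e => if x (s e) ≠ x (t e) then 1 else 0) = 0 := by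
  rw [← sum_star, ← LinearMap.mem_ker, hk]
  exact Submodule.sum_mem _ fun v _ => Submodule.subset_span ⟨v, rfl⟩

theorem n1 {s t : E → V} {n : ℕ} {ψ : (E → ZMod 2) →ₗ[ZMod 2] (Fin n → ZMod 2)}
    (hk : LinearMap.ker ψ = Submodule.span (ZMod 2) (Set.range (Multi.star s t)))
    (hne : ∀ e, ψ (Pi.single e 1) ≠ 0) : N1 s t univ := by
  intro x hx
  obtain ⟨e, he⟩ := Finset.card_eq_one.1 hx
  have h1 := star_ker hk x
  have h2 : (fun e => if x (s e) ≠ x (t e) then (1 : ZMod 2) else 0) = Pi.single e 1 := by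
    funext e'
    have h3 : e' ∈ cut s t univ x ↔ e' = e := by rw [he, Finset.mem_singleton]
    simp only [cut, Finset.mem_filter, Finset.mem_univ, true_and] at h3
    by_cases h4 : e' = e
    · subst h4; rw [if_pos (h3.2 rfl), Pi.single_eq_same]
    · rw [if_neg (fun h => h4 (h3.1 h)), Pi.single_eq_of_ne h4]
  rw [h2] at h1
  exact hne e h1

theorem not_nz {s t : E → V} {n : ℕ} {ψ : (E → ZMod 2) →ₗ[ZMod 2] (Fin n → ZMod 2)}
    (hk : LinearMap.ker ψ = Submodule.span (ZMod 2) (Set.range (Multi.star s t)))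
    (h1 : ¬ ∃ L : (Fin n → ZMod 2) →ₗ[ZMod 2] (Fin 2 → ZMod 2), ∀ e, L (ψ (Pi.single e 1)) ≠ 0) :
    ¬ NZ s t univ := by
  rintro ⟨φ, hφ0, hφc⟩
  apply h1
  obtain ⟨L, hL⟩ := ext_lin ψ (Fintype.linearCombination (ZMod 2) (fun e => tau (φ e))) (by
    rw [hk, Submodule.span_le]
    rintro _ ⟨v, rfl⟩
    rw [SetLike.mem_coe, LinearMap.mem_ker, Fintype.linearCombination_apply]
    have h2 := congrArg tau (hφc v)
    rw [map_zero, map_sum] at h2
    rw [← h2]
    refine Finset.sum_congr rfl fun e _ => ?_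
    unfold Multi.star
    rw [map_add, add_smul]
    congr 1
    · split_ifs <;> simp
    · split_ifs <;> simp)
  refine ⟨L, fun e => ?_⟩
  rw [hL, Fintype.linearCombination_apply_single, one_smul]
  exact tau_ne _ (hφ0 e (Finset.mem_univ e))

theorem eps_exists {s t : E → V} {κ : V → Fin 10} (h : IsPQ s t univ κ) :
    ∃ eps : Fin 15 → E, ∀ j, Joins κ s t (pa j) (pb j) (eps j) := by
  have h1 : ∀ j, padj (pa j) (pb j) = true := by decide
  choose eps h2 using fun j => h.2 _ _ (h1 j)
  exact ⟨eps, fun j => (h2 j).2⟩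

theorem pab (j : Fin 15) : pa j ≠ pb j := by revert j; decide

theorem eps_inj {s t : E → V} {κ : V → Fin 10} {eps : Fin 15 → E}
    (hj : ∀ j, Joins κ s t (pa j) (pb j) (eps j)) : Function.Injective eps := by
  intro i j hij
  have h1 := hj i
  have h2 := hj j
  rw [hij] at h1
  have key : ∀ i j : Fin 15, (pa i = pa j ∧ pb i = pb j) ∨ (pa i = pb j ∧ pb i = pa j) → i = j := by
    decide
  apply key
  rcases h1 with ⟨a, b⟩ | ⟨a, b⟩ <;> rcases h2 with ⟨c, d⟩ | ⟨c, d⟩
  · exact Or.inl ⟨a.symm.trans c, b.symm.trans d⟩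
  · exact Or.inr ⟨a.symm.trans c, b.symm.trans d⟩
  · exact Or.inr ⟨b.symm.trans d, a.symm.trans c⟩
  · exact Or.inl ⟨b.symm.trans d, a.symm.trans c⟩

theorem mem_cut {s t : E → V} {κ : V → Fin 10} {e : E} {j : Fin 15}
    (hj : Joins κ s t (pa j) (pb j) e) (k : Fin 10) :
    decide (κ (s e) = k) ≠ decide (κ (t e) = k) ↔ pa j = k ∨ pb j = k := by
  have h := pab j
  rcases hj with ⟨a, b⟩ | ⟨a, b⟩
  · rw [a, b]
    by_cases h1 : pa j = k
    · have h2 : pb j ≠ k := fun h2 => h (h1.trans h2.symm)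
      simp [h1, h2]
    · by_cases h2 : pb j = k <;> simp [h1, h2]
  · rw [a, b]
    by_cases h1 : pa j = k
    · have h2 : pb j ≠ k := fun h2 => h (h1.trans h2.symm)
      simp [h1, h2]
    · by_cases h2 : pb j = k <;> simp [h1, h2]

theorem cut_eq {s t : E → V} {κ : V → Fin 10} {eps : Fin 15 → E} (h : IsPQ s t univ κ)
    (hj : ∀ j, Joins κ s t (pa j) (pb j) (eps j)) (k : Fin 10) :
    cut s t univ (fun v => decide (κ v = k)) =
      (univ.filter (fun j => pa j = k ∨ pb j = k)).image eps := by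
  symm
  apply Finset.eq_of_subset_of_card_le
  · intro e he
    obtain ⟨j, hj1, rfl⟩ := Finset.mem_image.1 he
    refine Finset.mem_filter.2 ⟨Finset.mem_univ _, ?_⟩
    exact (mem_cut (hj j) k).2 (Finset.mem_filter.1 hj1).2
  · rw [h.1 k, Finset.card_image_of_injective _ (eps_inj hj)]
    revert k; decide

theorem flow_class {s t : E → V} {κ : V → Fin 10} {eps : Fin 15 → E} (h : IsPQ s t univ κ)
    (hj : ∀ j, Joins κ s t (pa j) (pb j) (eps j)) {n : ℕ}
    {ψ : (E → ZMod 2) →ₗ[ZMod 2] (Fin n → ZMod 2)}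
    (hk : LinearMap.ker ψ = Submodule.span (ZMod 2) (Set.range (Multi.star s t)))
    (k : Fin 10) :
    ∑ j ∈ univ.filter (fun j => pa j = k ∨ pb j = k), ψ (Pi.single (eps j) 1) = 0 := by
  have h1 := star_ker hk (fun v => decide (κ v = k))
  rw [← map_sum]
  refine Eq.trans (congrArg ψ ?_) h1
  rw [← Finset.sum_image (f := fun e => (Pi.single e 1 : E → ZMod 2))
    (fun a _ b _ hab => eps_inj hj hab), ← cut_eq h hj k]
  funext e
  rw [Finset.sum_apply]
  simp only [Pi.single_apply, Finset.sum_ite_eq]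
  simp only [cut, Finset.mem_filter, Finset.mem_univ, true_and]

end

theorem pet_aux : ∀ a0 : F, a0 ≠ 0 → ∀ a1 : F, a1 ≠ 0 → a0 + a1 ≠ 0 → ∀ a2 : F, a2 ≠ 0 →
    a1 + a2 ≠ 0 → ∀ a3 : F, a3 ≠ 0 → a2 + a3 ≠ 0 → ∀ a4 : F, a4 ≠ 0 → a3 + a4 ≠ 0 →
    a0 + a4 ≠ 0 → ∀ i0 : F, i0 ≠ 0 → i0 + (a0 + a4) ≠ 0 → i0 + (a1 + a2) ≠ 0 →
    i0 + (a1 + a2) + (a3 + a4) ≠ 0 → i0 + (a1 + a2) + (a3 + a4) + (a0 + a1) ≠ 0 → False := by
  decide

theorem solve3 (a b c : F) (h : a + b + c = 0) : c = a + b := by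
  revert a b c; decide

theorem petersen' (d : Fin 15 → F) (h0 : ∀ j, d j ≠ 0)
    (h : ∀ k : Fin 10, ∑ j ∈ univ.filter (fun j => pa j = k ∨ pb j = k), d j = 0) : False := by
  have g : ∀ (k : Fin 10) (x y z : Fin 15),
      univ.filter (fun j => pa j = k ∨ pb j = k) = {x, y, z} → x ≠ y → x ≠ z → y ≠ z →
      d z = d x + d y := by
    intro k x y z h1 hxy hxz hyz
    have h2 := h k
    rw [h1, Finset.sum_insert (by simp [hxy, hxz]), Finset.sum_insert (by simp [hyz]),
      Finset.sum_singleton, ← add_assoc] at h2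
    exact solve3 _ _ _ h2
  have e10 := g 0 0 4 10 (by decide) (by decide) (by decide) (by decide)
  have e11 := g 1 0 1 11 (by decide) (by decide) (by decide) (by decide)
  have e12 := g 2 1 2 12 (by decide) (by decide) (by decide) (by decide)
  have e13 := g 3 2 3 13 (by decide) (by decide) (by decide) (by decide)
  have e14 := g 4 3 4 14 (by decide) (by decide) (by decide) (by decide)
  have e8 := g 5 5 10 8 (by decide) (by decide) (by decide) (by decide)
  have e7 := g 7 5 12 7 (by decide) (by decide) (by decide) (by decide)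
  have e9 := g 9 7 14 9 (by decide) (by decide) (by decide) (by decide)
  have e6 := g 6 9 11 6 (by decide) (by decide) (by decide) (by decide)
  refine pet_aux (d 0) (h0 0) (d 1) (h0 1) (e11 ▸ h0 11) (d 2) (h0 2) (e12 ▸ h0 12) (d 3) (h0 3)
    (e13 ▸ h0 13) (d 4) (h0 4) (e14 ▸ h0 14) (e10 ▸ h0 10) (d 5) (h0 5) ?_ ?_ ?_ ?_
  · rw [← e10, ← e8]; exact h0 8
  · rw [← e12, ← e7]; exact h0 7
  · rw [← e12, ← e7, ← e14, ← e9]; exact h0 9
  · rw [← e12, ← e7, ← e14, ← e9, ← e11, ← e6]; exact h0 6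

theorem petersen (c : Fin 15 → (Fin 2 → ZMod 2)) (h0 : ∀ j, c j ≠ 0)
    (h : ∀ k : Fin 10, ∑ j ∈ univ.filter (fun j => pa j = k ∨ pb j = k), c j = 0) : False := by
  refine petersen' (fun j => (c j 0, c j 1)) (fun j hj => h0 j ?_) (fun k => ?_)
  · funext i
    have h1 := congrArg Prod.fst hj
    have h2 := congrArg Prod.snd hj
    fin_cases i
    · exact h1
    · exact h2
  · have h1 := h k
    ext
    · rw [Prod.fst_sum]
      have h2 := congrFun h1 0
      rw [Finset.sum_apply] at h2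
      exact h2
    · rw [Prod.snd_sum]
      have h2 := congrFun h1 1
      rw [Finset.sum_apply] at h2
      exact h2

end Bond

theorem bond {V E : Type} [Fintype V] [DecidableEq V] [Fintype E] [DecidableEq E]
    (s t : E → V) (main : N1 s t univ → NZ s t univ ∨ PQ s t univ)
    (n : ℕ) (S : Set (Fin n → ZMod 2)) (hr : Multi.RepresentsBondMatroid s t n S)
    (h0 : (0 : Fin n → ZMod 2) ∉ S)
    (h1 : ¬ ∃ L : (Fin n → ZMod 2) →ₗ[ZMod 2] (Fin 2 → ZMod 2), ∀ s ∈ S, L s ≠ 0)
    (h2 : ∀ T : Set (Fin n → ZMod 2), T ⊆ S → T ≠ S →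
        ∃ L : (Fin n → ZMod 2) →ₗ[ZMod 2] (Fin 2 → ZMod 2), ∀ t ∈ T, L t ≠ 0) :
    ∃ ψ : (Fin 15 → ZMod 2) →ₗ[ZMod 2] (Fin n → ZMod 2),
      LinearMap.ker ψ = Submodule.span (ZMod 2) (Set.range (fun v : Fin 10 => fun k : Fin 15 =>
        if (![0,1,2,3,4,5,6,7,8,9,0,1,2,3,4] : Fin 15 → Fin 10) k = v ∨
           (![1,2,3,4,0,7,8,9,5,6,5,6,7,8,9] : Fin 15 → Fin 10) k = v
        then (1 : ZMod 2) else 0)) ∧
      ⇑ψ '' Set.range (fun k : Fin 15 => (Pi.single k (1 : ZMod 2) : Fin 15 → ZMod 2)) = S := by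
  obtain ⟨ψ, hk, hinj, hS⟩ := hr
  have hne : ∀ e, ψ (Pi.single e 1) ≠ 0 := fun e h => h0 (by rw [← hS]; exact ⟨e, h⟩)
  have hn1 : N1 s t univ := Bond.n1 hk hne
  rcases main hn1 with hnz | ⟨κ, hκ⟩
  · refine absurd hnz (Bond.not_nz hk ?_)
    rintro ⟨L, hL⟩
    refine h1 ⟨L, fun x hx => ?_⟩
    rw [← hS] at hx
    obtain ⟨e, rfl⟩ := hx
    exact hL e
  obtain ⟨eps, hj⟩ := Bond.eps_exists hκ
  have hei := Bond.eps_inj hj
  have hT : Set.range (fun j => ψ (Pi.single (eps j) 1)) = S := by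
    by_contra hne'
    obtain ⟨L, hL⟩ := h2 _ (by rw [← hS]; rintro _ ⟨j, rfl⟩; exact ⟨eps j, rfl⟩) hne'
    refine Bond.petersen (fun j => L (ψ (Pi.single (eps j) 1))) (fun j => hL _ ⟨j, rfl⟩)
      (fun k => ?_)
    rw [← map_sum, Bond.flow_class hκ hj hk k, map_zero]
  have hsurj : Function.Surjective eps := by
    intro e
    have : ψ (Pi.single e 1) ∈ Set.range (fun j => ψ (Pi.single (eps j) 1)) := by
      rw [hT, ← hS]; exact ⟨e, rfl⟩
    obtain ⟨j, hj'⟩ := this
    exact ⟨j, hinj hj'⟩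
  let ε : Fin 15 ≃ E := Equiv.ofBijective eps ⟨hei, hsurj⟩
  have hε : ∀ j, ε j = eps j := fun j => rfl
  let R : (Fin 15 → ZMod 2) ≃ₗ[ZMod 2] (E → ZMod 2) :=
    LinearEquiv.funCongrLeft (ZMod 2) (ZMod 2) ε.symm
  have hR : ∀ x e, R x e = x (ε.symm e) := fun x e => rfl
  have hRs : ∀ y j, R.symm y j = y (eps j) := fun y j => rfl
  -- stars of classes
  have hstar : ∀ k, R (Bond.pstar k) =
      fun e => if decide (κ (s e) = k) ≠ decide (κ (t e) = k) then 1 else 0 := by
    intro k
    funext e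
    obtain ⟨j, rfl⟩ := hsurj e
    rw [hR, ← hε, ε.symm_apply_apply, hε]
    unfold Bond.pstar
    by_cases h3 : Bond.pa j = k ∨ Bond.pb j = k
    · rw [if_pos h3, if_pos ((Bond.mem_cut (hj j) k).2 h3)]
    · rw [if_neg h3, if_neg (fun h4 => h3 ((Bond.mem_cut (hj j) k).1 h4))]
  have hcross : ∀ e, κ (s e) ≠ κ (t e) := by
    intro e
    obtain ⟨j, rfl⟩ := hsurj e
    have := Bond.pab j
    rcases hj j with ⟨a, b⟩ | ⟨a, b⟩
    · rw [a, b]; exact this
    · rw [a, b]; exact this.symm
  -- stars of vertices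
  have hv : ∀ v, Multi.star s t v = 0 ∨ Multi.star s t v = R (Bond.pstar (κ v)) := by
    intro v
    have hsv : ∀ e, Multi.star s t v e = if e ∈ cut s t univ (fun u => decide (u = v)) then 1
        else 0 := by
      intro e
      unfold Multi.star cut
      simp only [Finset.mem_filter, Finset.mem_univ, true_and]
      have h3 := hcross e
      by_cases h4 : s e = v
      · have h5 : t e ≠ v := fun h5 => h3 (by rw [h4, h5])
        simp [h4, h5]
      · by_cases h5 : t e = v <;> simp [h4, h5]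
    have hsub : cut s t univ (fun u => decide (u = v)) ⊆
        cut s t univ (fun u => decide (κ u = κ v)) := by
      intro e he
      simp only [cut, Finset.mem_filter, Finset.mem_univ, true_and] at he ⊢
      have h3 := hcross e
      by_cases h4 : s e = v
      · have h5 : κ (t e) ≠ κ v := fun h5 => h3 (by rw [h4, h5])
        simp [h4, h5]
      · by_cases h5 : t e = v
        · have h6 : κ (s e) ≠ κ v := fun h6 => h3 (by rw [h5, h6])
          simp [h5, h6]
        · simp [h4, h5] at he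
    have hc3 := hκ.1 (κ v)
    have hn := hn1 (fun u => decide (u = v))
    have hle := Finset.card_le_card hsub
    have hdiff : cut s t univ (fun u => decide (κ u = κ v ∧ u ≠ v)) =
        cut s t univ (fun u => decide (κ u = κ v)) \ cut s t univ (fun u => decide (u = v)) := by
      ext e
      simp only [cut, Finset.mem_filter, Finset.mem_univ, true_and, Finset.mem_sdiff, ne_eq,
        not_not]
      have h3 := hcross e
      by_cases h4 : s e = v
      · have h5 : κ (t e) ≠ κ v := fun h5 => h3 (by rw [h4, h5])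
        have h6 : t e ≠ v := fun h6 => h5 (by rw [h6])
        simp [h4, h5, h6]
      · by_cases h5 : t e = v
        · have h6 : κ (s e) ≠ κ v := fun h6 => h3 (by rw [h5, h6])
          simp [h4, h5, h6]
        · simp [h4, h5]
    have hn' := hn1 (fun u => decide (κ u = κ v ∧ u ≠ v))
    rw [hdiff, Finset.card_sdiff_of_subset hsub, hc3] at hn'
    by_cases hc0 : (cut s t univ (fun u => decide (u = v))).card = 0
    · left
      rw [Finset.card_eq_zero] at hc0
      funext e
      rw [hsv, hc0]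
      simp
    · right
      have h3 : cut s t univ (fun u => decide (u = v)) =
          cut s t univ (fun u => decide (κ u = κ v)) :=
        Finset.eq_of_subset_of_card_le hsub (by rw [hc3] at hle ⊢; omega)
      rw [hstar]
      funext e
      rw [hsv, h3]
      simp only [cut, Finset.mem_filter, Finset.mem_univ, true_and]
  refine ⟨ψ ∘ₗ R.toLinearMap, ?_, ?_⟩
  · change LinearMap.ker (ψ ∘ₗ R.toLinearMap) =
      Submodule.span (ZMod 2) (Set.range Bond.pstar)
    apply le_antisymm
    · intro x hx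
      rw [LinearMap.mem_ker, LinearMap.comp_apply, ← LinearMap.mem_ker, hk] at hx
      have h3 : ∀ y ∈ Submodule.span (ZMod 2) (Set.range (Multi.star s t)),
          R.symm y ∈ Submodule.span (ZMod 2) (Set.range Bond.pstar) := by
        intro y hy
        induction hy using Submodule.span_induction with
        | mem y hy =>
          obtain ⟨v, rfl⟩ := hy
          rcases hv v with h4 | h4
          · rw [h4, map_zero]; exact Submodule.zero_mem _
          · rw [h4, R.symm_apply_apply]; exact Submodule.subset_span ⟨_, rfl⟩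
        | zero => rw [map_zero]; exact Submodule.zero_mem _
        | add y z _ _ hy hz => rw [map_add]; exact Submodule.add_mem _ hy hz
        | smul a y _ hy => rw [map_smul]; exact Submodule.smul_mem _ a hy
      have h4 := h3 _ hx
      rw [LinearEquiv.coe_coe, R.symm_apply_apply] at h4
      exact h4
    · rw [Submodule.span_le]
      rintro _ ⟨k, rfl⟩
      rw [SetLike.mem_coe, LinearMap.mem_ker, LinearMap.comp_apply, LinearEquiv.coe_coe, hstar]
      exact Bond.star_ker hk (fun v => decide (κ v = k))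
  · rw [← hT]
    rw [← Set.range_comp]
    congr 1
    funext j
    rw [Function.comp_apply, LinearMap.comp_apply, LinearEquiv.coe_coe]
    congr 1
    funext e
    rw [hR]
    by_cases h3 : e = eps j
    · subst h3
      rw [← hε, ε.symm_apply_apply, Pi.single_eq_same, hε, Pi.single_eq_same]
    · rw [Pi.single_eq_of_ne h3, Pi.single_eq_of_ne]
      intro h4
      apply h3
      rw [← h4, ← hε, ε.apply_symm_apply]

end Pool.Agent.TH362.TF
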