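import Pool.Agent.TH362.TF.Basic
import Pool.Agent.TH362.TF.Multi
import Mathlib.LinearAlgebra.Dimension.Finrank

set_option autoImplicit false

namespace Pool.Agent.TH362.TF
open Finset

namespace Cyc

theorem degree_eq {V E : Type} [DecidableEq V] [Fintype E] [DecidableEq E]
    (s t : E → V) (C : Finset E) (v : V) :
    Multi.degree s t (C : Set E) v =
      ∑ e ∈ C, ((if s e = v then 1 else 0) + (if t e = v then 1 else 0)) := by
  have h1 : {e | e ∈ (C : Set E) ∧ s e = v} = ((C.filter (fun e => s e = v) : Finset E) : Set E) := by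
    ext e; simp
  have h2 : {e | e ∈ (C : Set E) ∧ t e = v} = ((C.filter (fun e => t e = v) : Finset E) : Set E) := by
    ext e; simp
  unfold Multi.degree
  rw [h1, h2, Set.ncard_coe_finset, Set.ncard_coe_finset, Finset.card_filter, Finset.card_filter,
    Finset.sum_add_distrib]

theorem isCycle_of {V E : Type} [DecidableEq V] [Fintype E] [DecidableEq E]
    (s t : E → V) (g : E → ZMod 2)
    (h : ∀ v, ∑ e, ((if s e = v then g e else 0) + (if t e = v then g e else 0)) = 0) :
    Multi.IsCycle s t {e | g e = 1} := by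
  intro v
  have h1 : {e | g e = 1} = ((univ.filter (fun e => g e = 1) : Finset E) : Set E) := by
    ext e; simp
  rw [h1, degree_eq, Finset.sum_filter, ← ZMod.natCast_eq_zero_iff_even, ← h v]
  push_cast
  refine Finset.sum_congr rfl fun e _ => ?_
  have h2 : g e = 0 ∨ g e = 1 := by
    generalize g e = x
    revert x
    decide
  rcases h2 with h2 | h2
  · rw [h2]; simp
  · rw [h2]; simp

end Cyc

theorem two_cycles {V E : Type} [Fintype V] [DecidableEq V] [Fintype E] [DecidableEq E]
    (s t : E → V) (h : NZ s t univ) :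
    ∃ C₁ C₂ : Set E, Multi.IsCycle s t C₁ ∧ Multi.IsCycle s t C₂ ∧ C₁ ∪ C₂ = Set.univ := by
  obtain ⟨φ, h1, h2⟩ := h
  refine ⟨{e | (φ e).1 = 1}, {e | (φ e).2 = 1}, ?_, ?_, ?_⟩
  · refine Cyc.isCycle_of s t (fun e => (φ e).1) fun v => ?_
    have h3 := congrArg Prod.fst (h2 v)
    rw [Prod.fst_sum] at h3
    refine Eq.trans (Finset.sum_congr rfl fun e _ => ?_) h3
    by_cases ha : s e = v <;> by_cases hb : t e = v <;> simp [ha, hb]
  · refine Cyc.isCycle_of s t (fun e => (φ e).2) fun v => ?_
    have h3 := congrArg Prod.snd (h2 v)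
    rw [Prod.snd_sum] at h3
    refine Eq.trans (Finset.sum_congr rfl fun e _ => ?_) h3
    by_cases ha : s e = v <;> by_cases hb : t e = v <;> simp [ha, hb]
  · ext e
    simp only [Set.mem_union, Set.mem_ofPred_eq, Set.mem_univ, iff_true]
    have h3 := h1 e (Finset.mem_univ e)
    revert h3
    generalize φ e = y
    revert y
    decide

theorem n1_of {V E : Type} [Fintype V] [DecidableEq V] [Fintype E] [DecidableEq E]
    (s t : E → V) (h : ∀ e, ¬ Multi.Isthmus s t e) : N1 s t univ := by
  intro x hx
  obtain ⟨e, he⟩ := Finset.card_eq_one.1 hx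
  have h0 := h e
  unfold Multi.Isthmus at h0
  rw [not_not] at h0
  have hstep : ∀ u v, Multi.Step s t {e}ᶜ u v → x u = x v := by
    rintro u v ⟨f, hf, hfe⟩
    by_contra hne
    have hmem : f ∈ cut s t univ x := by
      simp only [cut, Finset.mem_filter, Finset.mem_univ, true_and]
      rcases hfe with ⟨rfl, rfl⟩ | ⟨rfl, rfl⟩
      · exact hne
      · exact fun h => hne h.symm
    rw [he, Finset.mem_singleton] at hmem
    exact hf (by rw [hmem]; rfl)
  have hlink : ∀ u v, Multi.Linked s t {e}ᶜ u v → x u = x v := by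
    intro u v huv
    induction huv with
    | refl => rfl
    | tail _ h2 ih => exact ih.trans (hstep _ _ h2)
  have h1 : e ∈ cut s t univ x := by rw [he]; exact Finset.mem_singleton_self e
  simp only [cut, Finset.mem_filter, Finset.mem_univ, true_and] at h1
  exact h1 (hlink _ _ h0)

theorem odd_card {V E : Type} [Fintype V] [DecidableEq V] [Fintype E] [DecidableEq E]
    (s t : E → V) : (odd s t univ).card = {v | Odd (Multi.degree s t Set.univ v)}.ncard := by
  have h1 : {v | Odd (Multi.degree s t Set.univ v)} = ((odd s t univ : Finset V) : Set V) := by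
    ext v
    have h2 := Cyc.degree_eq s t univ v
    rw [Finset.coe_univ] at h2
    simp only [Set.mem_ofPred_eq, odd, Finset.coe_filter, Finset.mem_univ, true_and, h2, deg]
  rw [h1, Set.ncard_coe_finset]

end Pool.Agent.TH362.TF
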