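import Pool.Agent.TH362.TF.Basic
import Pool.Agent.TH362.TF.Multi
import Mathlib.Algebra.Field.ZMod
import Mathlib.LinearAlgebra.Dimension.Finrank
import Mathlib.LinearAlgebra.Dimension.Constructions
import Mathlib.LinearAlgebra.FiniteDimensional.Lemmas

/-!
A graph whose bond matroid is represented by a set of nonzero vectors of rank at most nine has at
most sixteen vertices of odd degree.
-/

set_option autoImplicit false
set_option linter.unusedSectionVars false

namespace Pool.Agent.TH362.TF

open Finset

namespace Rank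

open Multi


variable {V E : Type} [Fintype V] [DecidableEq V] [Fintype E] [DecidableEq E]

/-- the support of a star -/
def sup (s t : E → V) (v : V) : Finset E := univ.filter (fun e => star s t v e ≠ 0)

theorem z2 (a : ZMod 2) (h : a ≠ 0) : a = 1 := by revert a; decide

theorem sum_star (s t : E → V) : ∑ v, star s t v = 0 := by
  funext e
  rw [Finset.sum_apply]
  simp only [Multi.star, Finset.sum_add_distrib, Finset.sum_ite_eq, Finset.mem_univ, if_true,
    Pi.zero_apply]
  decide

theorem sum_sup (s t : E → V) (A : Finset V) : ∑ v ∈ A, (sup s t v).card ≤ 2 * Fintype.card E := by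
  have h1 : ∑ v ∈ A, (sup s t v).card = ∑ e : E, (A.filter (fun v => star s t v e ≠ 0)).card := by
    simp only [sup, Finset.card_filter]
    exact Finset.sum_comm
  rw [h1]
  calc ∑ e : E, (A.filter (fun v => star s t v e ≠ 0)).card ≤ ∑ _e : E, 2 := by
        refine Finset.sum_le_sum fun e _ => ?_
        refine (Finset.card_le_card (t := {s e, t e}) ?_).trans Finset.card_le_two
        intro v hv
        simp only [Finset.mem_filter] at hv
        rw [Finset.mem_insert, Finset.mem_singleton]
        by_contra h
        push Not at h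
        apply hv.2
        simp only [Multi.star]
        rw [if_neg (Ne.symm h.1), if_neg (Ne.symm h.2), add_zero]
    _ = 2 * Fintype.card E := by
        rw [Finset.sum_const, Finset.card_univ, smul_eq_mul, mul_comm]

theorem eq_sum_sup (s t : E → V) (v : V) :
    star s t v = ∑ e ∈ sup s t v, Pi.single e (1 : ZMod 2) := by
  funext f
  rw [Finset.sum_apply]
  by_cases h : star s t v f = 0
  · rw [h, Finset.sum_eq_zero]
    intro e he
    rw [Pi.single_eq_of_ne]
    rintro rfl
    exact (Finset.mem_filter.1 he).2 h
  · rw [z2 _ h, Finset.sum_eq_single f]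
    · rw [Pi.single_eq_same]
    · intro e _ he
      rw [Pi.single_eq_of_ne (Ne.symm he)]
    · intro hf
      exact absurd (Finset.mem_filter.2 ⟨Finset.mem_univ f, h⟩) hf

theorem three_le {n : ℕ} {s t : E → V} (ψ : (E → ZMod 2) →ₗ[ZMod 2] (Fin n → ZMod 2))
    (hker : LinearMap.ker ψ = Submodule.span (ZMod 2) (Set.range (star s t)))
    (hinj : Function.Injective (fun e => ψ (Pi.single e 1)))
    (h0 : ∀ e, ψ (Pi.single e 1) ≠ 0) (v : V) (hv : star s t v ≠ 0) : 3 ≤ (sup s t v).card := by
  have hmem : ψ (star s t v) = 0 := by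
    rw [← LinearMap.mem_ker, hker]
    exact Submodule.subset_span ⟨v, rfl⟩
  rw [eq_sum_sup, map_sum] at hmem
  by_contra hlt
  have h3 : (sup s t v).card = 0 ∨ (sup s t v).card = 1 ∨ (sup s t v).card = 2 := by omega
  rcases h3 with h | h | h
  · rw [Finset.card_eq_zero] at h
    apply hv
    rw [eq_sum_sup, h, Finset.sum_empty]
  · obtain ⟨e, he⟩ := Finset.card_eq_one.1 h
    rw [he, Finset.sum_singleton] at hmem
    exact h0 e hmem
  · obtain ⟨e, f, hef, he⟩ := Finset.card_eq_two.1 h
    rw [he, Finset.sum_pair hef] at hmem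
    apply hef
    apply hinj
    show ψ (Pi.single e 1) = ψ (Pi.single f 1)
    rw [eq_neg_of_add_eq_zero_left hmem]
    funext i
    have : ∀ a : ZMod 2, -a = a := by decide
    exact this _

theorem odd_sub (s t : E → V) (v : V) (hv : v ∈ odd s t univ) : star s t v ≠ 0 := by
  intro h
  have h1 : ((deg s t univ v : ℕ) : ZMod 2) = 0 := by
    unfold deg
    push_cast
    refine Finset.sum_eq_zero fun e _ => ?_
    exact congrFun h e
  have h2 := ZMod.natCast_eq_zero_iff_even.1 h1
  exact Nat.not_even_iff_odd.2 (Finset.mem_filter.1 hv).2 h2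

end Rank

open Rank in
theorem rank_odd {V E : Type} [Fintype V] [DecidableEq V] [Fintype E] [DecidableEq E]
    (s t : E → V) (n : ℕ) (S : Set (Fin n → ZMod 2)) (hr : Multi.RepresentsBondMatroid s t n S)
    (h0 : (0 : Fin n → ZMod 2) ∉ S) (h9 : Module.finrank (ZMod 2) (Submodule.span (ZMod 2) S) ≤ 9) :
    (odd s t univ).card ≤ 16 := by
  obtain ⟨ψ, hker, hinj, hS⟩ := hr
  have hne : ∀ e, ψ (Pi.single e 1) ≠ 0 := by
    intro e he
    exact h0 (hS ▸ ⟨e, he⟩)
  set A : Finset V := univ.filter (fun v => Multi.star s t v ≠ 0) with hA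
  have hoA : odd s t univ ⊆ A := fun v hv =>
    Finset.mem_filter.2 ⟨Finset.mem_univ v, odd_sub s t v hv⟩
  refine (Finset.card_le_card hoA).trans ?_
  rcases A.eq_empty_or_nonempty with hAe | ⟨a, ha⟩
  · rw [hAe]; simp
  -- the count
  have hcount : 3 * A.card ≤ 2 * Fintype.card E := by
    refine le_trans ?_ (sum_sup s t A)
    calc 3 * A.card = ∑ _v ∈ A, 3 := by rw [Finset.sum_const, smul_eq_mul, mul_comm]
      _ ≤ _ := Finset.sum_le_sum fun v hv =>
        three_le ψ hker hinj hne v (Finset.mem_filter.1 hv).2
  -- the range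
  have hrange : LinearMap.range ψ ≤ Submodule.span (ZMod 2) S := by
    rintro _ ⟨x, rfl⟩
    have hx : x = ∑ e, x e • (Pi.single e (1 : ZMod 2) : E → ZMod 2) := by
      funext f
      rw [Finset.sum_apply, Finset.sum_eq_single f]
      · simp
      · intro e _ he
        simp [Pi.single_eq_of_ne (Ne.symm he)]
      · intro h; exact absurd (Finset.mem_univ f) h
    rw [hx, map_sum]
    refine Submodule.sum_mem _ fun e _ => ?_
    rw [map_smul]
    refine Submodule.smul_mem _ _ (Submodule.subset_span ?_)
    rw [← hS]
    exact ⟨e, rfl⟩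
  have hr9 : Module.finrank (ZMod 2) (LinearMap.range ψ) ≤ 9 :=
    (Submodule.finrank_mono hrange).trans h9
  -- the kernel
  have hk : Module.finrank (ZMod 2) (LinearMap.ker ψ) ≤ A.card - 1 := by
    have h1 : LinearMap.ker ψ ≤ Submodule.span (ZMod 2)
        (((A.erase a).image (Multi.star s t) : Finset (E → ZMod 2)) : Set (E → ZMod 2)) := by
      rw [hker, Submodule.span_le]
      rintro _ ⟨v, rfl⟩
      have hin : ∀ v ∈ A.erase a, Multi.star s t v ∈ Submodule.span (ZMod 2)
          (((A.erase a).image (Multi.star s t) : Finset (E → ZMod 2)) : Set (E → ZMod 2)) :=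
        fun v hv => Submodule.subset_span (Finset.mem_coe.2 (Finset.mem_image_of_mem _ hv))
      by_cases hv : Multi.star s t v = 0
      · rw [hv]; exact Submodule.zero_mem _
      · by_cases hva : v = a
        · have hsum : Multi.star s t a + ∑ u ∈ A.erase a, Multi.star s t u = 0 := by
            rw [Finset.add_sum_erase A (Multi.star s t) ha, ← sum_star s t, hA]
            refine Finset.sum_subset (Finset.filter_subset _ _) ?_
            intro u _ hu
            by_contra h
            exact hu (Finset.mem_filter.2 ⟨Finset.mem_univ u, h⟩)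
          rw [hva, eq_neg_of_add_eq_zero_left hsum]
          exact Submodule.neg_mem _ (Submodule.sum_mem _ hin)
        · exact hin v (Finset.mem_erase.2 ⟨hva, Finset.mem_filter.2 ⟨Finset.mem_univ v, hv⟩⟩)
    refine (Submodule.finrank_mono h1).trans ?_
    refine (finrank_span_finset_le_card _).trans ?_
    refine Finset.card_image_le.trans ?_
    rw [Finset.card_erase_of_mem ha]
  have hdim := LinearMap.finrank_range_add_finrank_ker ψ
  rw [Module.finrank_fintype_fun_eq_card] at hdim
  have hA1 : 0 < A.card := Finset.card_pos.2 ⟨a, ha⟩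
  omega

end Pool.Agent.TH362.TF
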