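import Pool.Agent.TH362.TF.Basic
import Pool.Agent.TH362.TF.Multi
import Mathlib.LinearAlgebra.Dimension.Finrank

/-!
# Petersen quotients are contractions (job 3650, helper986)
-/

set_option autoImplicit false

namespace Pool.Agent.TH362.TF

open Finset

set_option linter.unusedSectionVars false

namespace Contr

theorem nb_ne : ∀ k j, nb k j ≠ k := by decide

theorem nb_inj : ∀ k i j, nb k i = nb k j → i = j := by decide

theorem padj_nb : ∀ k j, padj k (nb k j) = true := by decide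

theorem nb_of_padj : ∀ k l, padj k l = true → ∃ j, nb k j = l := by decide

theorem padj_ne : ∀ k l, padj k l = true → k ≠ l := by decide

/-- the pairs -/
def pr (k : Fin 10) : Finset (Fin 5) :=
  match k with
  | 0 => {0, 1} | 1 => {2, 3} | 2 => {0, 4} | 3 => {1, 2} | 4 => {3, 4}
  | 5 => {2, 4} | 6 => {1, 4} | 7 => {1, 3} | 8 => {0, 3} | 9 => {0, 2}

theorem pr_inj : ∀ k l, pr k = pr l → k = l := by decide

theorem pr_surj : ∀ p : Finset (Fin 5), p.card = 2 → ∃ k, pr k = p := by decide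

theorem pr_card : ∀ k, (pr k).card = 2 := by decide

theorem pr_padj : ∀ k l, padj k l = true ↔ Disjoint (pr k) (pr l) := by decide

section

variable {V E : Type} [Fintype V] [DecidableEq V] [Fintype E] [DecidableEq E]

/-- the edges leaving a class -/
theorem struct (s t : E → V) (κ : V → Fin 10) (h : IsPQ s t univ κ) (k : Fin 10) :
    ∃ e : Fin 3 → E, (∀ j, Joins κ s t k (nb k j) (e j)) ∧
      ∀ x, ¬ (κ (s x) = k ↔ κ (t x) = k) → ∃ j, x = e j := by
  have h1 : ∀ j, ∃ e, Joins κ s t k (nb k j) e := fun j => by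
    obtain ⟨e, _, he⟩ := h.2 k (nb k j) (padj_nb k j)
    exact ⟨e, he⟩
  choose e he using h1
  have hinj : Function.Injective e := by
    intro i j hij
    have h1 := he i
    have h2 := he j
    rw [hij] at h1
    have h3 := nb_ne k i
    have h4 := nb_ne k j
    apply nb_inj k
    rcases h1 with ⟨a, b⟩ | ⟨a, b⟩ <;> rcases h2 with ⟨c, d⟩ | ⟨c, d⟩
    · exact b.symm.trans d
    · exact absurd (c.symm.trans a) h4
    · exact absurd (a.symm.trans c) h3
    · exact a.symm.trans c
  have hsub : univ.image e ⊆ cut s t univ (fun v => decide (κ v = k)) := by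
    intro x hx
    rw [Finset.mem_image] at hx
    obtain ⟨j, _, rfl⟩ := hx
    have h4 := nb_ne k j
    unfold cut
    rw [Finset.mem_filter]
    refine ⟨Finset.mem_univ _, ?_⟩
    show decide (κ (s (e j)) = k) ≠ decide (κ (t (e j)) = k)
    rcases he j with ⟨a, b⟩ | ⟨a, b⟩
    · rw [a, b]
      simpa using h4
    · rw [a, b]
      simpa using h4
  have heq : univ.image e = cut s t univ (fun v => decide (κ v = k)) := by
    apply Finset.eq_of_subset_of_card_le hsub
    rw [h.1 k, Finset.card_image_of_injective _ hinj, Finset.card_univ, Fintype.card_fin]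
  refine ⟨e, he, fun x hx => ?_⟩
  have h5 : x ∈ cut s t univ (fun v => decide (κ v = k)) := by
    unfold cut
    rw [Finset.mem_filter]
    refine ⟨Finset.mem_univ _, ?_⟩
    intro h6
    exact hx (decide_eq_decide.1 h6)
  rw [← heq, Finset.mem_image] at h5
  obtain ⟨j, _, hj⟩ := h5
  exact ⟨j, hj.symm⟩

theorem padj_of_ne (s t : E → V) (κ : V → Fin 10) (h : IsPQ s t univ κ) (x : E) (k l : Fin 10)
    (hkl : k ≠ l) (hx : Joins κ s t k l x) : padj k l = true := by
  obtain ⟨e, he, hall⟩ := struct s t κ h k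
  obtain ⟨j, rfl⟩ := hall x (by
    rcases hx with ⟨a, b⟩ | ⟨a, b⟩
    · rw [a, b]
      simpa using hkl.symm
    · rw [a, b]
      simpa using hkl.symm)
  have h4 := nb_ne k j
  have h5 : nb k j = l := by
    rcases he j with ⟨a, b⟩ | ⟨a, b⟩ <;> rcases hx with ⟨c, d⟩ | ⟨c, d⟩
    · exact b.symm.trans d
    · exact absurd (a.symm.trans c) hkl
    · exact absurd (a.symm.trans c) h4
    · exact a.symm.trans c
  rw [← h5]
  exact padj_nb k j

theorem joins_unique (s t : E → V) (κ : V → Fin 10) (h : IsPQ s t univ κ) (x y : E) (k l : Fin 10)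
    (hkl : k ≠ l) (hx : Joins κ s t k l x) (hy : Joins κ s t k l y) : x = y := by
  obtain ⟨e, he, hall⟩ := struct s t κ h k
  have key : ∀ z, Joins κ s t k l z → ∃ j, z = e j ∧ nb k j = l := by
    intro z hz
    obtain ⟨j, rfl⟩ := hall z (by
      rcases hz with ⟨a, b⟩ | ⟨a, b⟩
      · rw [a, b]
        simpa using hkl.symm
      · rw [a, b]
        simpa using hkl.symm)
    have h4 := nb_ne k j
    refine ⟨j, rfl, ?_⟩
    rcases he j with ⟨a, b⟩ | ⟨a, b⟩ <;> rcases hz with ⟨c, d⟩ | ⟨c, d⟩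
    · exact b.symm.trans d
    · exact absurd (a.symm.trans c) hkl
    · exact absurd (a.symm.trans c) h4
    · exact a.symm.trans c
  obtain ⟨i, rfl, hi⟩ := key x hx
  obtain ⟨j, rfl, hj⟩ := key y hy
  rw [nb_inj k i j (hi.trans hj.symm)]

theorem step_symm (s t : E → V) (C : Set E) : ∀ u v, Multi.Step s t C u v → Multi.Step s t C v u := by
  rintro u v ⟨e, he, h | h⟩
  · exact ⟨e, he, Or.inr h⟩
  · exact ⟨e, he, Or.inl h⟩

theorem linked_symm (s t : E → V) (C : Set E) (u v : V) (h : Multi.Linked s t C u v) :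
    Multi.Linked s t C v u := by
  unfold Multi.Linked at *
  induction h with
  | refl => exact Relation.ReflTransGen.refl
  | tail _ h2 ih => exact Relation.ReflTransGen.head (step_symm s t C _ _ h2) ih

/-- the part of the class of `c` that is linked to `c` inside the class -/
def Bc (s t : E → V) (κ : V → Fin 10) (c : V) : Set V :=
  {v | Multi.Linked s t {e | κ (s e) = κ c ∧ κ (t e) = κ c} c v}

theorem Bc_class (s t : E → V) (κ : V → Fin 10) (c v : V) (h : v ∈ Bc s t κ c) : κ v = κ c := by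
  have h' : Multi.Linked s t {e | κ (s e) = κ c ∧ κ (t e) = κ c} c v := h
  unfold Multi.Linked at h'
  induction h' with
  | refl => rfl
  | tail h1 h2 _ =>
    obtain ⟨e, he, ⟨_, h4⟩ | ⟨h3, _⟩⟩ := h2
    · rw [← h4]
      exact he.2
    · rw [← h3]
      exact he.1

theorem Bc_closed (s t : E → V) (κ : V → Fin 10) (c : V) (e : E) (h1 : κ (s e) = κ c)
    (h2 : κ (t e) = κ c) : s e ∈ Bc s t κ c ↔ t e ∈ Bc s t κ c := by
  constructor
  · intro h
    exact Relation.ReflTransGen.tail h ⟨e, ⟨h1, h2⟩, Or.inl ⟨rfl, rfl⟩⟩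
  · intro h
    exact Relation.ReflTransGen.tail h ⟨e, ⟨h1, h2⟩, Or.inr ⟨rfl, rfl⟩⟩

theorem Bc_connected (s t : E → V) (κ : V → Fin 10) (c : V) :
    Multi.ConnectedSet s t (Bc s t κ c) := by
  refine ⟨⟨c, Relation.ReflTransGen.refl⟩, ?_⟩
  have key : ∀ v ∈ Bc s t κ c,
      Multi.Linked s t {e | s e ∈ Bc s t κ c ∧ t e ∈ Bc s t κ c} c v := by
    intro v h
    have h' : Multi.Linked s t {e | κ (s e) = κ c ∧ κ (t e) = κ c} c v := h
    unfold Multi.Linked at h'
    induction h' with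
    | refl => exact Relation.ReflTransGen.refl
    | tail h1 h2 ih =>
      refine Relation.ReflTransGen.tail (ih h1) ?_
      obtain ⟨e, he, ⟨h3, h4⟩ | ⟨h3, h4⟩⟩ := h2
      · have h5 : s e ∈ Bc s t κ c := by rw [h3]; exact h1
        exact ⟨e, ⟨h5, (Bc_closed s t κ c e he.1 he.2).1 h5⟩, Or.inl ⟨h3, h4⟩⟩
      · have h5 : t e ∈ Bc s t κ c := by rw [h4]; exact h1
        exact ⟨e, ⟨(Bc_closed s t κ c e he.1 he.2).2 h5, h5⟩, Or.inr ⟨h3, h4⟩⟩
  intro u hu v hv
  exact Relation.ReflTransGen.trans (linked_symm s t _ _ _ (key u hu)) (key v hv)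

/-- every edge leaving the class has its end in the linked part -/
theorem Bc_ends (s t : E → V) (h1 : N1 s t univ) (κ : V → Fin 10) (h : IsPQ s t univ κ)
    (c : V) (e0 : E) (he0 : (s e0 = c ∧ κ (t e0) ≠ κ c) ∨ (t e0 = c ∧ κ (s e0) ≠ κ c)) (e : E) :
    (κ (s e) = κ c → κ (t e) ≠ κ c → s e ∈ Bc s t κ c) ∧
    (κ (t e) = κ c → κ (s e) ≠ κ c → t e ∈ Bc s t κ c) := by
  classical
  have hc : c ∈ Bc s t κ c := Relation.ReflTransGen.refl
  have hcut : ∀ (x : V → Bool) (e : E), e ∈ cut s t univ x ↔ x (s e) ≠ x (t e) := by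
    intro x e
    unfold cut
    rw [Finset.mem_filter]
    simp
  have hX : ∀ e, e ∈ cut s t univ (fun v => decide (v ∈ Bc s t κ c)) ↔
      ¬ (s e ∈ Bc s t κ c ↔ t e ∈ Bc s t κ c) := by
    intro e
    rw [hcut]
    simp only [ne_eq, decide_eq_decide]
  have hY : ∀ e, e ∈ cut s t univ (fun v => decide (κ v = κ c ∧ v ∉ Bc s t κ c)) ↔
      ¬ ((κ (s e) = κ c ∧ s e ∉ Bc s t κ c) ↔ (κ (t e) = κ c ∧ t e ∉ Bc s t κ c)) := by
    intro e
    rw [hcut]
    simp only [ne_eq, decide_eq_decide]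
  have hK : ∀ e, e ∈ cut s t univ (fun v => decide (κ v = κ c)) ↔
      ¬ (κ (s e) = κ c ↔ κ (t e) = κ c) := by
    intro e
    rw [hcut]
    simp only [ne_eq, decide_eq_decide]
  have hun : cut s t univ (fun v => decide (κ v = κ c)) =
      cut s t univ (fun v => decide (v ∈ Bc s t κ c)) ∪
        cut s t univ (fun v => decide (κ v = κ c ∧ v ∉ Bc s t κ c)) := by
    ext e
    rw [Finset.mem_union, hX, hY, hK]
    have a1 := Bc_class s t κ c (s e)
    have a2 := Bc_class s t κ c (t e)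
    have a3 := Bc_closed s t κ c e
    tauto
  have hdis : Disjoint (cut s t univ (fun v => decide (v ∈ Bc s t κ c)))
      (cut s t univ (fun v => decide (κ v = κ c ∧ v ∉ Bc s t κ c))) := by
    rw [Finset.disjoint_left]
    intro e
    rw [hX, hY]
    have a1 := Bc_class s t κ c (s e)
    have a2 := Bc_class s t κ c (t e)
    have a3 := Bc_closed s t κ c e
    tauto
  have hcard := h.1 (κ c)
  rw [hun, Finset.card_union_of_disjoint hdis] at hcard
  have b1 := h1 (fun v => decide (v ∈ Bc s t κ c))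
  have b2 := h1 (fun v => decide (κ v = κ c ∧ v ∉ Bc s t κ c))
  have b3 : 0 < (cut s t univ (fun v => decide (v ∈ Bc s t κ c))).card := by
    apply Finset.card_pos.2
    refine ⟨e0, ?_⟩
    rw [hX]
    have a1 := Bc_class s t κ c (s e0)
    have a2 := Bc_class s t κ c (t e0)
    rcases he0 with ⟨rfl, h5⟩ | ⟨rfl, h5⟩
    · tauto
    · tauto
  have b4 : (cut s t univ (fun v => decide (κ v = κ c ∧ v ∉ Bc s t κ c))).card = 0 := by omega
  rw [Finset.card_eq_zero] at b4
  have b5 : ¬ ¬ ((κ (s e) = κ c ∧ s e ∉ Bc s t κ c) ↔ (κ (t e) = κ c ∧ t e ∉ Bc s t κ c)) := by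
    rw [← hY, b4]
    simp
  tauto

end

end Contr

open Contr

theorem contracts {V E : Type} [Fintype V] [DecidableEq V] [Fintype E] [DecidableEq E]
    (s t : E → V) (h1 : N1 s t univ) (h : PQ s t univ) : Multi.ContractsToPetersen s t := by
  classical
  obtain ⟨κ, hκ⟩ := h
  have hc : ∀ k : Fin 10, ∃ c : V, κ c = k ∧
      ∃ e0 : E, (s e0 = c ∧ κ (t e0) ≠ κ c) ∨ (t e0 = c ∧ κ (s e0) ≠ κ c) := by
    intro k
    obtain ⟨e, _, he⟩ := hκ.2 k (nb k 0) (padj_nb k 0)
    have h4 := nb_ne k 0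
    rcases he with ⟨a, b⟩ | ⟨a, b⟩
    · refine ⟨s e, a, e, Or.inl ⟨rfl, ?_⟩⟩
      rw [a, b]
      exact h4
    · refine ⟨t e, b, e, Or.inr ⟨rfl, ?_⟩⟩
      rw [a, b]
      exact h4
  choose c hck e0 he0 using hc
  have hends : ∀ (k : Fin 10) (e : E), (κ (s e) = k → κ (t e) ≠ k → s e ∈ Bc s t κ (c k)) ∧
      (κ (t e) = k → κ (s e) ≠ k → t e ∈ Bc s t κ (c k)) := by
    intro k e
    have h2 := Bc_ends s t h1 κ hκ (c k) (e0 k) (he0 k) e
    rw [hck] at h2
    exact h2
  have hclass : ∀ (k : Fin 10) (v : V), v ∈ Bc s t κ (c k) → κ v = k := by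
    intro k v hv
    rw [Bc_class s t κ (c k) v hv, hck]
  have hlab : ∀ i : {p : Finset (Fin 5) // p.card = 2}, ∃ k, pr k = i.1 :=
    fun i => pr_surj i.1 i.2
  choose lab hl using hlab
  have hpadj : ∀ i j, Disjoint i.1 j.1 ↔ padj (lab i) (lab j) = true := by
    intro i j
    rw [pr_padj, hl, hl]
  refine ⟨fun i => Bc s t κ (c (lab i)), fun i => Bc_connected s t κ _, ?_, ?_, ?_⟩
  · intro i j hij
    rw [Set.disjoint_left]
    intro v hv hv'
    apply hij
    apply Subtype.ext
    rw [← hl i, ← hl j, ← hclass _ v hv, ← hclass _ v hv']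
  · intro i j hij
    have h2 := (hpadj i j).1 hij
    have h3 := padj_ne _ _ h2
    obtain ⟨e, _, he⟩ := hκ.2 _ _ h2
    refine ⟨e, ?_, ?_⟩
    · rcases he with ⟨a, b⟩ | ⟨a, b⟩
      · left
        exact ⟨(hends _ e).1 a (by rw [b]; exact h3.symm), (hends _ e).2 b (by rw [a]; exact h3)⟩
      · right
        exact ⟨(hends _ e).1 a (by rw [b]; exact h3), (hends _ e).2 b (by rw [a]; exact h3.symm)⟩
    · intro y hy
      apply joins_unique s t κ hκ y e (lab i) (lab j) h3 _ he
      rcases hy with ⟨a, b⟩ | ⟨a, b⟩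
      · exact Or.inl ⟨hclass _ _ a, hclass _ _ b⟩
      · exact Or.inr ⟨hclass _ _ a, hclass _ _ b⟩
  · intro e i
    have hsurj : ∀ l : Fin 10, ∃ j, lab j = l := by
      intro l
      refine ⟨⟨pr l, pr_card l⟩, ?_⟩
      exact pr_inj _ _ (hl _)
    constructor
    · intro hs
      have h2 := hclass _ _ hs
      by_cases h3 : κ (t e) = lab i
      · refine ⟨i, ?_, Or.inl rfl⟩
        have h4 : κ (s e) = κ (c (lab i)) := by rw [h2, hck]
        have h5 : κ (t e) = κ (c (lab i)) := by rw [h3, hck]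
        exact (Bc_closed s t κ _ e h4 h5).1 hs
      · obtain ⟨j, hj⟩ := hsurj (κ (t e))
        refine ⟨j, ?_, Or.inr ?_⟩
        · apply (hends _ e).2 hj.symm
          rw [h2, hj]
          exact fun h => h3 h.symm
        · rw [hpadj]
          apply padj_of_ne s t κ hκ e
          · rw [hj]
            exact fun h => h3 h.symm
          · exact Or.inl ⟨h2, hj.symm⟩
    · intro hs
      have h2 := hclass _ _ hs
      by_cases h3 : κ (s e) = lab i
      · refine ⟨i, ?_, Or.inl rfl⟩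
        have h4 : κ (t e) = κ (c (lab i)) := by rw [h2, hck]
        have h5 : κ (s e) = κ (c (lab i)) := by rw [h3, hck]
        exact (Bc_closed s t κ _ e h5 h4).2 hs
      · obtain ⟨j, hj⟩ := hsurj (κ (s e))
        refine ⟨j, ?_, Or.inr ?_⟩
        · apply (hends _ e).1 hj.symm
          rw [h2, hj]
          exact fun h => h3 h.symm
        · rw [hpadj]
          apply padj_of_ne s t κ hκ e
          · rw [hj]
            exact fun h => h3 h.symm
          · exact Or.inr ⟨hj.symm, h2⟩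

end Pool.Agent.TH362.TF
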