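import Pool.Agent.TH362.TF.Basic
import Mathlib.Data.Fintype.BigOperators
import Mathlib.Algebra.Order.BigOperators.Group.Finset

/-!
The structure of the quotient obtained from a lifting: the edges between different classes of a
Petersen quotient, the vertices of odd degree in the classes, the sums over the edge cuts of the
classes.
-/

set_option autoImplicit false

namespace Pool.Agent.TH362.TF

open Finset

set_option linter.unusedSectionVars false

variable {V E : Type} [Fintype V] [DecidableEq V] [DecidableEq E]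

namespace Str

theorem nb_inj : ∀ (k : Fin 10) (i j : Fin 3), nb k i = nb k j → i = j := by decide

theorem nb_ne : ∀ (k : Fin 10) (i : Fin 3), nb k i ≠ k := by decide

theorem padj_nb : ∀ (k : Fin 10) (i : Fin 3), padj k (nb k i) = true := by decide

theorem padj_ex : ∀ k l : Fin 10, padj k l = true → ∃ i, nb k i = l := by decide

theorem padj_swap : ∀ k l : Fin 10, padj k l = true → padj l k = true := by decide

theorem joins_symm (κ : V → Fin 10) (s t : E → V) (k l : Fin 10) (x : E) :
    Joins κ s t k l x ↔ Joins κ s t l k x := by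
  unfold Joins; exact or_comm

theorem joins_other {κ : V → Fin 10} {s t : E → V} {k l l' : Fin 10} {x : E} (hkl : k ≠ l)
    (h : Joins κ s t k l x) (h' : Joins κ s t k l' x) : l = l' := by
  unfold Joins at h h'
  rcases h with ⟨h1, h2⟩ | ⟨h1, h2⟩ <;> rcases h' with ⟨h3, h4⟩ | ⟨h3, h4⟩
  · rw [← h2, h4]
  · exact absurd (h4.symm.trans h2) hkl
  · exact absurd (h3.symm.trans h1) hkl
  · rw [← h1, h3]

theorem mem_cut_iff (κ : V → Fin 10) (s t : E → V) (S : Finset E) (k : Fin 10) (x : E) :
    x ∈ cut s t S (fun v => decide (κ v = k)) ↔ x ∈ S ∧ ∃ l, k ≠ l ∧ Joins κ s t k l x := by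
  unfold cut Joins
  rw [Finset.mem_filter]
  refine and_congr_right fun _ => ?_
  constructor
  · intro h
    by_cases h1 : κ (s x) = k
    · have h2 : κ (t x) ≠ k := by
        intro h2; apply h; simp [h1, h2]
      exact ⟨κ (t x), fun h3 => h2 h3.symm, Or.inl ⟨h1, rfl⟩⟩
    · have h2 : κ (t x) = k := by
        by_contra h2; apply h; simp [h1, h2]
      exact ⟨κ (s x), fun h3 => h1 h3.symm, Or.inr ⟨rfl, h2⟩⟩
  · rintro ⟨l, hl, ⟨h1, h2⟩ | ⟨h1, h2⟩⟩
    · show decide (κ (s x) = k) ≠ decide (κ (t x) = k)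
      rw [h1, h2]; simp [Ne.symm hl]
    · show decide (κ (s x) = k) ≠ decide (κ (t x) = k)
      rw [h1, h2]; simp [Ne.symm hl]

/-- Three edges at the class `k` joining it to its neighbours are all edges of the cut. -/
theorem cut_pq {κ : V → Fin 10} {s t : E → V} {S : Finset E} (h : IsPQ s t S κ) (k : Fin 10)
    (e : Fin 3 → E) (he : ∀ j, e j ∈ S ∧ Joins κ s t k (nb k j) (e j)) :
    cut s t S (fun v => decide (κ v = k)) = univ.image e := by
  symm
  apply Finset.eq_of_subset_of_card_le
  · intro x hx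
    obtain ⟨j, -, rfl⟩ := Finset.mem_image.1 hx
    exact (mem_cut_iff κ s t S k _).2 ⟨(he j).1, nb k j, (nb_ne k j).symm, (he j).2⟩
  · rw [h.1 k, Finset.card_image_of_injective _ ?_, Finset.card_univ, Fintype.card_fin]
    intro i j hij
    have h1 := (he i).2
    rw [hij] at h1
    exact nb_inj k i j (joins_other (nb_ne k i).symm h1 (he j).2)

theorem pq_join {κ : V → Fin 10} {s t : E → V} {S : Finset E} (h : IsPQ s t S κ) {k l : Fin 10}
    (hkl : k ≠ l) {x : E} (hx : x ∈ S) (hj : Joins κ s t k l x) :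
    padj k l = true ∧ ∀ y ∈ S, Joins κ s t k l y → y = x := by
  have h1 : ∀ j : Fin 3, ∃ y, y ∈ S ∧ Joins κ s t k (nb k j) y := by
    intro j
    obtain ⟨y, hy, hy'⟩ := h.2 k (nb k j) (padj_nb k j)
    exact ⟨y, hy, hy'⟩
  choose e he using h1
  have h2 := cut_pq h k e he
  have key : ∀ y ∈ S, Joins κ s t k l y → ∃ j, e j = y ∧ nb k j = l := by
    intro y hy hy'
    have h3 : y ∈ cut s t S (fun v => decide (κ v = k)) :=
      (mem_cut_iff κ s t S k y).2 ⟨hy, l, hkl, hy'⟩
    rw [h2] at h3
    obtain ⟨j, -, h4⟩ := Finset.mem_image.1 h3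
    refine ⟨j, h4, ?_⟩
    have h5 := (he j).2
    rw [h4] at h5
    exact (joins_other hkl hy' h5).symm
  obtain ⟨j, hj1, hj2⟩ := key x hx hj
  refine ⟨hj2 ▸ padj_nb k j, fun y hy hy' => ?_⟩
  obtain ⟨i, hi1, hi2⟩ := key y hy hy'
  have : i = j := nb_inj k i j (hi2.trans hj2.symm)
  rw [← hi1, ← hj1, this]

open Classical in
/-- A choice of an element with the property `P`, or `e`. -/
noncomputable def ch (e : E) (P : E → Prop) : E := if h : ∃ x, P x then h.choose else e

theorem ch_spec (e : E) (P : E → Prop) (h : ∃ x, P x) : P (ch e P) := by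
  unfold ch; rw [dif_pos h]; exact h.choose_spec

end Str

open Str

theorem L.sit {s t : E → V} {S : Finset E} {e f : E} {w a b : V} {κ : V → Fin 10}
    (l : L s t S e f w a b κ) (ha : κ w ≠ κ a) (hb : κ w ≠ κ b) :
    ∃ ρ, Sit s t S e f w a b κ ρ := by
  obtain ⟨eS, fS, ef, he, hf, pq⟩ := l
  have eS' : e ∈ S.erase f := Finset.mem_erase.2 ⟨ef, eS⟩
  have hse : (Function.update s e a) e = a := by simp
  have hte : (Function.update t e b) e = b := by simp
  have hs : ∀ x, x ≠ e → (Function.update s e a) x = s x := fun x hx => by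
    rw [Function.update_of_ne hx]
  have ht : ∀ x, x ≠ e → (Function.update t e b) x = t x := fun x hx => by
    rw [Function.update_of_ne hx]
  have hje : ∀ k l, Joins κ (Function.update s e a) (Function.update t e b) k l e ↔
      (k = κ a ∧ l = κ b ∨ k = κ b ∧ l = κ a) := by
    intro k l
    unfold Joins
    rw [hse, hte]
    constructor
    · rintro (⟨h1, h2⟩ | ⟨h1, h2⟩)
      · exact Or.inl ⟨h1.symm, h2.symm⟩
      · exact Or.inr ⟨h2.symm, h1.symm⟩
    · rintro (⟨h1, h2⟩ | ⟨h1, h2⟩)
      · exact Or.inl ⟨h1.symm, h2.symm⟩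
      · exact Or.inr ⟨h2.symm, h1.symm⟩
  have hjx : ∀ k l x, x ≠ e → (Joins κ (Function.update s e a) (Function.update t e b) k l x ↔
      Joins κ s t k l x) := by
    intro k l x hx
    unfold Joins
    rw [hs x hx, ht x hx]
  let R : Fin 10 → Fin 10 → E → Prop := fun k l x =>
    x ∈ S.erase f ∧ Joins κ (Function.update s e a) (Function.update t e b) k l x
  have hR : ∀ k l, padj k l = true → R k l (ch e (R k l)) := by
    intro k l hkl
    apply ch_spec
    obtain ⟨x, hx, hx'⟩ := pq.2 k l hkl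
    exact ⟨x, hx, hx'⟩
  refine ⟨fun k l => ch e (R k l), eS, fS, ef, he, hf, ha, hb, ?_, ?_, ?_, ?_⟩
  · by_cases h : κ a = κ b
    · exact Or.inl h
    · exact Or.inr (pq_join pq h eS' ((hje _ _).2 (Or.inl ⟨rfl, rfl⟩))).1
  · intro k l
    have : R k l = R l k := by
      funext x
      exact propext (and_congr_right fun _ => joins_symm _ _ _ _ _ _)
    simp only [this]
  · intro k l hkl hp
    have h := hR k l hkl
    obtain ⟨h1, h2⟩ := h
    have hne : ch e (R k l) ≠ e := by
      intro h3
      rw [h3] at h2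
      exact hp ((hje k l).1 h2)
    refine ⟨(Finset.mem_erase.1 h1).2, hne, (Finset.mem_erase.1 h1).1, (hjx k l _ hne).1 h2⟩
  · intro x hx hxe hxf k l hkl hj
    have hj' := (hjx k l x hxe).2 hj
    have hx' : x ∈ S.erase f := Finset.mem_erase.2 ⟨hxf, hx⟩
    obtain ⟨h1, h2⟩ := pq_join pq hkl hx' hj'
    refine ⟨h1, ?_, ?_⟩
    · intro hp
      exact hxe (h2 e eS' ((hje k l).2 hp)).symm
    · exact (h2 _ (hR k l h1).1 (hR k l h1).2).symm

namespace Str

/-- The pair `A`, `B`. -/
def Pr (A B k l : Fin 10) : Prop := k = A ∧ l = B ∨ k = B ∧ l = A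

instance (A B k l : Fin 10) : Decidable (Pr A B k l) := by unfold Pr; infer_instance

theorem e_joins {s t : E → V} {κ : V → Fin 10} {w a : V} {e : E} (he : Ends s t w a e) :
    Joins κ s t (κ w) (κ a) e := by
  unfold Ends at he
  unfold Joins
  rcases he with ⟨h1, h2⟩ | ⟨h1, h2⟩
  · exact Or.inl ⟨by rw [h1], by rw [h2]⟩
  · exact Or.inr ⟨by rw [h1], by rw [h2]⟩

theorem e_cut {s t : E → V} {S : Finset E} {κ : V → Fin 10} {w a : V} {e : E}
    (he : Ends s t w a e) (eS : e ∈ S) (hwa : κ w ≠ κ a) (k : Fin 10) :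
    e ∈ cut s t S (fun v => decide (κ v = k)) ↔ (k = κ w ∨ k = κ a) := by
  rw [mem_cut_iff]
  have h := e_joins (κ := κ) he
  constructor
  · rintro ⟨-, l, hl, hj⟩
    unfold Joins at h hj
    rcases h with ⟨h1, h2⟩ | ⟨h1, h2⟩ <;> rcases hj with ⟨h3, h4⟩ | ⟨h3, h4⟩
    · exact Or.inl (h3.symm.trans h1)
    · exact Or.inr (h4.symm.trans h2)
    · exact Or.inr (h3.symm.trans h1)
    · exact Or.inl (h4.symm.trans h2)
  · rintro (h1 | h1)
    · exact ⟨eS, κ a, by rw [h1]; exact hwa, by rw [h1]; exact h⟩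
    · exact ⟨eS, κ w, by rw [h1]; exact hwa.symm, by rw [h1]; exact (joins_symm _ _ _ _ _ _).1 h⟩

/-- The indices of the remaining edges at the class `k`. -/
def J (A B k : Fin 10) : Finset (Fin 3) := univ.filter (fun j => ¬ Pr A B k (nb k j))

theorem mem_cut_sit {s t : E → V} {S : Finset E} {e f : E} {w a b : V} {κ : V → Fin 10}
    {ρ : Fin 10 → Fin 10 → E} (q : Sit s t S e f w a b κ ρ) (k : Fin 10) (x : E) (hxe : x ≠ e)
    (hxf : x ≠ f) : x ∈ cut s t S (fun v => decide (κ v = k)) ↔
      ∃ j ∈ J (κ a) (κ b) k, ρ k (nb k j) = x := by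
  rw [mem_cut_iff]
  constructor
  · rintro ⟨hx, l, hl, hj⟩
    obtain ⟨h1, h2, h3⟩ := q.only x hx hxe hxf k l hl hj
    obtain ⟨j, hj'⟩ := padj_ex k l h1
    refine ⟨j, ?_, ?_⟩
    · unfold J; rw [Finset.mem_filter]; refine ⟨Finset.mem_univ _, ?_⟩
      rw [hj']; exact h2
    · rw [hj', h3]
  · rintro ⟨j, hj, hx⟩
    unfold J at hj
    have hp := (Finset.mem_filter.1 hj).2
    obtain ⟨h1, h2, h3, h4⟩ := q.mem k (nb k j) (padj_nb k j) hp
    rw [hx] at h1 h4
    exact ⟨h1, nb k j, (nb_ne k j).symm, h4⟩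

theorem rho_inj {s t : E → V} {S : Finset E} {e f : E} {w a b : V} {κ : V → Fin 10}
    {ρ : Fin 10 → Fin 10 → E} (q : Sit s t S e f w a b κ ρ) (k : Fin 10) {i j : Fin 3}
    (hi : ¬ Pr (κ a) (κ b) k (nb k i)) (hj : ¬ Pr (κ a) (κ b) k (nb k j))
    (h : ρ k (nb k i) = ρ k (nb k j)) : i = j := by
  have h1 := (q.mem k (nb k i) (padj_nb k i) hi).2.2.2
  have h2 := (q.mem k (nb k j) (padj_nb k j) hj).2.2.2
  rw [h] at h1
  exact nb_inj k i j (joins_other (nb_ne k i).symm h1 h2)

theorem num (A B : Fin 10) (h : A = B ∨ padj A B = true) (W : Fin 10) (hA : W ≠ A) (hB : W ≠ B)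
    (k : Fin 10) : ((if k = W ∨ k = A then 1 else 0) + (if k = W ∨ k = B then 1 else 0) +
      (J A B k).card) % 2 = 1 := by
  have hc : ∀ C D : Fin 10, padj C D = true →
      (univ.filter (fun j : Fin 3 => ¬ nb C j = D)).card = 2 := by decide
  by_cases hAB : A = B
  · subst hAB
    have h3 : (J A A k).card = 3 := by
      have : J A A k = univ := by
        unfold J
        rw [Finset.filter_true_of_mem]
        intro j _ hp
        unfold Pr at hp
        rcases hp with ⟨h1, h2⟩ | ⟨h1, h2⟩
        · exact nb_ne k j (h2.trans h1.symm)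
        · exact nb_ne k j (h2.trans h1.symm)
      rw [this]; rfl
    rw [h3]
    by_cases h1 : k = W ∨ k = A
    · rw [if_pos h1]
    · rw [if_neg h1]
  · have hp : padj A B = true := by
      rcases h with h | h
      · exact absurd h hAB
      · exact h
    have hp' : padj B A = true := padj_swap A B hp
    by_cases h1 : k = A
    · subst h1
      have h2 : ¬ (k = W ∨ k = B) := by
        rintro (h2 | h2)
        · exact hA h2.symm
        · exact hAB h2
      have h3 : J k B k = univ.filter (fun j : Fin 3 => ¬ nb k j = B) := by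
        unfold J
        apply Finset.filter_congr
        intro j _
        unfold Pr
        constructor
        · intro h4 h5; exact h4 (Or.inl ⟨rfl, h5⟩)
        · rintro h4 (⟨-, h5⟩ | ⟨h5, -⟩)
          · exact h4 h5
          · exact hAB h5
      rw [h3, hc k B hp, if_neg h2, if_pos (Or.inr rfl)]
    · by_cases h1' : k = B
      · subst h1'
        have h2 : ¬ (k = W ∨ k = A) := by
          rintro (h2 | h2)
          · exact hB h2.symm
          · exact h1 h2
        have h3 : J A k k = univ.filter (fun j : Fin 3 => ¬ nb k j = A) := by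
          unfold J
          apply Finset.filter_congr
          intro j _
          unfold Pr
          constructor
          · intro h4 h5; exact h4 (Or.inr ⟨rfl, h5⟩)
          · rintro h4 (⟨h5, -⟩ | ⟨-, h5⟩)
            · exact h1 h5
            · exact h4 h5
        rw [h3, hc k A hp', if_neg h2, if_pos (Or.inr rfl)]
      · have h3 : (J A B k).card = 3 := by
          have : J A B k = univ := by
            unfold J
            rw [Finset.filter_true_of_mem]
            intro j _ hp
            unfold Pr at hp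
            rcases hp with ⟨h4, -⟩ | ⟨h4, -⟩
            · exact h1 h4
            · exact h1' h4
          rw [this]; rfl
        rw [h3]
        by_cases h4 : k = W
        · rw [if_pos (Or.inl h4), if_pos (Or.inl h4)]
        · rw [if_neg (by rintro (h5 | h5) <;> contradiction),
            if_neg (by rintro (h5 | h5) <;> contradiction)]

theorem cut_card {s t : E → V} {S : Finset E} {e f : E} {w a b : V} {κ : V → Fin 10}
    {ρ : Fin 10 → Fin 10 → E} (q : Sit s t S e f w a b κ ρ) (k : Fin 10) :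
    (cut s t S (fun v => decide (κ v = k))).card % 2 = 1 := by
  have h1 : cut s t S (fun v => decide (κ v = k)) =
      (if k = κ w ∨ k = κ a then {e} else ∅) ∪ ((if k = κ w ∨ k = κ b then {f} else ∅) ∪
        (J (κ a) (κ b) k).image (fun j => ρ k (nb k j))) := by
    ext x
    rw [Finset.mem_union, Finset.mem_union, Finset.mem_image]
    by_cases hxe : x = e
    · subst hxe
      rw [e_cut q.he q.eS q.wa k]
      constructor
      · intro h; left; rw [if_pos h]; exact Finset.mem_singleton_self _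
      · rintro (h | h | ⟨j, hj, h⟩)
        · by_contra h2; rw [if_neg h2] at h; exact absurd h (Finset.notMem_empty _)
        · exfalso
          by_cases h2 : k = κ w ∨ k = κ b
          · rw [if_pos h2, Finset.mem_singleton] at h; exact q.ef h
          · rw [if_neg h2] at h; exact absurd h (Finset.notMem_empty _)
        · exfalso
          unfold J at hj
          exact (q.mem k (nb k j) (padj_nb k j) (Finset.mem_filter.1 hj).2).2.1 h
    · by_cases hxf : x = f
      · subst hxf
        rw [e_cut q.hf q.fS q.wb k]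
        constructor
        · intro h; right; left; rw [if_pos h]; exact Finset.mem_singleton_self _
        · rintro (h | h | ⟨j, hj, h⟩)
          · exfalso
            by_cases h2 : k = κ w ∨ k = κ a
            · rw [if_pos h2, Finset.mem_singleton] at h; exact hxe h
            · rw [if_neg h2] at h; exact absurd h (Finset.notMem_empty _)
          · by_contra h2; rw [if_neg h2] at h; exact absurd h (Finset.notMem_empty _)
          · exfalso
            unfold J at hj
            exact (q.mem k (nb k j) (padj_nb k j) (Finset.mem_filter.1 hj).2).2.2.1 h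
      · rw [mem_cut_sit q k x hxe hxf]
        constructor
        · rintro ⟨j, hj, h⟩; exact Or.inr (Or.inr ⟨j, hj, h⟩)
        · rintro (h | h | h)
          · exfalso
            by_cases h2 : k = κ w ∨ k = κ a
            · rw [if_pos h2, Finset.mem_singleton] at h; exact hxe h
            · rw [if_neg h2] at h; exact absurd h (Finset.notMem_empty _)
          · exfalso
            by_cases h2 : k = κ w ∨ k = κ b
            · rw [if_pos h2, Finset.mem_singleton] at h; exact hxf h
            · rw [if_neg h2] at h; exact absurd h (Finset.notMem_empty _)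
          · obtain ⟨j, hj, h⟩ := h; exact ⟨j, hj, h⟩
  have hI : ((J (κ a) (κ b) k).image (fun j => ρ k (nb k j))).card = (J (κ a) (κ b) k).card := by
    apply Finset.card_image_of_injOn
    intro i hi j hj h
    unfold J at hi hj
    exact rho_inj q k (Finset.mem_filter.1 (Finset.mem_coe.1 hi)).2
      (Finset.mem_filter.1 (Finset.mem_coe.1 hj)).2 h
  have hd2 : Disjoint (if k = κ w ∨ k = κ b then ({f} : Finset E) else ∅)
      ((J (κ a) (κ b) k).image (fun j => ρ k (nb k j))) := by
    by_cases h2 : k = κ w ∨ k = κ b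
    · rw [if_pos h2, Finset.disjoint_singleton_left]
      intro h3
      obtain ⟨j, hj, h⟩ := Finset.mem_image.1 h3
      unfold J at hj
      exact (q.mem k (nb k j) (padj_nb k j) (Finset.mem_filter.1 hj).2).2.2.1 h
    · rw [if_neg h2]; exact Finset.disjoint_empty_left _
  have hd1 : Disjoint (if k = κ w ∨ k = κ a then ({e} : Finset E) else ∅)
      ((if k = κ w ∨ k = κ b then ({f} : Finset E) else ∅) ∪
        (J (κ a) (κ b) k).image (fun j => ρ k (nb k j))) := by
    by_cases h2 : k = κ w ∨ k = κ a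
    · rw [if_pos h2, Finset.disjoint_singleton_left]
      intro h3
      rcases Finset.mem_union.1 h3 with h3 | h3
      · by_cases h4 : k = κ w ∨ k = κ b
        · rw [if_pos h4, Finset.mem_singleton] at h3; exact q.ef h3
        · rw [if_neg h4] at h3; exact absurd h3 (Finset.notMem_empty _)
      · obtain ⟨j, hj, h⟩ := Finset.mem_image.1 h3
        unfold J at hj
        exact (q.mem k (nb k j) (padj_nb k j) (Finset.mem_filter.1 hj).2).2.1 h
    · rw [if_neg h2]; exact Finset.disjoint_empty_left _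
  have hs : ∀ (P : Prop) [Decidable P] (y : E),
      (if P then ({y} : Finset E) else ∅).card = if P then 1 else 0 := by
    intro P _ y; split <;> simp
  rw [h1, Finset.card_union_of_disjoint hd1, Finset.card_union_of_disjoint hd2, hI, hs, hs,
    ← add_assoc]
  exact num (κ a) (κ b) q.ab (κ w) q.wa q.wb k

end Str

theorem Sit.odd_pos {s t : E → V} {S : Finset E} {e f : E} {w a b : V} {κ : V → Fin 10}
    {ρ : Fin 10 → Fin 10 → E} (q : Sit s t S e f w a b κ ρ) (k : Fin 10) :
    1 ≤ ((odd s t S).filter (fun v => κ v = k)).card := by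
  have h1 := parity s t S (fun v => decide (κ v = k))
  rw [cut_card q k] at h1
  simp only [decide_eq_true_eq] at h1
  omega

namespace Str

theorem sum_cls {s t : E → V} {S : Finset E} (κ : V → Fin 10) :
    ∑ k : Fin 10, ((odd s t S).filter (fun v => κ v = k)).card = (odd s t S).card := by
  rw [Finset.card_eq_sum_card_fiberwise (f := κ) (t := univ)]
  intro x _; exact Finset.mem_coe.2 (Finset.mem_univ _)

end Str

theorem Sit.odd_le {s t : E → V} {S : Finset E} {e f : E} {w a b : V} {κ : V → Fin 10}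
    {ρ : Fin 10 → Fin 10 → E} (q : Sit s t S e f w a b κ ρ) (h : (odd s t S).card ≤ 16)
    (k : Fin 10) : ((odd s t S).filter (fun v => κ v = k)).card ≤ 7 := by
  have h1 := sum_cls (s := s) (t := t) (S := S) κ
  rw [← Finset.add_sum_erase univ _ (Finset.mem_univ k)] at h1
  have h2 : (univ.erase k).card • 1 ≤
      ∑ l ∈ univ.erase k, ((odd s t S).filter (fun v => κ v = l)).card :=
    Finset.card_nsmul_le_sum _ _ _ fun l _ => q.odd_pos l
  rw [Finset.card_erase_of_mem (Finset.mem_univ k), Finset.card_univ, Fintype.card_fin] at h2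
  simp only [smul_eq_mul] at h2
  omega

theorem Sit.odd_le2 {s t : E → V} {S : Finset E} {e f : E} {w a b : V} {κ : V → Fin 10}
    {ρ : Fin 10 → Fin 10 → E} (q : Sit s t S e f w a b κ ρ) (h : (odd s t S).card ≤ 16)
    (k l : Fin 10) (hkl : k ≠ l) : ((odd s t S).filter (fun v => κ v = k)).card ≤ 4 ∨
      ((odd s t S).filter (fun v => κ v = l)).card ≤ 4 := by
  have h1 := sum_cls (s := s) (t := t) (S := S) κ
  have hl : l ∈ (univ : Finset (Fin 10)).erase k :=
    Finset.mem_erase.2 ⟨hkl.symm, Finset.mem_univ l⟩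
  rw [← Finset.add_sum_erase univ _ (Finset.mem_univ k), ← Finset.add_sum_erase _ _ hl] at h1
  have h2 : ((univ.erase k).erase l).card • 1 ≤
      ∑ m ∈ (univ.erase k).erase l, ((odd s t S).filter (fun v => κ v = m)).card :=
    Finset.card_nsmul_le_sum _ _ _ fun m _ => q.odd_pos m
  rw [Finset.card_erase_of_mem hl, Finset.card_erase_of_mem (Finset.mem_univ k),
    Finset.card_univ, Fintype.card_fin] at h2
  simp only [smul_eq_mul] at h2
  omega

namespace Str

theorem cut_five {s t : E → V} {S : Finset E} {e f : E} {w a b : V} {κ : V → Fin 10}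
    {ρ : Fin 10 → Fin 10 → E} (q : Sit s t S e f w a b κ ρ) (k : Fin 10)
    (h1 : k = κ w ∨ k = κ a) (h2 : k = κ w ∨ k = κ b)
    (h3 : ∀ j, ¬ Pr (κ a) (κ b) k (nb k j)) :
    cut s t S (fun v => decide (κ v = k)) =
      {e, f, ρ k (nb k 0), ρ k (nb k 1), ρ k (nb k 2)} := by
  ext x
  simp only [Finset.mem_insert, Finset.mem_singleton]
  by_cases hxe : x = e
  · subst hxe
    rw [e_cut q.he q.eS q.wa k]
    exact ⟨fun _ => Or.inl rfl, fun _ => h1⟩
  · by_cases hxf : x = f
    · subst hxf
      rw [e_cut q.hf q.fS q.wb k]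
      exact ⟨fun _ => Or.inr (Or.inl rfl), fun _ => h2⟩
    · rw [mem_cut_sit q k x hxe hxf]
      constructor
      · rintro ⟨j, -, rfl⟩
        right; right
        fin_cases j
        · exact Or.inl rfl
        · exact Or.inr (Or.inl rfl)
        · exact Or.inr (Or.inr rfl)
      · have hm : ∀ j, j ∈ J (κ a) (κ b) k := fun j => by
          unfold J; exact Finset.mem_filter.2 ⟨Finset.mem_univ _, h3 j⟩
        rintro (h | h | h | h | h)
        · exact absurd h hxe
        · exact absurd h hxf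
        · exact ⟨0, hm 0, h.symm⟩
        · exact ⟨1, hm 1, h.symm⟩
        · exact ⟨2, hm 2, h.symm⟩

theorem sum_five {s t : E → V} {S : Finset E} {e f : E} {w a b : V} {κ : V → Fin 10}
    {ρ : Fin 10 → Fin 10 → E} (q : Sit s t S e f w a b κ ρ) (k : Fin 10)
    (h1 : k = κ w ∨ k = κ a) (h2 : k = κ w ∨ k = κ b)
    (h3 : ∀ j, ¬ Pr (κ a) (κ b) k (nb k j)) {φ : E → F} (i : Inn s t S κ k φ) :
    (φ e + φ f) + (φ (ρ k (nb k 0)) + φ (ρ k (nb k 1)) + φ (ρ k (nb k 2))) = 0 := by
  have h4 : ∑ x ∈ cut s t S (fun v => decide (κ v = k)), φ x = 0 :=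
    flow_cut _ fun v hv => i.2 v (by simpa using hv)
  rw [cut_five q k h1 h2 h3] at h4
  have hm : ∀ j, ρ k (nb k j) ≠ e ∧ ρ k (nb k j) ≠ f := fun j =>
    ⟨(q.mem k (nb k j) (padj_nb k j) (h3 j)).2.1, (q.mem k (nb k j) (padj_nb k j) (h3 j)).2.2.1⟩
  have hi : ∀ i j : Fin 3, i ≠ j → ρ k (nb k i) ≠ ρ k (nb k j) := fun i j hij h =>
    hij (rho_inj q k (h3 i) (h3 j) h)
  rw [Finset.sum_insert, Finset.sum_insert, Finset.sum_insert, Finset.sum_insert,
    Finset.sum_singleton] at h4
  · rw [← h4]; simp only [add_assoc]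
  · simp only [Finset.mem_singleton]; exact hi 1 2 (by decide)
  · simp only [Finset.mem_insert, Finset.mem_singleton, not_or]
    exact ⟨hi 0 1 (by decide), hi 0 2 (by decide)⟩
  · simp only [Finset.mem_insert, Finset.mem_singleton, not_or]
    exact ⟨(hm 0).2.symm, (hm 1).2.symm, (hm 2).2.symm⟩
  · simp only [Finset.mem_insert, Finset.mem_singleton, not_or]
    exact ⟨q.ef, (hm 0).1.symm, (hm 1).1.symm, (hm 2).1.symm⟩

theorem notPrW {s t : E → V} {S : Finset E} {e f : E} {w a b : V} {κ : V → Fin 10}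
    {ρ : Fin 10 → Fin 10 → E} (q : Sit s t S e f w a b κ ρ) (j : Fin 3) :
    ¬ Pr (κ a) (κ b) (κ w) (nb (κ w) j) := by
  rintro (⟨h, -⟩ | ⟨h, -⟩)
  · exact q.wa h
  · exact q.wb h

theorem notPrA {κ : V → Fin 10} {a b : V} (hab : κ a = κ b) (j : Fin 3) :
    ¬ Pr (κ a) (κ b) (κ a) (nb (κ a) j) := by
  rintro (⟨-, h⟩ | ⟨-, h⟩)
  · exact nb_ne (κ a) j (h.trans hab.symm)
  · exact nb_ne (κ a) j h

end Str

theorem Sit.cutW {s t : E → V} {S : Finset E} {e f : E} {w a b : V} {κ : V → Fin 10}
    {ρ : Fin 10 → Fin 10 → E} (q : Sit s t S e f w a b κ ρ) :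
    cut s t S (fun v => decide (κ v = κ w)) =
      {e, f, ρ (κ w) (nb (κ w) 0), ρ (κ w) (nb (κ w) 1), ρ (κ w) (nb (κ w) 2)} :=
  cut_five q (κ w) (Or.inl rfl) (Or.inl rfl) (notPrW q)

theorem Sit.cutA {s t : E → V} {S : Finset E} {e f : E} {w a b : V} {κ : V → Fin 10}
    {ρ : Fin 10 → Fin 10 → E} (q : Sit s t S e f w a b κ ρ) (hab : κ a = κ b) :
    cut s t S (fun v => decide (κ v = κ a)) =
      {e, f, ρ (κ a) (nb (κ a) 0), ρ (κ a) (nb (κ a) 1), ρ (κ a) (nb (κ a) 2)} :=
  cut_five q (κ a) (Or.inr rfl) (Or.inr hab) (notPrA hab)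

theorem Sit.sumW {s t : E → V} {S : Finset E} {e f : E} {w a b : V}
    {κ : V → Fin 10} {ρ : Fin 10 → Fin 10 → E} (q : Sit s t S e f w a b κ ρ) {φ : E → F}
    (i : Inn s t S κ (κ w) φ) : (φ e + φ f) + (φ (ρ (κ w) (nb (κ w) 0)) +
      φ (ρ (κ w) (nb (κ w) 1)) + φ (ρ (κ w) (nb (κ w) 2))) = 0 :=
  sum_five q (κ w) (Or.inl rfl) (Or.inl rfl) (notPrW q) i

theorem Sit.sumA {s t : E → V} {S : Finset E} {e f : E} {w a b : V}
    {κ : V → Fin 10} {ρ : Fin 10 → Fin 10 → E} (q : Sit s t S e f w a b κ ρ) (hab : κ a = κ b)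
    {φ : E → F} (i : Inn s t S κ (κ a) φ) : (φ e + φ f) + (φ (ρ (κ a) (nb (κ a) 0)) +
      φ (ρ (κ a) (nb (κ a) 1)) + φ (ρ (κ a) (nb (κ a) 2))) = 0 :=
  sum_five q (κ a) (Or.inr rfl) (Or.inr hab) (notPrA hab) i

end Pool.Agent.TH362.TF
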