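import Pool.Agent.TH362.TF.FinCD

set_option autoImplicit false

namespace Pool.Agent.TH362.TF.FinC

set_option maxRecDepth 100000 in
theorem t511 : en cl511 pl511 P511 en511 (2 ^ 0 + 2 ^ 5) (5 * 16 ^ 0 + 0 * 16 ^ 5) = true := by
  decide +kernel

end Pool.Agent.TH362.TF.FinC
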