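import Pool.Agent.TH362.TF.Red

/-!
No cuts of size two, trivial cuts of size three.
-/

set_option autoImplicit false

namespace Pool.Agent.TH362.TF

open Finset

variable {V E : Type} [Fintype V] [DecidableEq V] [DecidableEq E]

omit [DecidableEq E] in
/-- if no edge of `S` has both ends in `x = c`, the degrees on that side add up to the cut -/
private theorem sum_deg {s t : E → V} {S : Finset E} {x : V → Bool} {c : Bool}
    (h : ∀ e ∈ S, ¬ (x (s e) = c ∧ x (t e) = c)) :
    ∑ v ∈ univ.filter (fun v => x v = c), deg s t S v = (cut s t S x).card := by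
  unfold deg cut
  rw [Finset.sum_comm, Finset.card_filter]
  refine Finset.sum_congr rfl fun e he => ?_
  rw [Finset.sum_add_distrib, Finset.sum_ite_eq, Finset.sum_ite_eq]
  simp only [Finset.mem_filter, Finset.mem_univ, true_and]
  have h1 := h e he
  cases hs : x (s e) <;> cases ht : x (t e) <;> cases c <;> simp_all

private theorem deg_eq_cut {s t : E → V} {S : Finset E} (h : ∀ e ∈ S, s e ≠ t e) (v : V) :
    (cut s t S (fun u => decide (u = v))).card = deg s t S v := by
  have h1 : ∀ e ∈ S, ¬ ((fun u => decide (u = v)) (s e) = true ∧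
      (fun u => decide (u = v)) (t e) = true) := by
    intro e he h2
    simp only [decide_eq_true_eq] at h2
    exact h e he (h2.1.trans h2.2.symm)
  rw [← sum_deg h1]
  have h3 : univ.filter (fun u => (fun u => decide (u = v)) u = true) = {v} := by
    ext u
    simp
  rw [h3, Finset.sum_singleton]

theorem MinC.deg_ge {s t : E → V} {S : Finset E} (h : MinC s t S) (v : V) :
    deg s t S v = 0 ∨ 3 ≤ deg s t S v := by
  have h1 : deg s t S v ≠ 1 := by
    rw [← deg_eq_cut h.noloop v]
    exact h.n1 _
  have h2 := h.deg2 v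
  omega

private theorem side {s t : E → V} {S : Finset E} (h : MinC s t S) (x : V → Bool)
    (hx : (cut s t S x).card ≤ 3) :
    ∃ c : Bool, ∑ v ∈ univ.filter (fun v => x v = c), deg s t S v = (cut s t S x).card := by
  rcases h.smallcut x hx with h1 | h1
  · exact ⟨true, sum_deg h1⟩
  · exact ⟨false, sum_deg h1⟩

private theorem exists_deg {s t : E → V} {S : Finset E} (h : MinC s t S) (x : V → Bool)
    (hx : (cut s t S x).card ≤ 3) (hx0 : (cut s t S x).card ≠ 0) :
    ∃ v, 3 ≤ deg s t S v ∧
      ∑ u ∈ univ.filter (fun u => x u = x v), deg s t S u = (cut s t S x).card := by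
  obtain ⟨c, hc⟩ := side h x hx
  by_contra hno
  push Not at hno
  have h0 : ∀ v ∈ univ.filter (fun v => x v = c), deg s t S v = 0 := by
    intro v hv
    have hv' : x v = c := (Finset.mem_filter.1 hv).2
    rcases h.deg_ge v with h1 | h1
    · exact h1
    · refine absurd ?_ (hno v h1)
      rw [hv']
      exact hc
  rw [Finset.sum_eq_zero h0] at hc
  exact hx0 hc.symm

theorem MinC.no2 {s t : E → V} {S : Finset E} (h : MinC s t S) (x : V → Bool) :
    (cut s t S x).card ≠ 2 := by
  intro h2
  obtain ⟨v, hv, hsum⟩ := exists_deg h x (by omega) (by omega)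
  have h1 : deg s t S v ≤ ∑ u ∈ univ.filter (fun u => x u = x v), deg s t S u :=
    Finset.single_le_sum (f := fun u => deg s t S u) (fun _ _ => Nat.zero_le _)
      (Finset.mem_filter.2 ⟨Finset.mem_univ _, rfl⟩)
  omega

theorem MinC.triv3 {s t : E → V} {S : Finset E} (h : MinC s t S) (x : V → Bool)
    (hx : (cut s t S x).card = 3) :
    ∃ v, deg s t S v = 3 ∧ ∀ u, x u = x v → u ≠ v → deg s t S u = 0 := by
  obtain ⟨v, hv, hsum⟩ := exists_deg h x (by omega) (by omega)
  have hvm : v ∈ univ.filter (fun u => x u = x v) :=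
    Finset.mem_filter.2 ⟨Finset.mem_univ _, rfl⟩
  have h1 : deg s t S v ≤ ∑ u ∈ univ.filter (fun u => x u = x v), deg s t S u :=
    Finset.single_le_sum (f := fun u => deg s t S u) (fun _ _ => Nat.zero_le _) hvm
  refine ⟨v, by omega, fun u hu huv => ?_⟩
  have h2 := Finset.add_sum_erase (univ.filter (fun u => x u = x v))
    (fun u => deg s t S u) hvm
  have h3 : deg s t S u ≤ ∑ w ∈ (univ.filter (fun u => x u = x v)).erase v, deg s t S w :=
    Finset.single_le_sum (f := fun u => deg s t S u) (fun _ _ => Nat.zero_le _)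
      (Finset.mem_erase.2 ⟨huv, Finset.mem_filter.2 ⟨Finset.mem_univ _, hu⟩⟩)
  omega

end Pool.Agent.TH362.TF
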