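import Pool.Agent.TH362.TF.Basic
import Pool.Agent.TH362.TF.Red2
import Pool.Agent.TH362.TF.Str

/-!
The pole graph of the first kind.
-/

set_option autoImplicit false

namespace Pool.Agent.TH362.TF

open Finset

namespace P1

section
variable {V E : Type} [Fintype V] [DecidableEq V] [DecidableEq E]

theorem exists_nb : ∀ A B : Fin 10, ∃ D : Fin 10, padj A D = true ∧ D ≠ B := by decide

theorem padj_symm : ∀ A B : Fin 10, padj A B = padj B A := by decide

theorem padj_irr : ∀ A : Fin 10, padj A A = false := by decide

/-- The quotient map. -/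
def q (κ : V → Fin 10) (k A B : Fin 10) (a z : V) (v : V) : V :=
  if κ v = k then v else if κ v = A ∨ κ v = B then a else z

variable {κ : V → Fin 10} {k A B : Fin 10} {a z : V}

omit [Fintype V] [DecidableEq V] in
theorem q_in {v : V} (h : κ v = k) : q κ k A B a z v = v := by simp [q, h]

omit [Fintype V] [DecidableEq V] in
theorem q_out {v : V} (h : κ v ≠ k) : q κ k A B a z v = a ∨ q κ k A B a z v = z := by
  unfold q; rw [if_neg h]; split <;> simp

omit [Fintype V] [DecidableEq V] in
theorem q_m {v : V} (h : κ v ≠ k) (h' : κ v = A ∨ κ v = B) : q κ k A B a z v = a := by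
  unfold q; rw [if_neg h, if_pos h']

omit [Fintype V] [DecidableEq V] in
theorem q_z {v : V} (h : κ v ≠ k) (h' : ¬ (κ v = A ∨ κ v = B)) : q κ k A B a z v = z := by
  unfold q; rw [if_neg h, if_neg h']

omit [Fintype V] [DecidableEq V] in
theorem q_eq {u v : V} (hv : κ v = k) (ha : κ a ≠ k) (hz : κ z ≠ k) :
    q κ k A B a z u = v ↔ u = v := by
  by_cases hu : κ u = k
  · rw [q_in hu]
  · constructor
    · intro h
      rcases q_out (A := A) (B := B) (a := a) (z := z) hu with h1 | h1
      · exact absurd (by rw [← h1, h]; exact hv) ha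
      · exact absurd (by rw [← h1, h]; exact hv) hz
    · rintro rfl
      exact absurd hv hu


omit [Fintype V] in
theorem sum_eq {M : Type} [AddCommMonoid M] {s t : E → V} {S : Finset E} {y : E}
    (ha : κ a ≠ k) (hz : κ z ≠ k) (c : E → M) {v : V} (hv : κ v = k) :
    ∑ e ∈ S.filter (fun x => (κ (s x) = k ∨ κ (t x) = k) ∨ x = y),
      ((if q κ k A B a z (s e) = v then c e else 0) +
        (if q κ k A B a z (t e) = v then c e else 0)) =
    ∑ e ∈ S, ((if s e = v then c e else 0) + (if t e = v then c e else 0)) := by
  have h1 : ∀ e, ((if q κ k A B a z (s e) = v then c e else 0) +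
        (if q κ k A B a z (t e) = v then c e else 0)) =
      ((if s e = v then c e else 0) + (if t e = v then c e else 0)) := by
    intro e
    simp only [q_eq hv ha hz]
  rw [Finset.sum_congr rfl (fun e _ => h1 e)]
  apply Finset.sum_subset (Finset.filter_subset _ _)
  intro e he he'
  rw [Finset.mem_filter] at he'
  have h2 : s e ≠ v := by
    rintro rfl
    exact he' ⟨he, Or.inl (Or.inl hv)⟩
  have h3 : t e ≠ v := by
    rintro rfl
    exact he' ⟨he, Or.inl (Or.inr hv)⟩
  simp [h2, h3]

end

end P1

section
variable {V E : Type} [Fintype V] [DecidableEq V] [DecidableEq E]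

theorem MinC.P1 {s t : E → V} {S : Finset E} (h : MinC s t S) {e f : E} {w a b : V}
    {κ : V → Fin 10} {ρ : Fin 10 → Fin 10 → E} (q : Sit s t S e f w a b κ ρ)
    (hab : κ a ≠ κ b) (hwa : padj (κ w) (κ a) = false) (hwb : padj (κ w) (κ b) = false) :
    ∃ φ, Inn s t S κ (κ w) φ ∧ φ e + φ f ≠ 0 := by
  obtain ⟨D, hD, hDB⟩ := P1.exists_nb (κ a) (κ b)
  obtain ⟨D', hD', hDA'⟩ := P1.exists_nb (κ b) (κ a)
  have hDA : D ≠ κ a := by
    rintro rfl
    rw [P1.padj_irr] at hD; exact absurd hD (by decide)
  have hDk : D ≠ κ w := by
    rintro rfl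
    rw [P1.padj_symm, hwa] at hD; exact absurd hD (by decide)
  have hDB' : D' ≠ κ b := by
    rintro rfl
    rw [P1.padj_irr] at hD'; exact absurd hD' (by decide)
  have hDk' : D' ≠ κ w := by
    rintro rfl
    rw [P1.padj_symm, hwb] at hD'; exact absurd hD' (by decide)
  have hnp : ¬ (κ a = κ a ∧ D = κ b ∨ κ a = κ b ∧ D = κ a) := by
    rintro (⟨_, h2⟩ | ⟨h1, _⟩)
    · exact hDB h2
    · exact hab h1
  have hnp' : ¬ (κ b = κ a ∧ D' = κ b ∨ κ b = κ b ∧ D' = κ a) := by
    rintro (⟨h1, _⟩ | ⟨_, h2⟩)
    · exact hab h1.symm
    · exact hDA' h2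
  obtain ⟨yS, ye, yf, yJ⟩ := q.mem (κ a) D hD hnp
  obtain ⟨y'S, ye', yf', yJ'⟩ := q.mem (κ b) D' hD' hnp'
  generalize hy : ρ (κ a) D = y at yS ye yf yJ
  generalize hy' : ρ (κ b) D' = y' at y'S ye' yf' yJ'
  -- a representative of the class `D`
  obtain ⟨z, hz⟩ : ∃ z, κ z = D := by
    rcases yJ with ⟨_, h2⟩ | ⟨h1, _⟩
    · exact ⟨_, h2⟩
    · exact ⟨_, h1⟩
  have hak : κ a ≠ κ w := fun h' => q.wa h'.symm
  have hbk : κ b ≠ κ w := fun h' => q.wb h'.symm
  have hzk : κ z ≠ κ w := by rw [hz]; exact hDk
  have hza : z ≠ a := by
    rintro rfl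
    exact hDA hz.symm
  have hwa' : w ≠ a := by
    rintro rfl
    exact hak rfl
  set g : V → V := P1.q κ (κ w) (κ a) (κ b) a z with hg
  set S' : Finset E := S.filter (fun x => (κ (s x) = κ w ∨ κ (t x) = κ w) ∨ x = y) with hS'
  have gw : g w = w := P1.q_in rfl
  have ga : g a = a := P1.q_m hak (Or.inl rfl)
  have gb : g b = a := P1.q_m hbk (Or.inr rfl)
  have gin : ∀ v, κ v = κ w → g v = v := fun v hv => P1.q_in hv
  have gout : ∀ v, κ v ≠ κ w → g v = a ∨ g v = z := fun v hv => P1.q_out hv
  have gA : ∀ v, κ v = κ a → g v = a := fun v hv =>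
    P1.q_m (by rw [hv]; exact hak) (Or.inl hv)
  have gD : ∀ v, κ v = D → g v = z := by
    intro v hv
    apply P1.q_z
    · rw [hv]; exact hDk
    · rw [hv]
      rintro (h1 | h1)
      · exact hDA h1
      · exact hDB h1
  have yS' : y ∈ S' := by
    rw [hS', Finset.mem_filter]
    exact ⟨yS, Or.inr rfl⟩
  have eS' : e ∈ S' := by
    rw [hS', Finset.mem_filter]
    refine ⟨q.eS, Or.inl ?_⟩
    rcases q.he with ⟨h1, _⟩ | ⟨_, h2⟩
    · exact Or.inl (by rw [h1])
    · exact Or.inr (by rw [h2])
  have fS' : f ∈ S' := by
    rw [hS', Finset.mem_filter]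
    refine ⟨q.fS, Or.inl ?_⟩
    rcases q.hf with ⟨h1, _⟩ | ⟨_, h2⟩
    · exact Or.inl (by rw [h1])
    · exact Or.inr (by rw [h2])
  have gsy : (g (s y) = a ∧ g (t y) = z) ∨ (g (s y) = z ∧ g (t y) = a) := by
    rcases yJ with ⟨h1, h2⟩ | ⟨h1, h2⟩
    · exact Or.inl ⟨gA _ h1, gD _ h2⟩
    · exact Or.inr ⟨gD _ h1, gA _ h2⟩
  have ynk : ¬ (κ (s y) = κ w ∨ κ (t y) = κ w) := by
    rcases yJ with ⟨h1, h2⟩ | ⟨h1, h2⟩
    · rw [h1, h2]
      rintro (h3 | h3)
      · exact hak h3
      · exact hDk h3
    · rw [h1, h2]
      rintro (h3 | h3)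
      · exact hDk h3
      · exact hak h3
  -- an edge at the class of `w` other than `e`, `f` does not go to the classes of `a`, `b`
  have hother : ∀ x ∈ S, x ≠ e → x ≠ f → ∀ l, l ≠ κ w → Joins κ s t (κ w) l x →
      ¬ (l = κ a ∨ l = κ b) := by
    intro x hx hxe hxf l hl hJ hl'
    obtain ⟨h1, _, _⟩ := q.only x hx hxe hxf (κ w) l hl.symm hJ
    rcases hl' with rfl | rfl
    · rw [hwa] at h1; exact absurd h1 (by decide)
    · rw [hwb] at h1; exact absurd h1 (by decide)
  -- N1 for the pole graph
  have hn1 : N1 (fun x => g (s x)) (fun x => g (t x)) S' := by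
    intro x hx1
    by_cases hxz : x a = x z
    · apply h.n1 (fun v => x (g v))
      rw [← hx1]
      congr 1
      ext c
      simp only [cut, Finset.mem_filter, hS']
      constructor
      · rintro ⟨hc, hcut⟩
        refine ⟨⟨hc, ?_⟩, hcut⟩
        by_contra hcon
        push Not at hcon
        obtain ⟨⟨h1, h2⟩, _⟩ := hcon
        apply hcut
        rcases gout _ h1 with h3 | h3 <;> rcases gout _ h2 with h4 | h4 <;> rw [h3, h4]
        · exact hxz
        · exact hxz.symm
      · rintro ⟨⟨hc, _⟩, hcut⟩
        exact ⟨hc, hcut⟩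
    · obtain ⟨c, hc⟩ := Finset.card_eq_one.mp hx1
      have hyc : y ∈ cut (fun x => g (s x)) (fun x => g (t x)) S' x := by
        simp only [cut, Finset.mem_filter]
        refine ⟨yS', ?_⟩
        rcases gsy with ⟨h1, h2⟩ | ⟨h1, h2⟩
        · rw [h1, h2]; exact hxz
        · rw [h1, h2]; exact fun h3 => hxz h3.symm
      have hcy : c = y := by
        rw [hc, Finset.mem_singleton] at hyc
        exact hyc.symm
      have hnot : ∀ d ∈ S', d ≠ y → x (g (s d)) = x (g (t d)) := by
        intro d hd hdy
        by_contra hcon
        have : d ∈ cut (fun x => g (s x)) (fun x => g (t x)) S' x := by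
          simp only [cut, Finset.mem_filter]
          exact ⟨hd, hcon⟩
        rw [hc, Finset.mem_singleton, hcy] at this
        exact hdy this
      have hxw : x w = x a := by
        have h1 := hnot e eS' ye.symm
        rcases q.he with ⟨h2, h3⟩ | ⟨h2, h3⟩
        · rw [h2, h3, gw, ga] at h1; exact h1
        · rw [h2, h3, gw, ga] at h1; exact h1.symm
      apply h.no2 (fun v => decide (κ v = κ w ∧ x v = x a))
      have hcut : cut s t S (fun v => decide (κ v = κ w ∧ x v = x a)) = {e, f} := by
        ext d
        simp only [cut, Finset.mem_filter, Finset.mem_insert, Finset.mem_singleton]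
        constructor
        · rintro ⟨hd, hne⟩
          by_contra hcon
          push Not at hcon
          obtain ⟨hde, hdf⟩ := hcon
          -- the key step, for both orientations
          have key : ∀ u v, ((s d = u ∧ t d = v) ∨ (s d = v ∧ t d = u)) →
              (κ u = κ w ∧ x u = x a) → ¬ (κ v = κ w ∧ x v = x a) → False := by
            intro u v huv hu hv
            have hdS' : d ∈ S' := by
              rw [hS', Finset.mem_filter]
              refine ⟨hd, Or.inl ?_⟩
              rcases huv with ⟨h1, _⟩ | ⟨_, h1⟩
              · exact Or.inl (by rw [h1]; exact hu.1)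
              · exact Or.inr (by rw [h1]; exact hu.1)
            have hdy : d ≠ y := by
              rintro rfl
              apply ynk
              rcases huv with ⟨h1, _⟩ | ⟨_, h1⟩
              · exact Or.inl (by rw [h1]; exact hu.1)
              · exact Or.inr (by rw [h1]; exact hu.1)
            have h1 : x (g u) = x (g v) := by
              have h2 := hnot d hdS' hdy
              rcases huv with ⟨h3, h4⟩ | ⟨h3, h4⟩
              · rw [h3, h4] at h2; exact h2
              · rw [h3, h4] at h2; exact h2.symm
            rw [gin u hu.1, hu.2] at h1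
            by_cases hvk : κ v = κ w
            · apply hv
              refine ⟨hvk, ?_⟩
              rw [gin v hvk] at h1
              exact h1.symm
            · have hJ : Joins κ s t (κ w) (κ v) d := by
                rcases huv with ⟨h3, h4⟩ | ⟨h3, h4⟩
                · exact Or.inl ⟨by rw [h3]; exact hu.1, by rw [h4]⟩
                · exact Or.inr ⟨by rw [h3], by rw [h4]; exact hu.1⟩
              have h5 := hother d hd hde hdf (κ v) hvk hJ
              have h6 : g v = z := P1.q_z hvk h5
              rw [h6] at h1
              exact hxz h1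
          by_cases h1 : κ (s d) = κ w ∧ x (s d) = x a
          · by_cases h2 : κ (t d) = κ w ∧ x (t d) = x a
            · apply hne
              simp [h1, h2]
            · exact key (s d) (t d) (Or.inl ⟨rfl, rfl⟩) h1 h2
          · by_cases h2 : κ (t d) = κ w ∧ x (t d) = x a
            · exact key (t d) (s d) (Or.inr ⟨rfl, rfl⟩) h2 h1
            · apply hne
              rw [decide_eq_false h1, decide_eq_false h2]
        · have hwt : decide (κ w = κ w ∧ x w = x a) = true := by
            rw [decide_eq_true_eq]; exact ⟨rfl, hxw⟩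
          have haf : decide (κ a = κ w ∧ x a = x a) = false := by
            rw [decide_eq_false_iff_not]; exact fun h1 => hak h1.1
          have hbf : decide (κ b = κ w ∧ x b = x a) = false := by
            rw [decide_eq_false_iff_not]; exact fun h1 => hbk h1.1
          rintro (rfl | rfl)
          · refine ⟨q.eS, ?_⟩
            rcases q.he with ⟨h2, h3⟩ | ⟨h2, h3⟩
            · rw [h2, h3, hwt, haf]; decide
            · rw [h2, h3, hwt, haf]; decide
          · refine ⟨q.fS, ?_⟩
            rcases q.hf with ⟨h2, h3⟩ | ⟨h2, h3⟩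
            · rw [h2, h3, hwt, hbf]; decide
            · rw [h2, h3, hwt, hbf]; decide
      rw [hcut]
      exact Finset.card_pair q.ef
  -- the vertices of odd degree
  have hodd : (odd (fun x => g (s x)) (fun x => g (t x)) S').card ≤ 9 := by
    have hsub : odd (fun x => g (s x)) (fun x => g (t x)) S' ⊆
        ((odd s t S).filter (fun v => κ v = κ w)) ∪ {a, z} := by
      intro v hv
      simp only [odd, Finset.mem_filter, Finset.mem_univ, true_and] at hv
      simp only [Finset.mem_union, Finset.mem_filter, odd, Finset.mem_univ, true_and,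
        Finset.mem_insert, Finset.mem_singleton]
      by_cases hvk : κ v = κ w
      · left
        refine ⟨?_, hvk⟩
        have h1 : deg (fun x => g (s x)) (fun x => g (t x)) S' v = deg s t S v :=
          P1.sum_eq (M := ℕ) hak hzk (fun _ => 1) hvk
        rw [h1] at hv
        exact hv
      · right
        by_contra hcon
        push Not at hcon
        obtain ⟨hva, hvz⟩ := hcon
        have h1 : ∀ u, g u ≠ v := by
          intro u hu
          by_cases huk : κ u = κ w
          · rw [gin u huk] at hu
            exact hvk (by rw [← hu]; exact huk)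
          · rcases gout u huk with h2 | h2
            · exact hva (by rw [← hu, h2])
            · exact hvz (by rw [← hu, h2])
        have h2 : deg (fun x => g (s x)) (fun x => g (t x)) S' v = 0 := by
          unfold deg
          apply Finset.sum_eq_zero
          intro c _
          simp [h1]
        rw [h2] at hv
        exact absurd hv (by decide)
    calc (odd (fun x => g (s x)) (fun x => g (t x)) S').card
        ≤ (((odd s t S).filter (fun v => κ v = κ w)) ∪ {a, z}).card := Finset.card_le_card hsub
      _ ≤ ((odd s t S).filter (fun v => κ v = κ w)).card + ({a, z} : Finset V).card :=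
          Finset.card_union_le _ _
      _ ≤ 7 + 2 := Nat.add_le_add (q.odd_le h.odd16 _) Finset.card_le_two
      _ = 9 := rfl
  -- the number of edges
  have hcard : S'.card < S.card := by
    apply Finset.card_lt_card
    rw [Finset.ssubset_iff_of_subset (Finset.filter_subset _ _)]
    refine ⟨y', y'S, ?_⟩
    rw [Finset.mem_filter]
    rintro ⟨_, h1 | h1⟩
    · rcases yJ' with ⟨h2, h3⟩ | ⟨h2, h3⟩
      · rw [h2, h3] at h1
        rcases h1 with h1 | h1
        · exact hbk h1
        · exact hDk' h1
      · rw [h2, h3] at h1
        rcases h1 with h1 | h1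
        · exact hDk' h1
        · exact hbk h1
    · rw [h1] at yJ'
      rcases yJ with ⟨h2, h3⟩ | ⟨h2, h3⟩ <;> rcases yJ' with ⟨h4, h5⟩ | ⟨h4, h5⟩
      · exact hab (h2.symm.trans h4)
      · exact hDB (h3.symm.trans h5)
      · exact hDB (h2.symm.trans h4)
      · exact hab (h3.symm.trans h5)
  rcases h.ih _ _ S' hcard hn1 (hodd.trans (by decide)) with ⟨φ, hφ, hcons⟩ | hpq
  · refine ⟨φ, ⟨?_, ?_⟩, ?_⟩
    · intro c hc hck
      apply hφ
      rw [hS', Finset.mem_filter]
      exact ⟨hc, Or.inl hck⟩
    · intro v hv
      exact (P1.sum_eq (M := F) hak hzk φ hv).symm.trans (hcons v)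
    · have hcut : cut (fun x => g (s x)) (fun x => g (t x)) S' (fun v => decide (v = a)) =
          {e, f, y} := by
        ext d
        simp only [cut, Finset.mem_filter, Finset.mem_insert, Finset.mem_singleton]
        constructor
        · rintro ⟨hd, hne⟩
          by_contra hcon
          push Not at hcon
          obtain ⟨hde, hdf, hdy⟩ := hcon
          have hd' := hd
          rw [hS', Finset.mem_filter] at hd'
          obtain ⟨hdS, hdk | hdk⟩ := hd'
          · have key : ∀ u v, ((s d = u ∧ t d = v) ∨ (s d = v ∧ t d = u)) → κ u = κ w →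
                g v ≠ a := by
              intro u v huv hu
              by_cases hvk : κ v = κ w
              · rw [gin v hvk]
                rintro rfl
                exact hak hvk
              · have hJ : Joins κ s t (κ w) (κ v) d := by
                  rcases huv with ⟨h3, h4⟩ | ⟨h3, h4⟩
                  · exact Or.inl ⟨by rw [h3]; exact hu, by rw [h4]⟩
                  · exact Or.inr ⟨by rw [h3], by rw [h4]; exact hu⟩
                have h5 := hother d hdS hde hdf (κ v) hvk hJ
                have h6 : g v = z := P1.q_z hvk h5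
                rw [h6]
                exact hza
            have hin : ∀ u, κ u = κ w → g u ≠ a := by
              intro u hu
              rw [gin u hu]
              rintro rfl
              exact hak hu
            apply hne
            rcases hdk with hdk | hdk
            · have h1 := key (s d) (t d) (Or.inl ⟨rfl, rfl⟩) hdk
              have h2 := hin (s d) hdk
              rw [decide_eq_false h1, decide_eq_false h2]
            · have h1 := key (t d) (s d) (Or.inr ⟨rfl, rfl⟩) hdk
              have h2 := hin (t d) hdk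
              rw [decide_eq_false h1, decide_eq_false h2]
          · exact hdy hdk
        · rintro (rfl | rfl | rfl)
          · refine ⟨eS', ?_⟩
            rcases q.he with ⟨h2, h3⟩ | ⟨h2, h3⟩
            · simp [h2, h3, gw, ga, hwa']
            · simp [h2, h3, gw, ga, hwa']
          · refine ⟨fS', ?_⟩
            rcases q.hf with ⟨h2, h3⟩ | ⟨h2, h3⟩
            · simp [h2, h3, gw, gb, hwa']
            · simp [h2, h3, gw, gb, hwa']
          · refine ⟨yS', ?_⟩
            rcases gsy with ⟨h2, h3⟩ | ⟨h2, h3⟩
            · simp [h2, h3, hza]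
            · simp [h2, h3, hza]
      have hsum := flow_cut (s := fun x => g (s x)) (t := fun x => g (t x)) (S := S') (φ := φ)
        (fun v => decide (v = a)) (fun v _ => hcons v)
      rw [hcut, Finset.sum_insert (by
          simp only [Finset.mem_insert, Finset.mem_singleton, not_or]
          exact ⟨q.ef, ye.symm⟩),
        Finset.sum_insert (by
          simp only [Finset.mem_singleton]
          exact yf.symm), Finset.sum_singleton] at hsum
      intro h0
      apply hφ y yS'
      rw [← add_assoc, h0, zero_add] at hsum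
      exact hsum
  · exact absurd (pq_card hpq) (by omega)

end

end Pool.Agent.TH362.TF
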