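import Pool.Agent.TH362.TF.Tab
import Pool.Agent.TH362.TF.Four
import Pool.Agent.TH362.TF.Lift
import Pool.Agent.TH362.TF.Str
import Pool.Agent.TH362.TF.P1
import Pool.Agent.TH362.TF.P2
import Pool.Agent.TH362.TF.P3
import Pool.Agent.TH362.TF.Asm2
import Pool.Agent.TH362.TF.Asm3
import Pool.Agent.TH362.TF.PM
import Pool.Agent.TH362.TF.Rep
import Pool.Agent.TH362.TF.FinA
import Pool.Agent.TH362.TF.FinB
import Pool.Agent.TH362.TF.FinC
import Mathlib.Data.Fin.VecNotation

/-!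
Every finite multigraph without an edge cut of size one and with at most sixteen vertices of odd
degree has a nowhere-zero flow over `F` or a Petersen quotient.
-/

set_option autoImplicit false

namespace Pool.Agent.TH362.TF

open Finset

variable {V E : Type} [Fintype V] [DecidableEq V] [DecidableEq E]

theorem pne : ∀ k : Fin 10, padj k k = false := by decide

theorem pdist : ∀ W A B : Fin 10, padj A B = true → W ≠ A → W ≠ B →
    (padj W A = true ∧ padj W B = false) ∨ (padj W A = false ∧ padj W B = true) ∨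
    (padj W A = false ∧ padj W B = false) := by decide

theorem pcom : ∀ W A : Fin 10, W ≠ A → padj W A = false →
    ∃ C, padj W C = true ∧ padj A C = true ∧
      (∀ j, padj W j = true → j ≠ C → ¬ padj A j = true) := by decide +kernel

theorem pidx : ∀ W C : Fin 10, padj W C = true → ∃ j, nb W j = C := by decide

theorem pmem : ∀ (W : Fin 10) (j : Fin 3), padj W (nb W j) = true := by decide

theorem psymm : ∀ W A : Fin 10, padj W A = padj A W := by decide

/-- The pattern of a flow for which the value at the edge number `j` is `y`. -/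
theorem pat_eq {p : Fin 4} {y a0 a1 a2 : F} (h : Pat p y a0 a1 a2) (j : Fin 3)
    (hj : y = (![a0, a1, a2] : Fin 3 → F) j) : p = 3 ∨ p.val = j.val := by
  match p, h with
  | 0, ⟨h1, h2, h3⟩ =>
    match j, hj with
    | 0, _ => exact Or.inr rfl
    | 1, hj => exact absurd hj.symm h3
    | 2, hj => exact absurd (h2.trans hj.symm) h3
  | 1, ⟨h1, h2, h3⟩ =>
    match j, hj with
    | 0, hj => exact absurd hj.symm h3
    | 1, _ => exact Or.inr rfl
    | 2, hj => exact absurd (h2.trans hj.symm) h3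
  | 2, ⟨h1, h2, h3⟩ =>
    match j, hj with
    | 0, hj => exact absurd hj.symm h3
    | 1, hj => exact absurd (h2.trans hj.symm) h3
    | 2, _ => exact Or.inr rfl
  | 3, _ => exact Or.inl rfl

theorem pat_ne {p : Fin 4} {y a0 a1 a2 : F} (h : Pat p y a0 a1 a2) (j : Fin 3)
    (hj : y ≠ (![a0, a1, a2] : Fin 3 → F) j) : p ≠ 3 ∧ p.val ≠ j.val := by
  match p, h with
  | 0, ⟨h1, h2, h3⟩ =>
    match j, hj with
    | 0, hj => exact absurd h1.symm hj
    | 1, hj => exact ⟨by decide, by decide⟩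
    | 2, hj => exact ⟨by decide, by decide⟩
  | 1, ⟨h1, h2, h3⟩ =>
    match j, hj with
    | 0, hj => exact ⟨by decide, by decide⟩
    | 1, hj => exact absurd h1.symm hj
    | 2, hj => exact ⟨by decide, by decide⟩
  | 2, ⟨h1, h2, h3⟩ =>
    match j, hj with
    | 0, hj => exact ⟨by decide, by decide⟩
    | 1, hj => exact ⟨by decide, by decide⟩
    | 2, hj => exact absurd h1.symm hj
  | 3, ⟨h1, h2, h3⟩ =>
    match j, hj with
    | 0, hj => exact absurd h1.symm hj
    | 1, hj => exact absurd h2.symm hj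
    | 2, hj => exact absurd h3.symm hj

theorem vec_val {ρ : Fin 10 → E} (φ : E → F) (W : Fin 10) (j : Fin 3) :
    (![φ (ρ (nb W 0)), φ (ρ (nb W 1)), φ (ρ (nb W 2))] : Fin 3 → F) j = φ (ρ (nb W j)) := by
  match j with
  | 0 => rfl
  | 1 => rfl
  | 2 => rfl

section
variable {s t : E → V} {S : Finset E} {e f : E} {w a b : V} {κ : V → Fin 10}
  {ρ : Fin 10 → Fin 10 → E}

/-- The pattern of a flow at the class of `w`. -/
theorem Sit.patW (q : Sit s t S e f w a b κ ρ) {φ : E → F} (i : Inn s t S κ (κ w) φ)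
    (h0 : φ e + φ f ≠ 0) : ∃ p, Pat p (φ e + φ f) (φ (ρ (κ w) (nb (κ w) 0)))
      (φ (ρ (κ w) (nb (κ w) 1))) (φ (ρ (κ w) (nb (κ w) 2))) := by
  have key : ∀ j, φ (ρ (κ w) (nb (κ w) j)) ≠ 0 := fun j => by
    obtain ⟨h1, _, _, h4⟩ := q.mem (κ w) (nb (κ w) j) (pmem _ _)
      (by rintro (⟨h, _⟩ | ⟨h, _⟩) <;> [exact q.wa h; exact q.wb h])
    exact i.1 _ h1 (h4.imp (fun h => h.1) (fun h => h.2))
  exact pat_exists _ _ _ _ h0 (key 0) (key 1) (key 2) (q.sumW i)

/-- The pattern of a flow at the class of `a`. -/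
theorem Sit.patA (q : Sit s t S e f w a b κ ρ) (hab : κ a = κ b) {φ : E → F}
    (i : Inn s t S κ (κ a) φ) (h0 : φ e + φ f ≠ 0) : ∃ p, Pat p (φ e + φ f)
      (φ (ρ (κ a) (nb (κ a) 0))) (φ (ρ (κ a) (nb (κ a) 1))) (φ (ρ (κ a) (nb (κ a) 2))) := by
  have key : ∀ j, φ (ρ (κ a) (nb (κ a) j)) ≠ 0 := fun j => by
    obtain ⟨h1, _, _, h4⟩ := q.mem (κ a) (nb (κ a) j) (pmem _ _) (by
      rw [← hab]
      rintro (⟨_, h⟩ | ⟨_, h⟩) <;>
      · have h1 := pmem (κ a) j
        rw [h, pne] at h1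
        exact Bool.false_ne_true h1)
    exact i.1 _ h1 (h4.imp (fun h => h.1) (fun h => h.2))
  exact pat_exists _ _ _ _ h0 (key 0) (key 1) (key 2) (q.sumA hab i)

/-- The value at an edge at the class of `w` is not zero. -/
theorem Sit.neW (q : Sit s t S e f w a b κ ρ) {φ : E → F} (i : Inn s t S κ (κ w) φ) {l : Fin 10}
    (hl : padj (κ w) l = true) : φ (ρ (κ w) l) ≠ 0 := by
  obtain ⟨h1, _, _, h4⟩ := q.mem (κ w) l hl
    (by rintro (⟨h, _⟩ | ⟨h, _⟩) <;> [exact q.wa h; exact q.wb h])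
  exact i.1 _ h1 (h4.imp (fun h => h.1) (fun h => h.2))

theorem Sit.neA (q : Sit s t S e f w a b κ ρ) (hab : κ a = κ b) {φ : E → F}
    (i : Inn s t S κ (κ a) φ) {l : Fin 10} (hl : padj (κ a) l = true) : φ (ρ (κ a) l) ≠ 0 := by
  obtain ⟨h1, _, _, h4⟩ := q.mem (κ a) l hl (by
      rw [← hab]
      rintro (⟨_, h⟩ | ⟨_, h⟩) <;>
      · rw [h, pne] at hl
        exact Bool.false_ne_true hl)
  exact i.1 _ h1 (h4.imp (fun h => h.1) (fun h => h.2))

/-- The case of different classes. -/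
theorem MinC.case3 (h : MinC s t S) (l : L s t S e f w a b κ) (q : Sit s t S e f w a b κ ρ)
    (hab : κ a ≠ κ b) : False := by
  have hAB : padj (κ a) (κ b) = true := q.ab.resolve_left hab
  have adj : ∀ l0, padj (κ w) l0 = true → (l0 = κ a ∨ l0 = κ b) →
      (∀ j, padj (κ w) j = true → j ≠ l0 → j ≠ κ a ∧ j ≠ κ b) → False := by
    intro l0 hl hl0 hn
    rcases h.P2W l q l0 (fun j => decide (j = κ a ∨ j = κ b)) hl
      (by simpa using ⟨q.wa, q.wb⟩) (by simpa using hl0) (by simp) (by simp)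
      (fun j hj hj' => by simpa using hn j hj hj') with ⟨φ, i, hφ⟩ | ⟨κ', l', h1, h2, h3⟩
    · have h0 : φ e + φ f ≠ 0 := by rw [hφ]; exact q.neW i hl
      obtain ⟨p, hp⟩ := q.patW i h0
      obtain ⟨j, rfl⟩ := pidx _ _ hl
      have hpj := pat_eq hp j (by rw [vec_val (ρ := ρ (κ w))]; exact hφ)
      obtain ⟨ve, vf, Ψ, o⟩ := tab3a j (κ w) (κ a) (κ b) hAB q.wa q.wb hl0 p hpj
      exact h.asm3 q hab p ve vf Ψ o φ i hp h0
    · rcases hl0 with rfl | rfl
      · exact h.pq (l'.pqa (h1.trans h2.symm))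
      · exact h.pq (l'.pqb (h1.trans h3.symm))
  rcases pdist (κ w) (κ a) (κ b) hAB q.wa q.wb with ⟨h1, h2⟩ | ⟨h1, h2⟩ | ⟨h1, h2⟩
  · refine adj (κ a) h1 (Or.inl rfl) fun j hj hj' => ⟨hj', ?_⟩
    rintro rfl
    rw [h2] at hj; exact Bool.false_ne_true hj
  · refine adj (κ b) h2 (Or.inr rfl) fun j hj hj' => ⟨?_, hj'⟩
    rintro rfl
    rw [h1] at hj; exact Bool.false_ne_true hj
  · obtain ⟨φ, i, h0⟩ := h.P1 q hab h1 h2
    obtain ⟨p, hp⟩ := q.patW i h0
    obtain ⟨ve, vf, Ψ, o⟩ := tab3f (κ w) (κ a) (κ b) hAB q.wa q.wb h1 h2 p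
    exact h.asm3 q hab p ve vf Ψ o φ i hp h0

/-- The case of adjacent classes. -/
theorem MinC.case2a (h : MinC s t S) (l : L s t S e f w a b κ) (q : Sit s t S e f w a b κ ρ)
    (hab : κ a = κ b) (hwa : padj (κ w) (κ a) = true) : False := by
  rcases h.P2W l q (κ a) (fun j => decide (j = κ a)) hwa (by simpa using q.wa) (by simp)
    (by simp) (by simp [hab]) (fun j _ hj' => by simpa using hj') with
    ⟨φW, iW, hφW⟩ | ⟨κ', l', h1, h2, h3⟩
  swap
  · exact h.pq (l'.pqa (h1.trans h2.symm))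
  have haw : padj (κ a) (κ w) = true := by rw [psymm]; exact hwa
  rcases h.P2A l q hab (κ w) (fun j => decide (j = κ w)) haw (by simpa using Ne.symm q.wa)
    (by simp) (by simp) (fun j _ hj' => by simpa using hj') with
    ⟨φA, iA, hφA⟩ | ⟨κ', l', h1, h2, h3⟩
  swap
  · exact h.pq (l'.pqa (h1.trans h2.symm))
  have hW0 : φW e + φW f ≠ 0 := by rw [hφW]; exact q.neW iW hwa
  have hA0 : φA e + φA f ≠ 0 := by rw [hφA]; exact q.neA hab iA haw
  obtain ⟨pW, hpW⟩ := q.patW iW hW0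
  obtain ⟨pA, hpA⟩ := q.patA hab iA hA0
  obtain ⟨j, hj⟩ := pidx _ _ hwa
  obtain ⟨i, hi⟩ := pidx _ _ haw
  have hWj := pat_eq hpW j (by rw [vec_val (ρ := ρ (κ w)), hj]; exact hφW)
  have hAi := pat_eq hpA i (by rw [vec_val (ρ := ρ (κ a)), hi]; exact hφA)
  obtain ⟨y, Ψ, o⟩ := tab2a j i (κ w) (κ a) hj hi pW pA hWj hAi
  exact h.asm2 q hab pW pA y Ψ o φW φA iW iA hpW hpA hW0 hA0

end

section
variable {s t : E → V} {S : Finset E} {e f : E} {w a b : V} {κ : V → Fin 10}
  {ρ : Fin 10 → Fin 10 → E}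

/-- The case of equal classes. -/
theorem MinC.case2 (h : MinC s t S) (l : L s t S e f w a b κ) (q : Sit s t S e f w a b κ ρ)
    (hab : κ a = κ b) : False := by
  by_cases hwa : padj (κ w) (κ a) = true
  · exact h.case2a l q hab hwa
  have hwa' : padj (κ w) (κ a) = false := by simpa using hwa
  obtain ⟨C, hC1, hC2, hC3⟩ := pcom (κ w) (κ a) q.wa hwa'
  have hCw : C ≠ κ w := by rintro rfl; rw [pne] at hC1; exact Bool.false_ne_true hC1
  have hCa : C ≠ κ a := by rintro rfl; rw [pne] at hC2; exact Bool.false_ne_true hC2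
  have hnA : ∀ j, padj (κ a) j = true → j ≠ C → j ≠ κ w := by
    rintro j hj _ rfl
    rw [psymm, hwa'] at hj; exact Bool.false_ne_true hj
  have hnW : ∀ j, padj (κ w) j = true → j ≠ C → j ≠ κ a := by
    rintro j hj _ rfl
    rw [hwa'] at hj; exact Bool.false_ne_true hj
  -- a situation in which the classes are adjacent
  have red : ∀ κ' : V → Fin 10, L s t S e f w a b κ' → κ' a = κ' b →
      padj (κ' w) (κ' a) = true → False := by
    intro κ' l' hab' hadj
    have hne : κ' w ≠ κ' a := by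
      intro h; rw [h, pne] at hadj; exact Bool.false_ne_true hadj
    obtain ⟨ρ', q'⟩ := l'.sit hne (hab' ▸ hne)
    exact h.case2a l' q' hab' hadj
  rcases h.P2W l q C (fun j => decide (j = κ a ∨ j = C)) hC1 (by simpa using ⟨q.wa, hCw.symm⟩)
    (by simp) (by simp) (by simp [hab]) (fun j hj hj' => by simpa using ⟨hnW j hj hj', hj'⟩) with
    ⟨φW, iW, hφW⟩ | ⟨κ', l', h1, h2, h3⟩
  swap
  · refine red κ' l' (h2.trans (hab.trans h3.symm)) ?_
    rw [h1, h2, psymm]; exact hC2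
  rcases h.P2A l q hab C (fun j => decide (j = κ w ∨ j = C)) hC2
    (by simpa using ⟨q.wa.symm, hCa.symm⟩)
    (by simp) (by simp) (fun j hj hj' => by simpa using ⟨hnA j hj hj', hj'⟩) with
    ⟨φA, iA, hφA⟩ | ⟨κ', l', h1, h2, h3⟩
  swap
  · refine red κ' l' (h2.trans h3.symm) ?_
    rw [h1, h2]; exact hC1
  obtain ⟨j, hj⟩ := pidx _ _ hC1
  obtain ⟨i, hi⟩ := pidx _ _ hC2
  rcases q.odd_le2 h.odd16 (κ w) (κ a) q.wa with ho | ho
  · obtain ⟨φ, iφ, h0, hne⟩ := h.P3W q hab C hC1 hC2 ho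
    have hA0 : φA e + φA f ≠ 0 := by rw [hφA]; exact q.neA hab iA hC2
    obtain ⟨pW, hpW⟩ := q.patW iφ h0
    obtain ⟨pA, hpA⟩ := q.patA hab iA hA0
    have hWj := pat_ne hpW j (by rw [vec_val (ρ := ρ (κ w)), hj]; exact hne)
    have hAi := pat_eq hpA i (by rw [vec_val (ρ := ρ (κ a)), hi]; exact hφA)
    obtain ⟨y, Ψ, o⟩ := tab2f j i (κ w) (κ a) q.wa hwa' (hj.trans hi.symm) pW pA
      (Or.inr ⟨hAi, hWj⟩)
    exact h.asm2 q hab pW pA y Ψ o φ φA iφ iA hpW hpA h0 hA0
  · obtain ⟨φ, iφ, h0, hne⟩ := h.P3A q hab C hC1 hC2 ho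
    have hW0 : φW e + φW f ≠ 0 := by rw [hφW]; exact q.neW iW hC1
    obtain ⟨pA, hpA⟩ := q.patA hab iφ h0
    obtain ⟨pW, hpW⟩ := q.patW iW hW0
    have hAi := pat_ne hpA i (by rw [vec_val (ρ := ρ (κ a)), hi]; exact hne)
    have hWj := pat_eq hpW j (by rw [vec_val (ρ := ρ (κ w)), hj]; exact hφW)
    obtain ⟨y, Ψ, o⟩ := tab2f j i (κ w) (κ a) q.wa hwa' (hj.trans hi.symm) pW pA
      (Or.inl ⟨hWj, hAi⟩)
    exact h.asm2 q hab pW pA y Ψ o φW φ iW iφ hpW hpA hW0 h0

/-- All degrees of a minimal counterexample are 0 or 3. -/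
theorem MinC.cubic (h : MinC s t S) (v : V) : deg s t S v = 0 ∨ deg s t S v = 3 := by
  rcases h.deg_ge v with h0 | h3
  · exact Or.inl h0
  by_contra hc
  have h4 : 4 ≤ deg s t S v := by
    rcases Nat.lt_or_ge 3 (deg s t S v) with h | h
    · exact h
    · exact absurd (Or.inr (le_antisymm h h3)) hc
  obtain ⟨e, f, a, b, κ, l⟩ := h.lift h4
  by_cases ha : κ v = κ a
  · exact h.pq (l.pqa ha)
  by_cases hb : κ v = κ b
  · exact h.pq (l.pqb hb)
  obtain ⟨ρ, q⟩ := l.sit ha hb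
  by_cases hab : κ a = κ b
  · exact h.case2 l q hab
  · exact h.case3 l q hab

end

/-- Permutations of at most sixteen points. -/
theorem fin_main (n : ℕ) (hn : n ≤ 16) (p : Equiv.Perm (Fin n)) (m : Fin n → Fin n)
    (g : Gi n p m) : Col n p m ∨ Pet n p m := by
  refine fin_red (fun l hl p m hp g => ?_) n hn p m g
  simp only [List.mem_cons, List.not_mem_nil, or_false] at hl
  rcases hl with rfl | rfl | rfl | rfl | rfl | rfl | rfl
  · exact fin55 p m hp g
  · exact Or.inl (fin57 p m hp g)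
  · exact Or.inl (fin59 p m hp g)
  · exact Or.inl (fin77 p m hp g)
  · exact Or.inl (fin556 p m hp g)
  · exact Or.inl (fin511 p m hp g)
  · exact Or.inl (fin79 p m hp g)

theorem deg_of_ends {s t : E → V} {S : Finset E} {u v : V} {e : E} (he : e ∈ S)
    (h : Ends s t u v e) : deg s t S u ≠ 0 := by
  unfold deg
  intro h0
  have := (Finset.sum_eq_zero_iff.1 h0) e he
  rcases h with ⟨h1, _⟩ | ⟨_, h1⟩ <;> simp [h1] at this

theorem MinC.false {s t : E → V} {S : Finset E} (h : MinC s t S) : False := by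
  have hc := h.cubic
  have key : ∀ {u v : V} {e : E}, e ∈ S → Ends s t u v e → deg s t S u = 3 := fun he hE =>
    (hc _).resolve_left (deg_of_ends he hE)
  have key' : ∀ {u v : V} {e : E}, e ∈ S → Ends s t u v e → deg s t S v = 3 := fun he hE =>
    key he (hE.symm : Ends s t _ _ _)
  have k1 : ∀ {u v : V}, Adj s t S u v → deg s t S u = 3 := fun ⟨_, he, hE⟩ => key he hE
  rcases rep h.noloop hc h.odd16 (petersen_pm h.n1 h.noloop hc)
    (fun u v e e' he he' hne h1 h2 => h.nopar (key he h1) (key' he h1) he he' hne h1 h2)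
    (fun a b c h1 h2 h3 => h.notri (k1 h1) (k1 h2) (k1 h3) h1 h2 h3)
    (fun a b c d hac hbd h1 h2 h3 h4 => h.nofour (k1 h1) (k1 h2) (k1 h3) (k1 h4) hac hbd
      h1 h2 h3 h4) fin_main with h1 | h1
  · exact h.nz h1
  · exact h.pq h1

/-- **Main theorem**: a finite multigraph without an edge cut of size one and with at most sixteen
vertices of odd degree has a nowhere-zero flow over `F` or a Petersen quotient. -/
theorem main16 (s t : E → V) (S : Finset E) (h1 : N1 s t S) (ho : (odd s t S).card ≤ 16) :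
    NZ s t S ∨ PQ s t S := by
  induction hn : S.card using Nat.strong_induction_on generalizing s t S with
  | _ n ih =>
    subst hn
    by_contra hc
    rw [not_or] at hc
    exact MinC.false ⟨h1, ho, hc.1, hc.2, fun s' t' S' hlt h1' ho' => ih _ hlt s' t' S' h1' ho' rfl⟩

end Pool.Agent.TH362.TF
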