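import Pool.Agent.TH362.TF.Defs

/-!
Further definitions for the proof that a multigraph without cuts of size one and with at most
sixteen vertices of odd degree has a nowhere-zero 4-flow or a Petersen quotient.
-/

set_option autoImplicit false

namespace Pool.Agent.TH362.TF

open Finset

section
variable {V E : Type} [Fintype V] [DecidableEq V] [DecidableEq E]

/-- The edge `e` has the ends `u` and `v`. -/
def Ends (s t : E → V) (u v : V) (e : E) : Prop := (s e = u ∧ t e = v) ∨ (s e = v ∧ t e = u)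

/-- The situation after a lifting: `e` joins `w` and `a`, `f` joins `w` and `b`, and `κ` is a
Petersen quotient of the graph in which `e`, `f` are replaced by one edge (again called `e`)
joining `a` and `b`. -/
structure L (s t : E → V) (S : Finset E) (e f : E) (w a b : V) (κ : V → Fin 10) : Prop where
  eS : e ∈ S
  fS : f ∈ S
  ef : e ≠ f
  he : Ends s t w a e
  hf : Ends s t w b f
  pq : IsPQ (Function.update s e a) (Function.update t e b) (S.erase f) κ

/-- The edges `e`, `f` and the edges `ρ k l` (one for every adjacent pair of classes, except for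
the pair `κ a`, `κ b`) are the edges of the graph `(s, t, S)` between different classes. -/
structure Sit (s t : E → V) (S : Finset E) (e f : E) (w a b : V) (κ : V → Fin 10)
    (ρ : Fin 10 → Fin 10 → E) : Prop where
  eS : e ∈ S
  fS : f ∈ S
  ef : e ≠ f
  he : Ends s t w a e
  hf : Ends s t w b f
  wa : κ w ≠ κ a
  wb : κ w ≠ κ b
  ab : κ a = κ b ∨ padj (κ a) (κ b) = true
  symm : ∀ k l, ρ k l = ρ l k
  mem : ∀ k l, padj k l = true → ¬ (k = κ a ∧ l = κ b ∨ k = κ b ∧ l = κ a) →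
    ρ k l ∈ S ∧ ρ k l ≠ e ∧ ρ k l ≠ f ∧ Joins κ s t k l (ρ k l)
  only : ∀ x ∈ S, x ≠ e → x ≠ f → ∀ k l, k ≠ l → Joins κ s t k l x →
    padj k l = true ∧ ¬ (k = κ a ∧ l = κ b ∨ k = κ b ∧ l = κ a) ∧ x = ρ k l

/-- `φ` is a nowhere-zero flow on the edges at the class `k`. -/
def Inn (s t : E → V) (S : Finset E) (κ : V → Fin 10) (k : Fin 10) (φ : E → F) : Prop :=
  (∀ x ∈ S, κ (s x) = k ∨ κ (t x) = k → φ x ≠ 0) ∧ ∀ v, κ v = k → Cons s t S φ v

/-- The values of `ψ` on the edges leaving the class `k` extend to the edges inside the class. -/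
def Ext (s t : E → V) (S : Finset E) (κ : V → Fin 10) (ψ : E → F) (k : Fin 10) : Prop :=
  ∃ φ : E → F, (∀ x ∈ S, κ (s x) = k → κ (t x) = k → φ x ≠ 0) ∧
    (∀ x ∈ S, ¬ (κ (s x) = k ↔ κ (t x) = k) → φ x = ψ x) ∧ ∀ v, κ v = k → Cons s t S φ v

/-- The pattern of the values `a0, a1, a2` (with `y + a0 + a1 + a2 = 0`). -/
def Pat (p : Fin 4) (y a0 a1 a2 : F) : Prop :=
  match p with
  | 0 => a0 = y ∧ a1 = a2 ∧ a1 ≠ y
  | 1 => a1 = y ∧ a0 = a2 ∧ a0 ≠ y
  | 2 => a2 = y ∧ a0 = a1 ∧ a0 ≠ y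
  | 3 => a0 = y ∧ a1 = y ∧ a2 = y

instance (p : Fin 4) (y a0 a1 a2 : F) : Decidable (Pat p y a0 a1 a2) := by
  unfold Pat; split <;> infer_instance

/-- Adjacency. -/
def Adj (s t : E → V) (S : Finset E) (u v : V) : Prop := ∃ e ∈ S, Ends s t u v e

end

/-- A flow of the Petersen graph with the additional edge (value `y`) joining `W` and `A`. -/
structure Out2 (W A : Fin 10) (pW pA : Fin 4) (y : F) (Ψ : Fin 10 → Fin 10 → F) : Prop where
  y0 : y ≠ 0
  symm : ∀ k l, Ψ k l = Ψ l k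
  nz : ∀ k l, padj k l = true → Ψ k l ≠ 0
  cons : ∀ k, k ≠ W → k ≠ A → Ψ k (nb k 0) + Ψ k (nb k 1) + Ψ k (nb k 2) = 0
  pW : Pat pW y (Ψ W (nb W 0)) (Ψ W (nb W 1)) (Ψ W (nb W 2))
  pA : Pat pA y (Ψ A (nb A 0)) (Ψ A (nb A 1)) (Ψ A (nb A 2))

/-- A flow of the Petersen graph with the edge `A B` replaced by the edges `A W`, `W B` with the
values `ve`, `vf`. -/
structure Out3 (W A B : Fin 10) (pW : Fin 4) (ve vf : F) (Ψ : Fin 10 → Fin 10 → F) : Prop where
  ve0 : ve ≠ 0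
  vf0 : vf ≠ 0
  vef : ve ≠ vf
  symm : ∀ k l, Ψ k l = Ψ l k
  nz : ∀ k l, padj k l = true → ¬ (k = A ∧ l = B ∨ k = B ∧ l = A) → Ψ k l ≠ 0
  cons : ∀ k, k ≠ W → k ≠ A → k ≠ B → Ψ k (nb k 0) + Ψ k (nb k 1) + Ψ k (nb k 2) = 0
  AB : Ψ A B = 0
  cA : ve + (Ψ A (nb A 0) + Ψ A (nb A 1) + Ψ A (nb A 2)) = 0
  cB : vf + (Ψ B (nb B 0) + Ψ B (nb B 1) + Ψ B (nb B 2)) = 0
  pW : Pat pW (ve + vf) (Ψ W (nb W 0)) (Ψ W (nb W 1)) (Ψ W (nb W 2))

/-- A cubic graph on `Fin n` given by a permutation (a 2-factor, oriented) and an involution (the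
complementary perfect matching); the conditions exclude cycles of length at most four. -/
structure Gi (n : ℕ) (p : Equiv.Perm (Fin n)) (m : Fin n → Fin n) : Prop where
  mm : ∀ v, m (m v) = v
  m0 : ∀ v, m v ≠ v
  p1 : ∀ v, p v ≠ v
  p2 : ∀ v, p (p v) ≠ v
  p3 : ∀ v, p (p (p v)) ≠ v
  p4 : ∀ v, p (p (p (p v))) ≠ v
  m1 : ∀ v, m v ≠ p v
  m2 : ∀ v, m v ≠ p (p v)
  m3 : ∀ v, m v ≠ p (p (p v))
  q1 : ∀ v, m (p v) ≠ p (m v)
  q2 : ∀ v, p (m (p v)) ≠ m v

/-- A proper colouring of the edges by three colours: `c v` is the colour of the edge joining `v`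
and `p v`, `d v` the colour of the edge joining `v` and `m v`. -/
def Col (n : ℕ) (p : Equiv.Perm (Fin n)) (m : Fin n → Fin n) : Prop :=
  ∃ c d : Fin n → Fin 3, ∀ v, d (m v) = d v ∧ c v ≠ c (p v) ∧ d v ≠ c v ∧ d (p v) ≠ c v

/-- The graph is the Petersen graph. -/
def Pet (n : ℕ) (p : Equiv.Perm (Fin n)) (m : Fin n → Fin n) : Prop :=
  ∃ κ : Fin n ≃ Fin 10, ∀ v, padj (κ v) (κ (p v)) = true ∧ padj (κ v) (κ (m v)) = true

end Pool.Agent.TH362.TF
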