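import Pool.Agent.TH362.TF.Nxt

set_option autoImplicit false

namespace Pool.Agent.TH362.TF.FinC

/-- lazy conjunction -/
def an (a b : Bool) : Bool := Bool.rec false b a

/-- lazy disjunction -/
def ro (a b : Bool) : Bool := Bool.rec b true a

/-- first nonzero value -/
def oe (a b : ℕ) : ℕ := Nat.rec b (fun n _ => Nat.succ n) a

/-- conditional with value `0` -/
def gd (a : Bool) (b : ℕ) : ℕ := Bool.rec 0 b a

/-- force the evaluation of a number -/
def fc {α : Type} (n : ℕ) (k : ℕ → α) : α := Nat.rec (k 0) (fun m _ => k (Nat.succ m)) n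

/-- continuation of the colouring search at the vertex `v` with the colour `d` of the chord -/
def nx (v : ℕ) (K : ℕ → ℕ → ℕ → ℕ) (c c0 W d : ℕ) : ℕ :=
  fc (3 - c - d) fun c' => fc (W + d * 3 ^ v + c' * 3 ^ (16 + v)) fun W' => K c' c0 W'

/-- the vertex `v` in the colouring search -/
def vx (M v : ℕ) (K : ℕ → ℕ → ℕ → ℕ) (c c0 W : ℕ) : ℕ :=
  fc (M / 16 ^ v % 16) fun mv =>
    Bool.rec
      (oe (nx v K c c0 W ((c + 1) % 3)) (nx v K c c0 W ((c + 2) % 3)))
      (fc (W / 3 ^ mv % 3) fun d => Bool.rec (nx v K c c0 W d) 0 (Nat.beq d c))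
      (Nat.ble (mv + 1) v)

/-- the colouring search: the list contains the vertices with a mark for the first vertex of a
cycle -/
noncomputable def fd (M : ℕ) (l : List (ℕ × Bool)) : ℕ → ℕ → ℕ → ℕ :=
  List.rec (motive := fun _ => ℕ → ℕ → ℕ → ℕ)
    (fun c c0 W => gd (Nat.beq c c0) (W + 3 ^ 32))
    (fun e _ K c c0 W => Bool.rec (vx M e.1 K c c0 W)
      (gd (Nat.beq c c0)
        (oe (vx M e.1 K 0 0 W) (oe (vx M e.1 K 1 1 W) (vx M e.1 K 2 2 W)))) e.2) l

/-- the check of a colouring -/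
noncomputable def ck (M W : ℕ) (l : List (ℕ × ℕ)) : Bool :=
  List.rec (motive := fun _ => Bool) true
    (fun e _ r =>
      fc (W / 3 ^ e.1 % 3) fun d => fc (W / 3 ^ (16 + e.1) % 3) fun c =>
        an (Nat.beq (W / 3 ^ (M / 16 ^ e.1 % 16) % 3) d)
        (an (Bool.rec true false (Nat.beq c (W / 3 ^ (16 + e.2) % 3)))
        (an (Bool.rec true false (Nat.beq d c))
        (an (Bool.rec true false (Nat.beq (W / 3 ^ e.2 % 3) c)) r)))) l

/-- a leaf of the enumeration -/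
noncomputable def lf (cl : List (ℕ × Bool)) (pl : List (ℕ × ℕ)) (M : ℕ) : Bool :=
  fc (fd M cl 0 0 0) fun W => ck M W pl

/-- conflict at the neighbour `x` -/
def cf (P U M x u pu : ℕ) : Bool :=
  an (Nat.beq (U / 2 ^ x % 2) 1)
    (fc (M / 16 ^ x % 16) fun y => ro (Nat.beq y pu) (Nat.beq (P / 16 ^ y % 16) u))

/-- the enumeration -/
noncomputable def en (cl : List (ℕ × Bool)) (pl : List (ℕ × ℕ)) (P : ℕ)
    (l : List ((ℕ × ℕ × ℕ) × List (ℕ × ℕ))) : ℕ → ℕ → Bool :=
  List.rec (motive := fun _ => ℕ → ℕ → Bool)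
    (fun _ M => lf cl pl M)
    (fun e _ K U M => Bool.rec
      (List.rec (motive := fun _ => Bool) true
        (fun u _ r => an (ro (Nat.beq (U / 2 ^ u.1 % 2) 1)
          (ro (cf P U M e.1.2.1 u.1 u.2) (ro (cf P U M e.1.2.2 u.1 u.2)
            (fc (U + 2 ^ e.1.1 + 2 ^ u.1) fun U' =>
              fc (M + u.1 * 16 ^ e.1.1 + e.1.1 * 16 ^ u.1) fun M' => K U' M')))) r) e.2)
      (K U M) (Nat.beq (U / 2 ^ e.1.1 % 2) 1)) l

end Pool.Agent.TH362.TF.FinC
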