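import Pool.Agent.TH362.TF.FinCE

set_option autoImplicit false

namespace Pool.Agent.TH362.TF.FinC

open Finset

theorem fc_eq {α : Type} (n : ℕ) (k : ℕ → α) : fc n k = k n := by cases n <;> rfl

theorem an_true {a b : Bool} : an a b = true ↔ a = true ∧ b = true := by
  cases a <;> cases b <;> simp [an]

theorem ro_true {a b : Bool} : ro a b = true ↔ a = true ∨ b = true := by
  cases a <;> cases b <;> simp [ro]

theorem nt_true {a : Bool} : (Bool.rec true false a : Bool) = true ↔ ¬ a = true := by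
  cases a <;> simp

/-- a number with given digits -/
def ec (b : ℕ) (a : ℕ → ℕ) (n : ℕ) : ℕ := ∑ i ∈ range n, a i * b ^ i

theorem ec_lt (b : ℕ) (a : ℕ → ℕ) (ha : ∀ i, a i < b) (n : ℕ) :
    ec b a n < b ^ n := by
  induction n with
  | zero => simp [ec]
  | succ n ih =>
    have h1 : ec b a (n + 1) = ec b a n + a n * b ^ n := by
      simp only [ec, sum_range_succ]
    have h2 : (a n + 1) * b ^ n ≤ b * b ^ n := Nat.mul_le_mul_right _ (ha n)
    rw [h1, pow_succ']
    rw [add_mul, one_mul] at h2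
    omega

theorem ec_dig (b : ℕ) (hb : 0 < b) (a : ℕ → ℕ) (ha : ∀ i, a i < b) (n w : ℕ) (hw : w < n) :
    ec b a n / b ^ w % b = a w := by
  induction n with
  | zero => omega
  | succ n ih =>
    have h1 : ec b a (n + 1) = ec b a n + a n * b ^ n := by
      simp only [ec, sum_range_succ]
    rw [h1]
    by_cases h : w < n
    · obtain ⟨k, rfl⟩ : ∃ k, n = w + (k + 1) := ⟨n - w - 1, by omega⟩
      have h2 : a (w + (k + 1)) * b ^ (w + (k + 1)) = b ^ w * (a (w + (k + 1)) * b ^ k * b) := by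
        ring
      rw [h2, Nat.add_mul_div_left _ _ (Nat.pow_pos hb), Nat.add_mul_mod_self_right, ih h]
    · have hwn : w = n := by omega
      subst hwn
      rw [Nat.add_mul_div_right _ _ (Nat.pow_pos hb), Nat.div_eq_of_lt (ec_lt b a ha w),
        zero_add, Nat.mod_eq_of_lt (ha w)]

theorem ec_upd (b : ℕ) (a a' : ℕ → ℕ) (n v u x y : ℕ) (hv : v < n) (hu : u < n)
    (h : ∀ i, a' i = a i + (if i = v then x else 0) + (if i = u then y else 0)) :
    ec b a' n = ec b a n + x * b ^ v + y * b ^ u := by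
  simp only [ec]
  rw [sum_congr rfl (fun i _ => by rw [h i, add_mul, add_mul]), sum_add_distrib, sum_add_distrib]
  congr 1
  · congr 1
    simp only [ite_mul, zero_mul]
    rw [sum_ite_eq' (range n) v, if_pos (mem_range.2 hv)]
  · simp only [ite_mul, zero_mul]
    rw [sum_ite_eq' (range n) u, if_pos (mem_range.2 hu)]

/-- the involution on the natural numbers -/
def mm (m : Fin 16 → Fin 16) (i : ℕ) : ℕ := if h : i < 16 then (m ⟨i, h⟩).val else 0

theorem mm_lt (m : Fin 16 → Fin 16) (i : ℕ) : mm m i < 16 := by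
  unfold mm
  split_ifs
  · exact (m _).isLt
  · omega

theorem mm_fin (m : Fin 16 → Fin 16) (i : Fin 16) : mm m i.val = (m i).val := by
  unfold mm
  rw [dif_pos i.isLt]

/-- digits of the set -/
def aU (s : ℕ → Bool) (i : ℕ) : ℕ := if s i = true then 1 else 0

/-- digits of the partial involution -/
def aM (m : Fin 16 → Fin 16) (s : ℕ → Bool) (i : ℕ) : ℕ := if s i = true then mm m i else 0

theorem aU_lt (s : ℕ → Bool) (i : ℕ) : aU s i < 2 := by
  unfold aU; split_ifs <;> omega

theorem aM_lt (m : Fin 16 → Fin 16) (s : ℕ → Bool) (i : ℕ) : aM m s i < 16 := by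
  unfold aM
  split_ifs
  · exact mm_lt m i
  · omega

theorem bit_iff (s : ℕ → Bool) (w : ℕ) (hw : w < 16) :
    Nat.beq (ec 2 (aU s) 16 / 2 ^ w % 2) 1 = true ↔ s w = true := by
  rw [ec_dig 2 (by omega) (aU s) (aU_lt s) 16 w hw, Nat.beq_eq]
  unfold aU
  split_ifs with h
  · simp [h]
  · simp [h]

theorem ck_sound (M W : ℕ) (l : List (ℕ × ℕ)) (h : ck M W l = true) :
    ∀ e ∈ l, W / 3 ^ (M / 16 ^ e.1 % 16) % 3 = W / 3 ^ e.1 % 3 ∧
      W / 3 ^ (16 + e.1) % 3 ≠ W / 3 ^ (16 + e.2) % 3 ∧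
      W / 3 ^ e.1 % 3 ≠ W / 3 ^ (16 + e.1) % 3 ∧
      W / 3 ^ e.2 % 3 ≠ W / 3 ^ (16 + e.1) % 3 := by
  induction l with
  | nil => intro e he; cases he
  | cons a l ih =>
    have h' : fc (W / 3 ^ a.1 % 3) (fun d => fc (W / 3 ^ (16 + a.1) % 3) fun c =>
        an (Nat.beq (W / 3 ^ (M / 16 ^ a.1 % 16) % 3) d)
        (an (Bool.rec true false (Nat.beq c (W / 3 ^ (16 + a.2) % 3)))
        (an (Bool.rec true false (Nat.beq d c))
        (an (Bool.rec true false (Nat.beq (W / 3 ^ a.2 % 3) c)) (ck M W l))))) = true := h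
    rw [fc_eq, fc_eq, an_true, an_true, an_true, an_true, nt_true, nt_true, nt_true, Nat.beq_eq,
      Nat.beq_eq, Nat.beq_eq, Nat.beq_eq] at h'
    obtain ⟨h1, h2, h3, h4, h5⟩ := h'
    intro e he
    rcases List.mem_cons.1 he with rfl | he
    · exact ⟨h1, h2, h3, h4⟩
    · exact ih h5 e he

theorem lf_sound (p : Equiv.Perm (Fin 16)) (m : Fin 16 → Fin 16) (cl : List (ℕ × Bool))
    (pl : List (ℕ × ℕ)) (hpl : ∀ v : Fin 16, (v.val, (p v).val) ∈ pl) (M : ℕ)
    (hM : M = ec 16 (mm m) 16) (h : lf cl pl M = true) : Col 16 p m := by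
  have h' : fc (fd M cl 0 0 0) (fun W => ck M W pl) = true := h
  rw [fc_eq] at h'
  set W := fd M cl 0 0 0
  have h1 := ck_sound M W pl h'
  refine ⟨fun v => ⟨W / 3 ^ (16 + v.val) % 3, Nat.mod_lt _ (by omega)⟩,
    fun v => ⟨W / 3 ^ v.val % 3, Nat.mod_lt _ (by omega)⟩, fun v => ?_⟩
  obtain ⟨e1, e2, e3, e4⟩ := h1 _ (hpl v)
  simp only at e1 e2 e3 e4
  rw [hM, ec_dig 16 (by omega) (mm m) (mm_lt m) 16 v.val v.isLt, mm_fin] at e1
  refine ⟨?_, ?_, ?_, ?_⟩
  · exact Fin.ext e1
  · intro h; exact e2 (congrArg Fin.val h)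
  · intro h; exact e3 (congrArg Fin.val h)
  · intro h; exact e4 (congrArg Fin.val h)

/-- the chord `v u` is possible -/
def al (pn : ℕ → ℕ) (v u : ℕ) : Prop :=
  u ≠ v ∧ u ≠ pn v ∧ u ≠ pn (pn v) ∧ u ≠ pn (pn (pn v)) ∧
    v ≠ pn u ∧ v ≠ pn (pn u) ∧ v ≠ pn (pn (pn u))

instance (pn : ℕ → ℕ) (v u : ℕ) : Decidable (al pn v u) := by unfold al; infer_instance

/-- validity of an entry -/
def ve (pn : ℕ → ℕ) (e : (ℕ × ℕ × ℕ) × List (ℕ × ℕ)) (es : List ℕ) : Prop :=
  e.1.1 < 16 ∧ e.1.2.1 = pn e.1.1 ∧ e.1.2.2 < 16 ∧ pn e.1.2.2 = e.1.1 ∧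
    ∀ u < 16, al pn e.1.1 u → (u, pn u) ∈ e.2 ∨ u ∉ es

instance (pn : ℕ → ℕ) (e : (ℕ × ℕ × ℕ) × List (ℕ × ℕ)) (es : List ℕ) :
    Decidable (ve pn e es) := by unfold ve; infer_instance

/-- validity of the list of the entries -/
def vd (pn : ℕ → ℕ) : List ((ℕ × ℕ × ℕ) × List (ℕ × ℕ)) → Prop
  | [] => True
  | e :: es => ve pn e (es.map (fun x => x.1.1)) ∧ vd pn es

instance dvd (pn : ℕ → ℕ) : ∀ l, Decidable (vd pn l)
  | [] => by unfold vd; infer_instance
  | e :: es => by
    unfold vd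
    have := dvd pn es
    infer_instance

theorem al_of (p : Equiv.Perm (Fin 16)) (m : Fin 16 → Fin 16) (g : Gi 16 p m) (pn : ℕ → ℕ)
    (hpn : ∀ v : Fin 16, (p v).val = pn v.val) (v : Fin 16) : al pn v.val (m v).val := by
  have h2 : ∀ v : Fin 16, (p (p v)).val = pn (pn v.val) := fun v => by rw [hpn, hpn]
  have h3 : ∀ v : Fin 16, (p (p (p v))).val = pn (pn (pn v.val)) := fun v => by
    rw [hpn, hpn, hpn]
  refine ⟨?_, ?_, ?_, ?_, ?_, ?_, ?_⟩
  · intro h; exact g.m0 v (Fin.ext h)
  · rw [← hpn]; intro h; exact g.m1 v (Fin.ext h)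
  · rw [← h2]; intro h; exact g.m2 v (Fin.ext h)
  · rw [← h3]; intro h; exact g.m3 v (Fin.ext h)
  · rw [← hpn]; intro h
    exact g.m1 (m v) (by rw [g.mm]; exact Fin.ext h)
  · rw [← h2]; intro h
    exact g.m2 (m v) (by rw [g.mm]; exact Fin.ext h)
  · rw [← h3]; intro h
    exact g.m3 (m v) (by rw [g.mm]; exact Fin.ext h)

theorem cf_false (p : Equiv.Perm (Fin 16)) (m : Fin 16 → Fin 16) (g : Gi 16 p m) (P : ℕ)
    (hP : ∀ y : Fin 16, P / 16 ^ y.val % 16 = (p y).val) (s : ℕ → Bool) (v x : Fin 16)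
    (hx : x = p v ∨ p x = v) :
    ¬ cf P (ec 2 (aU s) 16) (ec 16 (aM m s) 16) x.val (m v).val (p (m v)).val = true := by
  intro h
  have h' : an (Nat.beq (ec 2 (aU s) 16 / 2 ^ x.val % 2) 1)
    (fc (ec 16 (aM m s) 16 / 16 ^ x.val % 16) fun y =>
      ro (Nat.beq y (p (m v)).val) (Nat.beq (P / 16 ^ y % 16) (m v).val)) = true := h
  rw [an_true, fc_eq, ro_true, bit_iff s x.val x.isLt,
    ec_dig 16 (by omega) (aM m s) (aM_lt m s) 16 x.val x.isLt] at h'
  obtain ⟨h1, h2⟩ := h'
  have h3 : aM m s x.val = (m x).val := by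
    unfold aM
    rw [if_pos h1, mm_fin]
  rw [h3, hP, Nat.beq_eq, Nat.beq_eq] at h2
  rcases h2 with h2 | h2
  · have h4 : m x = p (m v) := Fin.ext h2
    rcases hx with hx | hx
    · rw [hx] at h4; exact g.q1 v h4
    · rw [← hx] at h4; exact g.q2 x h4.symm
  · have h4 : p (m x) = m v := Fin.ext h2
    rcases hx with hx | hx
    · rw [hx] at h4; exact g.q2 v h4
    · rw [← hx] at h4; exact g.q1 x h4.symm

theorem en_sound (p : Equiv.Perm (Fin 16)) (m : Fin 16 → Fin 16) (g : Gi 16 p m)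
    (cl : List (ℕ × Bool)) (pl : List (ℕ × ℕ)) (P : ℕ) (pn : ℕ → ℕ)
    (hpn : ∀ v : Fin 16, (p v).val = pn v.val)
    (hpl : ∀ v : Fin 16, (v.val, (p v).val) ∈ pl)
    (hP : ∀ y : Fin 16, P / 16 ^ y.val % 16 = (p y).val) :
    ∀ (l : List ((ℕ × ℕ × ℕ) × List (ℕ × ℕ))) (s : ℕ → Bool),
      (∀ w : Fin 16, s w.val = true → s (m w).val = true) →
      (∀ w : Fin 16, s w.val = true ∨ w.val ∈ l.map (fun x => x.1.1)) →
      vd pn l →
      en cl pl P l (ec 2 (aU s) 16) (ec 16 (aM m s) 16) = true → Col 16 p m := by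
  intro l
  induction l with
  | nil =>
    intro s _ h2 _ h
    have h' : lf cl pl (ec 16 (aM m s) 16) = true := h
    refine lf_sound p m cl pl hpl _ ?_ h'
    simp only [ec]
    refine sum_congr rfl fun i hi => ?_
    have hi' : i < 16 := mem_range.1 hi
    have := h2 ⟨i, hi'⟩
    simp only [List.map_nil, List.not_mem_nil, or_false] at this
    unfold aM
    rw [if_pos this]
  | cons e es ih =>
    intro s h1 h2 h3 h
    obtain ⟨⟨v1, v2, v3, v4, v5⟩, h3'⟩ := h3
    set v : Fin 16 := ⟨e.1.1, v1⟩ with hv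
    have hvv : v.val = e.1.1 := rfl
    have h' : (Bool.rec
      (List.rec (motive := fun _ => Bool) true
        (fun u _ r => an (ro (Nat.beq (ec 2 (aU s) 16 / 2 ^ u.1 % 2) 1)
          (ro (cf P (ec 2 (aU s) 16) (ec 16 (aM m s) 16) e.1.2.1 u.1 u.2)
            (ro (cf P (ec 2 (aU s) 16) (ec 16 (aM m s) 16) e.1.2.2 u.1 u.2)
            (fc (ec 2 (aU s) 16 + 2 ^ e.1.1 + 2 ^ u.1) fun U' =>
              fc (ec 16 (aM m s) 16 + u.1 * 16 ^ e.1.1 + e.1.1 * 16 ^ u.1) fun M' =>
                en cl pl P es U' M')))) r) e.2)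
      (en cl pl P es (ec 2 (aU s) 16) (ec 16 (aM m s) 16))
      (Nat.beq (ec 2 (aU s) 16 / 2 ^ e.1.1 % 2) 1) : Bool) = true := h
    by_cases hs : s e.1.1 = true
    · have hb := (bit_iff s e.1.1 v1).2 hs
      rw [hb] at h'
      refine ih s h1 ?_ h3' h'
      intro w
      rcases h2 w with h4 | h4
      · exact Or.inl h4
      · rw [List.map_cons, List.mem_cons] at h4
        rcases h4 with h4 | h4
        · left; rw [h4]; exact hs
        · exact Or.inr h4
    · have hb : Nat.beq (ec 2 (aU s) 16 / 2 ^ e.1.1 % 2) 1 = false := by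
        rw [← Bool.not_eq_true, bit_iff s e.1.1 v1]
        exact hs
      rw [hb] at h'
      have hsu : ¬ s (m v).val = true := by
        intro h4
        have := h1 (m v) h4
        rw [g.mm] at this
        exact hs this
      have hal := al_of p m g pn hpn v
      have hmem : ((m v).val, pn (m v).val) ∈ e.2 := by
        rcases v5 (m v).val (m v).isLt hal with h4 | h4
        · exact h4
        · exfalso
          rcases h2 (m v) with h5 | h5
          · exact hsu h5
          · rw [List.map_cons, List.mem_cons] at h5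
            rcases h5 with h5 | h5
            · exact hal.1 h5
            · exact h4 h5
      have hall : ∀ c : List (ℕ × ℕ), (List.rec (motive := fun _ => Bool) true
        (fun u _ r => an (ro (Nat.beq (ec 2 (aU s) 16 / 2 ^ u.1 % 2) 1)
          (ro (cf P (ec 2 (aU s) 16) (ec 16 (aM m s) 16) e.1.2.1 u.1 u.2)
            (ro (cf P (ec 2 (aU s) 16) (ec 16 (aM m s) 16) e.1.2.2 u.1 u.2)
            (fc (ec 2 (aU s) 16 + 2 ^ e.1.1 + 2 ^ u.1) fun U' =>
              fc (ec 16 (aM m s) 16 + u.1 * 16 ^ e.1.1 + e.1.1 * 16 ^ u.1) fun M' =>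
                en cl pl P es U' M')))) r) c : Bool) = true → ∀ u ∈ c,
          (Nat.beq (ec 2 (aU s) 16 / 2 ^ u.1 % 2) 1 = true ∨
          cf P (ec 2 (aU s) 16) (ec 16 (aM m s) 16) e.1.2.1 u.1 u.2 = true ∨
          cf P (ec 2 (aU s) 16) (ec 16 (aM m s) 16) e.1.2.2 u.1 u.2 = true ∨
          en cl pl P es (ec 2 (aU s) 16 + 2 ^ e.1.1 + 2 ^ u.1)
            (ec 16 (aM m s) 16 + u.1 * 16 ^ e.1.1 + e.1.1 * 16 ^ u.1) = true) := by
        intro c
        induction c with
        | nil => intro _ u hu; cases hu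
        | cons a c ihc =>
          intro hh u hu
          have hh' := an_true.1 hh
          rcases List.mem_cons.1 hu with rfl | hu
          · have h6 := hh'.1
            rw [ro_true, ro_true, ro_true, fc_eq, fc_eq] at h6
            exact h6
          · exact ihc hh'.2 u hu
      have hkey := hall e.2 h' _ hmem
      simp only at hkey
      have hpm : pn (m v).val = (p (m v)).val := (hpn _).symm
      rcases hkey with h4 | h4 | h4 | h4
      · exact absurd ((bit_iff s _ (m v).isLt).1 h4) hsu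
      · exfalso
        rw [v2, ← hvv, ← hpn, hpm] at h4
        exact cf_false p m g P hP s v (p v) (Or.inl rfl) h4
      · exfalso
        rw [hpm] at h4
        refine cf_false p m g P hP s v ⟨e.1.2.2, v3⟩ (Or.inr ?_) h4
        apply Fin.ext
        rw [hpn]
        exact v4
      · set s' : ℕ → Bool := fun i => s i || (decide (i = e.1.1) || decide (i = (m v).val))
          with hs'
        have hne : (m v).val ≠ e.1.1 := hal.1
        have hU : ec 2 (aU s') 16 = ec 2 (aU s) 16 + 2 ^ e.1.1 + 2 ^ (m v).val := by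
          have := ec_upd 2 (aU s) (aU s') 16 e.1.1 (m v).val 1 1 v1 (m v).isLt (by
            intro i
            by_cases hi1 : i = e.1.1
            · subst hi1
              simp [aU, hs', hs, Ne.symm hne]
            · by_cases hi2 : i = (m v).val
              · subst hi2
                simp [aU, hs', hsu, hne]
              · simp [aU, hs', hi1, hi2])
          rw [this, one_mul, one_mul]
        have hmv : mm m (m v).val = e.1.1 := by rw [mm_fin, g.mm]
        have hmv2 : mm m e.1.1 = (m v).val := mm_fin m v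
        have hM : ec 16 (aM m s') 16 =
            ec 16 (aM m s) 16 + (m v).val * 16 ^ e.1.1 + e.1.1 * 16 ^ (m v).val := by
          refine ec_upd 16 (aM m s) (aM m s') 16 e.1.1 (m v).val _ _ v1 (m v).isLt ?_
          intro i
          by_cases hi1 : i = e.1.1
          · subst hi1
            simp [aM, hs', hs, Ne.symm hne, hmv2]
          · by_cases hi2 : i = (m v).val
            · subst hi2
              simp [aM, hs', hsu, hne, hmv]
            · simp [aM, hs', hi1, hi2]
        rw [← hU, ← hM] at h4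
        refine ih s' ?_ ?_ h3' h4
        · intro w hw
          simp only [hs', Bool.or_eq_true, decide_eq_true_eq] at hw ⊢
          rcases hw with hw | hw | hw
          · exact Or.inl (h1 w hw)
          · right; right
            have : w = v := Fin.ext hw
            rw [this]
          · right; left
            have : w = m v := Fin.ext hw
            rw [this, g.mm]
        · intro w
          simp only [hs', Bool.or_eq_true, decide_eq_true_eq]
          rcases h2 w with h5 | h5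
          · exact Or.inl (Or.inl h5)
          · rw [List.map_cons, List.mem_cons] at h5
            rcases h5 with h5 | h5
            · left; right; left; exact h5
            · exact Or.inr h5

end Pool.Agent.TH362.TF.FinC
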