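import Pool.Agent.TH362.TF.Stm
import Pool.Agent.TH362.TF.Basic

/-!
The cuts of the classes in the situation `Sit`, and their consequences.
-/

set_option autoImplicit false

namespace Pool.Agent.TH362.TF

open Finset

variable {V E : Type} [Fintype V] [DecidableEq V] [DecidableEq E]

namespace StrB

theorem nb_ne : ∀ (k : Fin 10) (j : Fin 3), nb k j ≠ k := by decide

theorem nb_inj : ∀ (k : Fin 10) (i j : Fin 3), nb k i = nb k j → i = j := by decide

theorem padj_nb : ∀ (k : Fin 10) (j : Fin 3), padj k (nb k j) = true := by decide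

theorem padj_ex : ∀ (k l : Fin 10), padj k l = true → ∃ j : Fin 3, nb k j = l := by decide

theorem padj_symm : ∀ (k l : Fin 10), padj k l = true → padj l k = true := by decide

theorem padj_irr : ∀ (k : Fin 10), padj k k = false := by decide

theorem card_two : ∀ (k l : Fin 10), padj k l = true →
    ((univ : Finset (Fin 3)).filter (fun j => nb k j ≠ l)).card = 2 := by decide

/-- the pair is the missing one -/
def Mis (A B k l : Fin 10) : Prop := k = A ∧ l = B ∨ k = B ∧ l = A

instance (A B k l : Fin 10) : Decidable (Mis A B k l) := by unfold Mis; infer_instance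

theorem ends_cls {s t : E → V} {κ : V → Fin 10} {u v : V} {x : E} (h : Ends s t u v x) :
    Joins κ s t (κ u) (κ v) x := by
  rcases h with ⟨h1, h2⟩ | ⟨h1, h2⟩
  · exact Or.inl ⟨by rw [h1], by rw [h2]⟩
  · exact Or.inr ⟨by rw [h1], by rw [h2]⟩

theorem joins_cut {s t : E → V} {κ : V → Fin 10} {k l m : Fin 10} {x : E} (hkl : k ≠ l)
    (h : Joins κ s t k l x) :
    decide (κ (s x) = m) ≠ decide (κ (t x) = m) ↔ m = k ∨ m = l := by
  rcases h with ⟨h1, h2⟩ | ⟨h1, h2⟩
  · rw [h1, h2]
    constructor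
    · intro h
      by_contra hc
      push Not at hc
      exact h (by simp [hc.1.symm, hc.2.symm])
    · rintro (rfl | rfl)
      · simp [hkl.symm]
      · simp [hkl]
  · rw [h1, h2]
    constructor
    · intro h
      by_contra hc
      push Not at hc
      exact h (by simp [hc.1.symm, hc.2.symm])
    · rintro (rfl | rfl)
      · simp [hkl.symm]
      · simp [hkl]

theorem joins_of_cut {s t : E → V} {κ : V → Fin 10} {k : Fin 10} {x : E}
    (h : decide (κ (s x) = k) ≠ decide (κ (t x) = k)) : ∃ l, k ≠ l ∧ Joins κ s t k l x := by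
  by_cases h1 : κ (s x) = k
  · refine ⟨κ (t x), fun h2 => h ?_, Or.inl ⟨h1, rfl⟩⟩
    rw [h1, ← h2]
  · by_cases h2 : κ (t x) = k
    · exact ⟨κ (s x), fun h3 => h1 h3.symm, Or.inr ⟨rfl, h2⟩⟩
    · exact absurd (by simp [h1, h2]) h

theorem joins_uniq {s t : E → V} {κ : V → Fin 10} {k l l' : Fin 10} {x : E}
    (hl : k ≠ l) (hl' : k ≠ l') (h : Joins κ s t k l x) (h' : Joins κ s t k l' x) : l = l' := by
  rcases h with ⟨h1, h2⟩ | ⟨h1, h2⟩ <;> rcases h' with ⟨h3, h4⟩ | ⟨h3, h4⟩
  · rw [← h2, ← h4]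
  · exact absurd (h1.symm.trans h3) hl'
  · exact absurd (h1.symm.trans h3) hl.symm
  · rw [← h1, ← h3]

theorem mem_cut {s t : E → V} {S : Finset E} {e f : E} {w a b : V} {κ : V → Fin 10}
    {ρ : Fin 10 → Fin 10 → E} (q : Sit s t S e f w a b κ ρ) (k : Fin 10) (x : E) :
    x ∈ cut s t S (fun v => decide (κ v = k)) ↔
      (x = e ∧ (k = κ w ∨ k = κ a)) ∨ (x = f ∧ (k = κ w ∨ k = κ b)) ∨
        ∃ j : Fin 3, ¬ Mis (κ a) (κ b) k (nb k j) ∧ x = ρ k (nb k j) := by
  have he := ends_cls (κ := κ) q.he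
  have hf := ends_cls (κ := κ) q.hf
  simp only [cut, Finset.mem_filter]
  constructor
  · rintro ⟨hxS, hx⟩
    by_cases hxe : x = e
    · subst hxe
      exact Or.inl ⟨rfl, (joins_cut q.wa he).1 hx⟩
    by_cases hxf : x = f
    · subst hxf
      exact Or.inr (Or.inl ⟨rfl, (joins_cut q.wb hf).1 hx⟩)
    obtain ⟨l, hkl, hj⟩ := joins_of_cut hx
    obtain ⟨h1, h2, h3⟩ := q.only x hxS hxe hxf k l hkl hj
    obtain ⟨j, rfl⟩ := padj_ex k l h1
    exact Or.inr (Or.inr ⟨j, h2, h3⟩)
  · rintro (⟨rfl, h⟩ | ⟨rfl, h⟩ | ⟨j, hj, rfl⟩)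
    · exact ⟨q.eS, (joins_cut q.wa he).2 h⟩
    · exact ⟨q.fS, (joins_cut q.wb hf).2 h⟩
    · obtain ⟨h1, _, _, h4⟩ := q.mem k (nb k j) (padj_nb k j) hj
      exact ⟨h1, (joins_cut (nb_ne k j).symm h4).2 (Or.inl rfl)⟩

theorem rho_inj {s t : E → V} {S : Finset E} {e f : E} {w a b : V} {κ : V → Fin 10}
    {ρ : Fin 10 → Fin 10 → E} (q : Sit s t S e f w a b κ ρ) (k : Fin 10) {i j : Fin 3}
    (hi : ¬ Mis (κ a) (κ b) k (nb k i)) (hj : ¬ Mis (κ a) (κ b) k (nb k j))
    (h : ρ k (nb k i) = ρ k (nb k j)) : i = j := by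
  obtain ⟨_, _, _, h1⟩ := q.mem k (nb k i) (padj_nb k i) hi
  obtain ⟨_, _, _, h2⟩ := q.mem k (nb k j) (padj_nb k j) hj
  rw [h] at h1
  exact nb_inj k i j (joins_uniq (nb_ne k i).symm (nb_ne k j).symm h1 h2)

theorem cut_card {s t : E → V} {S : Finset E} {e f : E} {w a b : V} {κ : V → Fin 10}
    {ρ : Fin 10 → Fin 10 → E} (q : Sit s t S e f w a b κ ρ) (k : Fin 10) :
    (cut s t S (fun v => decide (κ v = k))).card =
      (if k = κ w ∨ k = κ a then 1 else 0) + ((if k = κ w ∨ k = κ b then 1 else 0) +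
        ((univ : Finset (Fin 3)).filter (fun j => ¬ Mis (κ a) (κ b) k (nb k j))).card) := by
  have h1 : cut s t S (fun v => decide (κ v = k)) =
      (if k = κ w ∨ k = κ a then {e} else ∅) ∪ ((if k = κ w ∨ k = κ b then {f} else ∅) ∪
        ((univ : Finset (Fin 3)).filter (fun j => ¬ Mis (κ a) (κ b) k (nb k j))).image
          (fun j => ρ k (nb k j))) := by
    ext x
    rw [mem_cut q]
    simp only [Finset.mem_union, Finset.mem_image, Finset.mem_filter, Finset.mem_univ, true_and]
    constructor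
    · rintro (⟨rfl, h⟩ | ⟨rfl, h⟩ | ⟨j, hj, rfl⟩)
      · left; rw [if_pos h]; exact Finset.mem_singleton_self _
      · right; left; rw [if_pos h]; exact Finset.mem_singleton_self _
      · right; right; exact ⟨j, hj, rfl⟩
    · rintro (h | h | ⟨j, hj, rfl⟩)
      · left
        by_cases h2 : k = κ w ∨ k = κ a
        · rw [if_pos h2, Finset.mem_singleton] at h
          exact ⟨h, h2⟩
        · rw [if_neg h2] at h
          exact absurd h (Finset.notMem_empty _)
      · right; left
        by_cases h2 : k = κ w ∨ k = κ b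
        · rw [if_pos h2, Finset.mem_singleton] at h
          exact ⟨h, h2⟩
        · rw [if_neg h2] at h
          exact absurd h (Finset.notMem_empty _)
      · right; right; exact ⟨j, hj, rfl⟩
  rw [h1]
  have hA : ∀ x, x ∈ (if k = κ w ∨ k = κ a then ({e} : Finset E) else ∅) → x = e := by
    intro x hx
    split_ifs at hx
    · exact Finset.mem_singleton.1 hx
    · exact absurd hx (Finset.notMem_empty _)
  have hB : ∀ x, x ∈ (if k = κ w ∨ k = κ b then ({f} : Finset E) else ∅) → x = f := by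
    intro x hx
    split_ifs at hx
    · exact Finset.mem_singleton.1 hx
    · exact absurd hx (Finset.notMem_empty _)
  have hC : ∀ x, x ∈ ((univ : Finset (Fin 3)).filter
      (fun j => ¬ Mis (κ a) (κ b) k (nb k j))).image (fun j => ρ k (nb k j)) → x ≠ e ∧ x ≠ f := by
    intro x hx
    obtain ⟨j, hj, rfl⟩ := Finset.mem_image.1 hx
    rw [Finset.mem_filter] at hj
    obtain ⟨_, h2, h3, _⟩ := q.mem k (nb k j) (padj_nb k j) hj.2
    exact ⟨h2, h3⟩
  rw [Finset.card_union_of_disjoint, Finset.card_union_of_disjoint, Finset.card_image_of_injOn]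
  · congr 1
    · split_ifs <;> simp
    · congr 1
      split_ifs <;> simp
  · intro i hi j hj hij
    rw [Finset.mem_coe, Finset.mem_filter] at hi hj
    exact rho_inj q k hi.2 hj.2 hij
  · rw [Finset.disjoint_left]
    intro x hx hx'
    exact (hC x hx').2 (hB x hx)
  · rw [Finset.disjoint_left]
    intro x hx hx'
    rcases Finset.mem_union.1 hx' with h | h
    · exact q.ef ((hA x hx).symm.trans (hB x h))
    · exact (hC x h).1 (hA x hx)

theorem cut_odd {s t : E → V} {S : Finset E} {e f : E} {w a b : V} {κ : V → Fin 10}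
    {ρ : Fin 10 → Fin 10 → E} (q : Sit s t S e f w a b κ ρ) (k : Fin 10) :
    (cut s t S (fun v => decide (κ v = k))).card % 2 = 1 := by
  rw [cut_card q]
  have hwa := q.wa
  have hwb := q.wb
  have hab := q.ab
  generalize κ w = W at *
  generalize κ a = A at *
  generalize κ b = B at *
  by_cases hkA : k = A
  · subst hkA
    by_cases hkB : k = B
    · subst hkB
      have h1 : (univ : Finset (Fin 3)).filter (fun j => ¬ Mis k k k (nb k j)) = univ := by
        refine Finset.filter_true_of_mem fun j _ => ?_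
        rintro (⟨_, h⟩ | ⟨_, h⟩) <;> exact nb_ne k j h
      rw [h1, if_pos (Or.inr rfl), Finset.card_univ, Fintype.card_fin]
    · have hp : padj k B = true := by
        rcases hab with h | h
        · exact absurd h hkB
        · exact h
      have h1 : (univ : Finset (Fin 3)).filter (fun j => ¬ Mis k B k (nb k j)) =
          univ.filter (fun j => nb k j ≠ B) := by
        refine Finset.filter_congr fun j _ => ?_
        constructor
        · intro h h2
          exact h (Or.inl ⟨rfl, h2⟩)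
        · rintro h (⟨_, h2⟩ | ⟨h2, _⟩)
          · exact h h2
          · exact hkB h2
      rw [h1, card_two k B hp, if_pos (Or.inr rfl), if_neg]
      rintro (h | h)
      · exact hwa h.symm
      · exact hkB h
  · by_cases hkB : k = B
    · subst hkB
      have hp : padj A k = true := by
        rcases hab with h | h
        · exact absurd h.symm hkA
        · exact h
      have h1 : (univ : Finset (Fin 3)).filter (fun j => ¬ Mis A k k (nb k j)) =
          univ.filter (fun j => nb k j ≠ A) := by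
        refine Finset.filter_congr fun j _ => ?_
        constructor
        · intro h h2
          exact h (Or.inr ⟨rfl, h2⟩)
        · rintro h (⟨h2, _⟩ | ⟨_, h2⟩)
          · exact hkA h2
          · exact h h2
      rw [h1, card_two k A (padj_symm _ _ hp), if_neg, if_pos (Or.inr rfl)]
      rintro (h | h)
      · exact hwb h.symm
      · exact hkA h
    · have h1 : (univ : Finset (Fin 3)).filter (fun j => ¬ Mis A B k (nb k j)) = univ := by
        refine Finset.filter_true_of_mem fun j _ => ?_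
        rintro (⟨h, _⟩ | ⟨h, _⟩)
        · exact hkA h
        · exact hkB h
      rw [h1, Finset.card_univ, Fintype.card_fin]
      by_cases hkW : k = W
      · rw [if_pos (Or.inl hkW), if_pos (Or.inl hkW)]
      · rw [if_neg, if_neg]
        · rintro (h | h)
          · exact hkW h
          · exact hkB h
        · rintro (h | h)
          · exact hkW h
          · exact hkA h

theorem sum_five {e f x0 x1 x2 : E} (hef : e ≠ f) (h0e : x0 ≠ e) (h0f : x0 ≠ f) (h1e : x1 ≠ e)
    (h1f : x1 ≠ f) (h2e : x2 ≠ e) (h2f : x2 ≠ f) (h01 : x0 ≠ x1) (h02 : x0 ≠ x2) (h12 : x1 ≠ x2)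
    (φ : E → F) :
    ∑ x ∈ ({e, f, x0, x1, x2} : Finset E), φ x = (φ e + φ f) + (φ x0 + φ x1 + φ x2) := by
  rw [Finset.sum_insert, Finset.sum_insert, Finset.sum_insert, Finset.sum_insert,
    Finset.sum_singleton]
  · simp only [add_assoc]
  · simpa using h12
  · simp [h01, h02]
  · simp [h0f.symm, h1f.symm, h2f.symm]
  · simp [hef, h0e.symm, h1e.symm, h2e.symm]

theorem sum_cut {s t : E → V} {S : Finset E} {e f : E} {w a b : V}
    {κ : V → Fin 10} {ρ : Fin 10 → Fin 10 → E} (q : Sit s t S e f w a b κ ρ) {φ : E → F}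
    (k : Fin 10) (hk : ∀ j, ¬ Mis (κ a) (κ b) k (nb k j))
    (hc : cut s t S (fun v => decide (κ v = k)) =
      {e, f, ρ k (nb k 0), ρ k (nb k 1), ρ k (nb k 2)})
    (i : Inn s t S κ k φ) : (φ e + φ f) + (φ (ρ k (nb k 0)) +
      φ (ρ k (nb k 1)) + φ (ρ k (nb k 2))) = 0 := by
  have h1 := flow_cut (s := s) (t := t) (S := S) (φ := φ) (fun v => decide (κ v = k))
    (fun v hv => i.2 v (by simpa using hv))
  rw [hc] at h1
  have hm := fun j => q.mem k (nb k j) (padj_nb k j) (hk j)
  rwa [sum_five q.ef (hm 0).2.1 (hm 0).2.2.1 (hm 1).2.1 (hm 1).2.2.1 (hm 2).2.1 (hm 2).2.2.1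
    (fun h => absurd (rho_inj q k (hk 0) (hk 1) h) (by decide))
    (fun h => absurd (rho_inj q k (hk 0) (hk 2) h) (by decide))
    (fun h => absurd (rho_inj q k (hk 1) (hk 2) h) (by decide))] at h1

end StrB

open StrB

/-- the cut of the class of `w` -/
theorem Sit.cutW {s t : E → V} {S : Finset E} {e f : E} {w a b : V}
    {κ : V → Fin 10} {ρ : Fin 10 → Fin 10 → E} (q : Sit s t S e f w a b κ ρ) :
    cut s t S (fun v => decide (κ v = κ w)) =
      {e, f, ρ (κ w) (nb (κ w) 0), ρ (κ w) (nb (κ w) 1), ρ (κ w) (nb (κ w) 2)} := by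
  have hk : ∀ j, ¬ Mis (κ a) (κ b) (κ w) (nb (κ w) j) := by
    rintro j (⟨h, _⟩ | ⟨h, _⟩)
    · exact q.wa h
    · exact q.wb h
  ext x
  rw [mem_cut q]
  simp only [Finset.mem_insert, Finset.mem_singleton]
  constructor
  · rintro (⟨rfl, _⟩ | ⟨rfl, _⟩ | ⟨j, _, rfl⟩)
    · exact Or.inl rfl
    · exact Or.inr (Or.inl rfl)
    · right; right
      fin_cases j
      · exact Or.inl rfl
      · exact Or.inr (Or.inl rfl)
      · exact Or.inr (Or.inr rfl)
  · rintro (rfl | rfl | rfl | rfl | rfl)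
    · exact Or.inl ⟨rfl, Or.inl trivial⟩
    · exact Or.inr (Or.inl ⟨rfl, Or.inl trivial⟩)
    · exact Or.inr (Or.inr ⟨0, hk 0, rfl⟩)
    · exact Or.inr (Or.inr ⟨1, hk 1, rfl⟩)
    · exact Or.inr (Or.inr ⟨2, hk 2, rfl⟩)

/-- the cut of the class of `a`, if it is also the class of `b` -/
theorem Sit.cutA {s t : E → V} {S : Finset E} {e f : E} {w a b : V}
    {κ : V → Fin 10} {ρ : Fin 10 → Fin 10 → E} (q : Sit s t S e f w a b κ ρ) (hab : κ a = κ b) :
    cut s t S (fun v => decide (κ v = κ a)) =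
      {e, f, ρ (κ a) (nb (κ a) 0), ρ (κ a) (nb (κ a) 1), ρ (κ a) (nb (κ a) 2)} := by
  have hk : ∀ j, ¬ Mis (κ a) (κ b) (κ a) (nb (κ a) j) := by
    rintro j (⟨_, h⟩ | ⟨_, h⟩)
    · exact nb_ne _ j (h.trans hab.symm)
    · exact nb_ne _ j h
  ext x
  rw [mem_cut q]
  simp only [Finset.mem_insert, Finset.mem_singleton]
  constructor
  · rintro (⟨rfl, _⟩ | ⟨rfl, _⟩ | ⟨j, _, rfl⟩)
    · exact Or.inl rfl
    · exact Or.inr (Or.inl rfl)
    · right; right
      fin_cases j
      · exact Or.inl rfl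
      · exact Or.inr (Or.inl rfl)
      · exact Or.inr (Or.inr rfl)
  · rintro (rfl | rfl | rfl | rfl | rfl)
    · exact Or.inl ⟨rfl, Or.inr trivial⟩
    · exact Or.inr (Or.inl ⟨rfl, Or.inr hab⟩)
    · exact Or.inr (Or.inr ⟨0, hk 0, rfl⟩)
    · exact Or.inr (Or.inr ⟨1, hk 1, rfl⟩)
    · exact Or.inr (Or.inr ⟨2, hk 2, rfl⟩)

theorem Sit.odd_pos {s t : E → V} {S : Finset E} {e f : E} {w a b : V} {κ : V → Fin 10}
    {ρ : Fin 10 → Fin 10 → E} (q : Sit s t S e f w a b κ ρ) (k : Fin 10) :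
    1 ≤ ((odd s t S).filter (fun v => κ v = k)).card := by
  have h1 := parity s t S (fun v => decide (κ v = k))
  rw [cut_odd q k] at h1
  simp only [decide_eq_true_eq] at h1
  omega

theorem Sit.odd_le {s t : E → V} {S : Finset E} {e f : E} {w a b : V} {κ : V → Fin 10}
    {ρ : Fin 10 → Fin 10 → E} (q : Sit s t S e f w a b κ ρ) (h : (odd s t S).card ≤ 16)
    (k : Fin 10) : ((odd s t S).filter (fun v => κ v = k)).card ≤ 7 := by
  have h1 := card_classes (odd s t S) κ
  have h2 : ∑ j ∈ (univ : Finset (Fin 10)).erase k, 1 ≤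
      ∑ j ∈ (univ : Finset (Fin 10)).erase k, ((odd s t S).filter (fun v => κ v = j)).card :=
    Finset.sum_le_sum fun j _ => q.odd_pos j
  rw [Finset.sum_const, smul_eq_mul, mul_one, Finset.card_erase_of_mem (Finset.mem_univ k),
    Finset.card_univ, Fintype.card_fin] at h2
  have h3 := Finset.add_sum_erase univ
    (fun j => ((odd s t S).filter (fun v => κ v = j)).card) (Finset.mem_univ k)
  omega

theorem Sit.odd_le2 {s t : E → V} {S : Finset E} {e f : E} {w a b : V} {κ : V → Fin 10}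
    {ρ : Fin 10 → Fin 10 → E} (q : Sit s t S e f w a b κ ρ) (h : (odd s t S).card ≤ 16)
    (k l : Fin 10) (hkl : k ≠ l) : ((odd s t S).filter (fun v => κ v = k)).card ≤ 4 ∨
      ((odd s t S).filter (fun v => κ v = l)).card ≤ 4 := by
  have h1 := card_classes (odd s t S) κ
  have hl : l ∈ (univ : Finset (Fin 10)).erase k :=
    Finset.mem_erase.2 ⟨hkl.symm, Finset.mem_univ l⟩
  have h2 : ∑ j ∈ ((univ : Finset (Fin 10)).erase k).erase l, 1 ≤
      ∑ j ∈ ((univ : Finset (Fin 10)).erase k).erase l,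
        ((odd s t S).filter (fun v => κ v = j)).card :=
    Finset.sum_le_sum fun j _ => q.odd_pos j
  rw [Finset.sum_const, smul_eq_mul, mul_one, Finset.card_erase_of_mem hl,
    Finset.card_erase_of_mem (Finset.mem_univ k), Finset.card_univ, Fintype.card_fin] at h2
  have h3 := Finset.add_sum_erase univ
    (fun j => ((odd s t S).filter (fun v => κ v = j)).card) (Finset.mem_univ k)
  have h4 := Finset.add_sum_erase _
    (fun j => ((odd s t S).filter (fun v => κ v = j)).card) hl
  omega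

theorem Sit.sumW {s t : E → V} {S : Finset E} {e f : E} {w a b : V}
    {κ : V → Fin 10} {ρ : Fin 10 → Fin 10 → E} (q : Sit s t S e f w a b κ ρ) {φ : E → F}
    (i : Inn s t S κ (κ w) φ) : (φ e + φ f) + (φ (ρ (κ w) (nb (κ w) 0)) +
      φ (ρ (κ w) (nb (κ w) 1)) + φ (ρ (κ w) (nb (κ w) 2))) = 0 := by
  refine sum_cut q (κ w) ?_ q.cutW i
  rintro j (⟨h, _⟩ | ⟨h, _⟩)
  · exact q.wa h
  · exact q.wb h

theorem Sit.sumA {s t : E → V} {S : Finset E} {e f : E} {w a b : V}
    {κ : V → Fin 10} {ρ : Fin 10 → Fin 10 → E} (q : Sit s t S e f w a b κ ρ) (hab : κ a = κ b)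
    {φ : E → F} (i : Inn s t S κ (κ a) φ) : (φ e + φ f) + (φ (ρ (κ a) (nb (κ a) 0)) +
      φ (ρ (κ a) (nb (κ a) 1)) + φ (ρ (κ a) (nb (κ a) 2))) = 0 := by
  refine sum_cut q (κ a) ?_ (q.cutA hab) i
  rintro j (⟨_, h⟩ | ⟨_, h⟩)
  · exact nb_ne _ j (h.trans hab.symm)
  · exact nb_ne _ j h

end Pool.Agent.TH362.TF
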